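import Pool.Agent.helper14.NR.E4d.PN4

/-!
Generated: certificates.
-/

namespace Pool.Agent.helper14.NR.E4d

open Pool.Agent.helper31.IA (Z)
open Pool.Agent.helper31.IX (Op XOps runX Cov CovD cov_split covD_split)
open Pool.Agent.helper31.IC (TD)
open Pool.Agent.helper63.RG (reloc)
open Pool.Agent.helper63.NF hiding TD
open Pool.Agent.helper14.CF (xE covD_E)
open Pool.Agent.helper14.NR (share)

mutual
theorem A4_c0_t5 : CovD 1 gA4 [(233646325760, 13744209920), (34359738368, 34359738368), (5497558138880, 5497558138880)] :=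
  covD_E kA4_eq (.n 2 (.n 2 (.n 2 (.n 2 (.n 2 (.l 0) (.l 0)) (.n 2 (.l 0) (.l 0))) (.n 0 (.n 2 (.l 0) (.l 0)) (.n 2 (.l 0) (.l 0)))) (.n 2 (.n 2 (.l 0) (.l 0)) (.n 0 (.l 0) (.l 0)))) (.n 2 (.n 2 (.l 0) (.l 0)) (.n 0 (.l 0) (.l 0))))
    [(233646325760, 13744209920), (34359738368, 34359738368), (5497558138880, 5497558138880)] rfl (by decide +kernel)
theorem A4_c0_t6 : CovD 1 gA4 [(233646325760, 13744209920), (103079215104, 34359738368), (5497558138880, 5497558138880)] :=
  covD_E kA4_eq (.n 2 (.n 2 (.n 2 (.n 2 (.n 2 (.l 0) (.l 0)) (.n 2 (.l 0) (.l 0))) (.n 2 (.n 0 (.l 0) (.l 0)) (.l 0))) (.n 2 (.n 2 (.l 0) (.l 0)) (.n 0 (.l 0) (.l 0)))) (.n 2 (.n 2 (.l 0) (.l 0)) (.n 0 (.l 0) (.l 0))))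
    [(233646325760, 13744209920), (103079215104, 34359738368), (5497558138880, 5497558138880)] rfl (by decide +kernel)
end

mutual
theorem A4_c0_t8 : CovD 1 gA4 [(233646325760, 13744209920), (171798691840, 34359738368), (5497558138880, 5497558138880)] :=
  covD_E kA4_eq (.n 2 (.n 2 (.n 2 (.n 0 (.n 2 (.l 0) (.l 0)) (.n 2 (.l 0) (.l 0))) (.n 2 (.n 0 (.l 0) (.l 0)) (.l 0))) (.n 2 (.n 2 (.l 0) (.l 0)) (.n 0 (.l 0) (.l 0)))) (.n 2 (.n 2 (.l 0) (.l 0)) (.n 0 (.l 0) (.l 0))))
    [(233646325760, 13744209920), (171798691840, 34359738368), (5497558138880, 5497558138880)] rfl (by decide +kernel)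
theorem A4_c0_t9 : CovD 1 gA4 [(233646325760, 13744209920), (240518168576, 34359738368), (5497558138880, 5497558138880)] :=
  covD_E kA4_eq (.n 2 (.n 2 (.n 2 (.n 0 (.n 2 (.l 0) (.l 0)) (.n 2 (.l 0) (.l 0))) (.n 2 (.n 0 (.l 0) (.l 0)) (.l 0))) (.n 2 (.n 2 (.l 0) (.l 0)) (.n 0 (.l 0) (.l 0)))) (.n 2 (.n 2 (.n 0 (.l 0) (.l 0)) (.l 0)) (.n 0 (.l 0) (.l 0))))
    [(233646325760, 13744209920), (240518168576, 34359738368), (5497558138880, 5497558138880)] rfl (by decide +kernel)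
end

mutual
theorem A4_c0_t12 : CovD 1 gA4 [(226774220800, 6872104960), (343597383680, 68719476736), (5497558138880, 5497558138880)] :=
  covD_E kA4_eq (.n 2 (.n 2 (.n 2 (.n 0 (.n 2 (.l 0) (.l 0)) (.n 2 (.l 0) (.l 0))) (.n 2 (.n 0 (.l 0) (.l 0)) (.l 0))) (.n 2 (.n 2 (.l 0) (.l 0)) (.n 1 (.l 0) (.l 0)))) (.n 2 (.n 2 (.n 0 (.l 0) (.l 0)) (.l 0)) (.n 1 (.l 0) (.l 0))))
    [(226774220800, 6872104960), (343597383680, 68719476736), (5497558138880, 5497558138880)] rfl (by decide +kernel)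
theorem A4_c0_t13 : CovD 1 gA4 [(226774220800, 6872104960), (481036337152, 68719476736), (5497558138880, 5497558138880)] :=
  covD_E kA4_eq (.n 2 (.n 2 (.n 2 (.n 0 (.n 2 (.l 0) (.l 0)) (.n 2 (.l 0) (.l 0))) (.n 2 (.n 0 (.l 0) (.l 0)) (.l 0))) (.n 2 (.n 2 (.l 0) (.l 0)) (.n 1 (.l 0) (.l 0)))) (.n 2 (.n 2 (.n 0 (.l 0) (.l 0)) (.l 0)) (.n 2 (.l 0) (.l 0))))
    [(226774220800, 6872104960), (481036337152, 68719476736), (5497558138880, 5497558138880)] rfl (by decide +kernel)
end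

mutual
theorem A4_c0_t15 : CovD 1 gA4 [(240518430720, 6872104960), (343597383680, 68719476736), (5497558138880, 5497558138880)] :=
  covD_E kA4_eq (.n 2 (.n 2 (.n 2 (.n 0 (.n 2 (.l 0) (.l 0)) (.n 2 (.l 0) (.l 0))) (.n 2 (.n 0 (.l 0) (.l 0)) (.l 0))) (.n 2 (.n 2 (.l 0) (.l 0)) (.n 1 (.l 0) (.l 0)))) (.n 2 (.n 2 (.n 0 (.l 0) (.l 0)) (.l 0)) (.n 1 (.l 0) (.l 0))))
    [(240518430720, 6872104960), (343597383680, 68719476736), (5497558138880, 5497558138880)] rfl (by decide +kernel)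
theorem A4_c0_t16 : CovD 1 gA4 [(240518430720, 6872104960), (481036337152, 68719476736), (5497558138880, 5497558138880)] :=
  covD_E kA4_eq (.n 2 (.n 2 (.n 2 (.n 0 (.n 2 (.l 0) (.l 0)) (.n 2 (.l 0) (.l 0))) (.n 2 (.n 0 (.l 0) (.l 0)) (.l 0))) (.n 2 (.n 2 (.l 0) (.l 0)) (.n 1 (.l 0) (.l 0)))) (.n 2 (.n 2 (.n 0 (.l 0) (.l 0)) (.l 0)) (.n 2 (.l 0) (.l 0))))
    [(240518430720, 6872104960), (481036337152, 68719476736), (5497558138880, 5497558138880)] rfl (by decide +kernel)
end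

mutual
theorem A4_c0_t20 : CovD 1 gA4 [(261134745600, 13744209920), (34359738368, 34359738368), (5497558138880, 5497558138880)] :=
  covD_E kA4_eq (.n 2 (.n 2 (.n 2 (.n 2 (.n 2 (.l 0) (.l 0)) (.n 2 (.l 0) (.l 0))) (.n 0 (.n 2 (.l 0) (.l 0)) (.n 2 (.l 0) (.l 0)))) (.n 2 (.n 2 (.l 0) (.l 0)) (.n 0 (.l 0) (.l 0)))) (.n 2 (.n 2 (.l 0) (.l 0)) (.n 0 (.l 0) (.l 0))))
    [(261134745600, 13744209920), (34359738368, 34359738368), (5497558138880, 5497558138880)] rfl (by decide +kernel)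
theorem A4_c0_t21 : CovD 1 gA4 [(261134745600, 13744209920), (103079215104, 34359738368), (5497558138880, 5497558138880)] :=
  covD_E kA4_eq (.n 2 (.n 2 (.n 2 (.n 2 (.n 2 (.l 0) (.l 0)) (.n 2 (.l 0) (.l 0))) (.n 2 (.n 0 (.l 0) (.l 0)) (.l 0))) (.n 2 (.n 2 (.l 0) (.l 0)) (.n 0 (.l 0) (.l 0)))) (.n 2 (.n 2 (.l 0) (.l 0)) (.n 0 (.l 0) (.l 0))))
    [(261134745600, 13744209920), (103079215104, 34359738368), (5497558138880, 5497558138880)] rfl (by decide +kernel)
end

mutual
theorem A4_c0_t23 : CovD 1 gA4 [(261134745600, 13744209920), (171798691840, 34359738368), (5497558138880, 5497558138880)] :=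
  covD_E kA4_eq (.n 2 (.n 2 (.n 2 (.n 2 (.n 2 (.l 0) (.l 0)) (.n 0 (.l 0) (.l 0))) (.n 2 (.n 0 (.l 0) (.l 0)) (.l 0))) (.n 2 (.n 2 (.l 0) (.l 0)) (.n 0 (.l 0) (.l 0)))) (.n 2 (.n 2 (.l 0) (.l 0)) (.n 0 (.l 0) (.l 0))))
    [(261134745600, 13744209920), (171798691840, 34359738368), (5497558138880, 5497558138880)] rfl (by decide +kernel)
theorem A4_c0_t24 : CovD 1 gA4 [(261134745600, 13744209920), (240518168576, 34359738368), (5497558138880, 5497558138880)] :=
  covD_E kA4_eq (.n 2 (.n 2 (.n 2 (.n 0 (.n 2 (.l 0) (.l 0)) (.n 2 (.l 0) (.l 0))) (.n 2 (.n 0 (.l 0) (.l 0)) (.l 0))) (.n 2 (.n 2 (.l 0) (.l 0)) (.n 0 (.l 0) (.l 0)))) (.n 2 (.n 2 (.l 0) (.l 0)) (.n 0 (.l 0) (.l 0))))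
    [(261134745600, 13744209920), (240518168576, 34359738368), (5497558138880, 5497558138880)] rfl (by decide +kernel)
end

mutual
theorem A4_c0_t27 : CovD 1 gA4 [(254262640640, 6872104960), (343597383680, 68719476736), (5497558138880, 5497558138880)] :=
  covD_E kA4_eq (.n 2 (.n 2 (.n 2 (.n 1 (.n 2 (.l 0) (.l 0)) (.n 2 (.l 0) (.l 0))) (.n 2 (.n 0 (.l 0) (.l 0)) (.l 0))) (.n 2 (.n 2 (.l 0) (.l 0)) (.n 1 (.l 0) (.l 0)))) (.n 2 (.n 2 (.n 0 (.l 0) (.l 0)) (.l 0)) (.n 2 (.l 0) (.l 0))))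
    [(254262640640, 6872104960), (343597383680, 68719476736), (5497558138880, 5497558138880)] rfl (by decide +kernel)
theorem A4_c0_t28 : CovD 1 gA4 [(254262640640, 6872104960), (481036337152, 68719476736), (5497558138880, 5497558138880)] :=
  covD_E kA4_eq (.n 2 (.n 2 (.n 2 (.n 0 (.n 2 (.l 0) (.l 0)) (.n 2 (.l 0) (.l 0))) (.n 2 (.n 0 (.l 0) (.l 0)) (.l 0))) (.n 2 (.n 2 (.l 0) (.l 0)) (.n 1 (.l 0) (.l 0)))) (.n 2 (.n 2 (.n 0 (.l 0) (.l 0)) (.l 0)) (.n 2 (.l 0) (.l 0))))
    [(254262640640, 6872104960), (481036337152, 68719476736), (5497558138880, 5497558138880)] rfl (by decide +kernel)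
end

mutual
theorem A4_c0_t30 : CovD 1 gA4 [(268006850560, 6872104960), (343597383680, 68719476736), (5497558138880, 5497558138880)] :=
  covD_E kA4_eq (.n 2 (.n 2 (.n 2 (.n 1 (.n 2 (.l 0) (.l 0)) (.n 2 (.l 0) (.l 0))) (.n 2 (.n 0 (.l 0) (.l 0)) (.l 0))) (.n 2 (.n 2 (.l 0) (.l 0)) (.n 1 (.l 0) (.l 0)))) (.n 2 (.n 2 (.n 0 (.l 0) (.l 0)) (.l 0)) (.n 2 (.l 0) (.l 0))))
    [(268006850560, 6872104960), (343597383680, 68719476736), (5497558138880, 5497558138880)] rfl (by decide +kernel)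
theorem A4_c0_t31 : CovD 1 gA4 [(268006850560, 6872104960), (481036337152, 68719476736), (5497558138880, 5497558138880)] :=
  covD_E kA4_eq (.n 2 (.n 2 (.n 2 (.n 1 (.n 2 (.l 0) (.l 0)) (.n 2 (.l 0) (.l 0))) (.n 2 (.n 0 (.l 0) (.l 0)) (.l 0))) (.n 2 (.n 2 (.l 0) (.l 0)) (.n 1 (.l 0) (.l 0)))) (.n 2 (.n 2 (.n 0 (.l 0) (.l 0)) (.l 0)) (.n 2 (.l 0) (.l 0))))
    [(268006850560, 6872104960), (481036337152, 68719476736), (5497558138880, 5497558138880)] rfl (by decide +kernel)
end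

mutual
theorem A4_c0_t36 : CovD 1 gA4 [(226774220800, 6872104960), (618475290624, 68719476736), (5497558138880, 5497558138880)] :=
  covD_E kA4_eq (.n 2 (.n 2 (.n 2 (.n 0 (.n 2 (.l 0) (.l 0)) (.n 2 (.l 0) (.l 0))) (.n 2 (.n 0 (.l 0) (.l 0)) (.l 0))) (.n 2 (.n 2 (.l 0) (.l 0)) (.n 1 (.l 0) (.l 0)))) (.n 2 (.n 2 (.n 0 (.l 0) (.l 0)) (.l 0)) (.n 2 (.l 0) (.l 0))))
    [(226774220800, 6872104960), (618475290624, 68719476736), (5497558138880, 5497558138880)] rfl (by decide +kernel)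
theorem A4_c0_t37 : CovD 1 gA4 [(226774220800, 6872104960), (755914244096, 68719476736), (5497558138880, 5497558138880)] :=
  covD_E kA4_eq (.n 2 (.n 2 (.n 2 (.n 2 (.l 0) (.n 0 (.l 0) (.l 0))) (.n 2 (.n 0 (.l 0) (.l 0)) (.l 0))) (.n 2 (.n 2 (.l 0) (.l 0)) (.n 1 (.l 0) (.l 0)))) (.n 2 (.n 0 (.n 2 (.l 0) (.l 0)) (.n 2 (.l 0) (.l 0))) (.n 2 (.l 0) (.l 0))))
    [(226774220800, 6872104960), (755914244096, 68719476736), (5497558138880, 5497558138880)] rfl (by decide +kernel)
end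

mutual
theorem A4_c0_t39 : CovD 1 gA4 [(226774220800, 6872104960), (893353197568, 68719476736), (5497558138880, 5497558138880)] :=
  covD_E kA4_eq (.n 2 (.n 2 (.n 2 (.n 2 (.l 0) (.n 0 (.l 0) (.l 0))) (.n 2 (.n 0 (.l 0) (.l 0)) (.l 0))) (.n 2 (.n 2 (.l 0) (.l 0)) (.n 1 (.l 0) (.l 0)))) (.n 2 (.n 0 (.n 2 (.l 0) (.l 0)) (.n 2 (.l 0) (.l 0))) (.n 2 (.l 0) (.l 0))))
    [(226774220800, 6872104960), (893353197568, 68719476736), (5497558138880, 5497558138880)] rfl (by decide +kernel)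
theorem A4_c0_t41 : CovD 1 gA4 [(226774220800, 6872104960), (1030792151040, 68719476736), (2748779069440, 2748779069440)] :=
  covD_E kA4_eq (.n 2 (.n 2 (.n 2 (.l 0) (.n 0 (.l 0) (.l 0))) (.n 2 (.n 0 (.l 0) (.l 0)) (.l 0))) (.n 2 (.n 2 (.l 0) (.l 0)) (.n 1 (.l 0) (.l 0))))
    [(226774220800, 6872104960), (1030792151040, 68719476736), (2748779069440, 2748779069440)] rfl (by decide +kernel)
end

mutual
theorem A4_c0_t42 : CovD 1 gA4 [(226774220800, 6872104960), (1030792151040, 68719476736), (8246337208320, 2748779069440)] :=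
  covD_E kA4_eq (.n 2 (.n 1 (.n 2 (.l 0) (.l 0)) (.n 2 (.l 0) (.l 0))) (.n 2 (.n 0 (.l 0) (.l 0)) (.l 0)))
    [(226774220800, 6872104960), (1030792151040, 68719476736), (8246337208320, 2748779069440)] rfl (by decide +kernel)
theorem A4_c0_t45 : CovD 1 gA4 [(240518430720, 6872104960), (618475290624, 68719476736), (5497558138880, 5497558138880)] :=
  covD_E kA4_eq (.n 2 (.n 2 (.n 2 (.n 0 (.n 2 (.l 0) (.l 0)) (.n 2 (.l 0) (.l 0))) (.n 2 (.n 0 (.l 0) (.l 0)) (.l 0))) (.n 2 (.n 2 (.l 0) (.l 0)) (.n 1 (.l 0) (.l 0)))) (.n 2 (.n 2 (.n 0 (.l 0) (.l 0)) (.l 0)) (.n 2 (.l 0) (.l 0))))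
    [(240518430720, 6872104960), (618475290624, 68719476736), (5497558138880, 5497558138880)] rfl (by decide +kernel)
end

mutual
theorem A4_c0_t47 : CovD 1 gA4 [(240518430720, 6872104960), (755914244096, 68719476736), (2748779069440, 2748779069440)] :=
  covD_E kA4_eq (.n 2 (.n 2 (.n 0 (.n 2 (.l 0) (.l 0)) (.n 2 (.l 0) (.l 0))) (.n 2 (.n 0 (.l 0) (.l 0)) (.l 0))) (.n 2 (.n 2 (.l 0) (.l 0)) (.n 1 (.l 0) (.l 0))))
    [(240518430720, 6872104960), (755914244096, 68719476736), (2748779069440, 2748779069440)] rfl (by decide +kernel)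
theorem A4_c0_t48 : CovD 1 gA4 [(240518430720, 6872104960), (755914244096, 68719476736), (8246337208320, 2748779069440)] :=
  covD_E kA4_eq (.n 2 (.n 0 (.n 2 (.l 0) (.l 0)) (.n 2 (.l 0) (.l 0))) (.n 2 (.l 0) (.l 0)))
    [(240518430720, 6872104960), (755914244096, 68719476736), (8246337208320, 2748779069440)] rfl (by decide +kernel)
end

mutual
theorem A4_c0_t51 : CovD 1 gA4 [(240518430720, 6872104960), (893353197568, 68719476736), (2748779069440, 2748779069440)] :=
  covD_E kA4_eq (.n 2 (.n 2 (.n 0 (.n 2 (.l 0) (.l 0)) (.n 2 (.l 0) (.l 0))) (.n 2 (.n 0 (.l 0) (.l 0)) (.l 0))) (.n 2 (.n 2 (.l 0) (.l 0)) (.n 1 (.l 0) (.l 0))))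
    [(240518430720, 6872104960), (893353197568, 68719476736), (2748779069440, 2748779069440)] rfl (by decide +kernel)
theorem A4_c0_t52 : CovD 1 gA4 [(240518430720, 6872104960), (893353197568, 68719476736), (8246337208320, 2748779069440)] :=
  covD_E kA4_eq (.n 2 (.n 1 (.n 2 (.l 0) (.l 0)) (.n 2 (.l 0) (.l 0))) (.n 2 (.l 0) (.l 0)))
    [(240518430720, 6872104960), (893353197568, 68719476736), (8246337208320, 2748779069440)] rfl (by decide +kernel)
end

mutual
theorem A4_c0_t54 : CovD 1 gA4 [(240518430720, 6872104960), (1030792151040, 68719476736), (2748779069440, 2748779069440)] :=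
  covD_E kA4_eq (.n 2 (.n 0 (.n 2 (.n 2 (.l 0) (.l 0)) (.n 2 (.l 0) (.l 0))) (.n 2 (.n 2 (.l 0) (.l 0)) (.n 2 (.l 0) (.l 0)))) (.n 2 (.n 2 (.l 0) (.l 0)) (.n 2 (.l 0) (.l 0))))
    [(240518430720, 6872104960), (1030792151040, 68719476736), (2748779069440, 2748779069440)] rfl (by decide +kernel)
theorem A4_c0_t55 : CovD 1 gA4 [(240518430720, 6872104960), (1030792151040, 68719476736), (8246337208320, 2748779069440)] :=
  covD_E kA4_eq (.n 2 (.n 1 (.n 2 (.l 0) (.l 0)) (.n 2 (.l 0) (.l 0))) (.n 2 (.n 0 (.l 0) (.l 0)) (.l 0)))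
    [(240518430720, 6872104960), (1030792151040, 68719476736), (8246337208320, 2748779069440)] rfl (by decide +kernel)
end

mutual
theorem A4_c0_t60 : CovD 1 gA4 [(254262640640, 6872104960), (618475290624, 68719476736), (2748779069440, 2748779069440)] :=
  covD_E kA4_eq (.n 2 (.n 2 (.n 0 (.n 2 (.l 0) (.l 0)) (.n 2 (.l 0) (.l 0))) (.n 2 (.n 0 (.l 0) (.l 0)) (.l 0))) (.n 2 (.n 2 (.l 0) (.l 0)) (.n 1 (.l 0) (.l 0))))
    [(254262640640, 6872104960), (618475290624, 68719476736), (2748779069440, 2748779069440)] rfl (by decide +kernel)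
theorem A4_c0_t61 : CovD 1 gA4 [(268006850560, 6872104960), (618475290624, 68719476736), (2748779069440, 2748779069440)] :=
  covD_E kA4_eq (.n 2 (.n 0 (.n 2 (.n 2 (.l 0) (.l 0)) (.n 2 (.l 0) (.l 0))) (.n 2 (.n 2 (.l 0) (.l 0)) (.n 2 (.l 0) (.l 0)))) (.n 2 (.n 2 (.l 0) (.l 0)) (.n 1 (.l 0) (.l 0))))
    [(268006850560, 6872104960), (618475290624, 68719476736), (2748779069440, 2748779069440)] rfl (by decide +kernel)
end

mutual
theorem A4_c0_t62 : CovD 1 gA4 [(261134745600, 13744209920), (618475290624, 68719476736), (8246337208320, 2748779069440)] :=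
  covD_E kA4_eq (.n 1 (.n 2 (.n 2 (.n 0 (.l 0) (.l 0)) (.l 0)) (.n 2 (.l 0) (.l 0))) (.n 2 (.n 0 (.n 2 (.l 0) (.l 0)) (.n 2 (.l 0) (.l 0))) (.n 2 (.l 0) (.l 0))))
    [(261134745600, 13744209920), (618475290624, 68719476736), (8246337208320, 2748779069440)] rfl (by decide +kernel)
theorem A4_c0_t65 : CovD 1 gA4 [(254262640640, 6872104960), (755914244096, 68719476736), (2748779069440, 2748779069440)] :=
  covD_E kA4_eq (.n 2 (.n 0 (.n 2 (.n 2 (.l 0) (.l 0)) (.n 2 (.l 0) (.l 0))) (.n 2 (.n 2 (.l 0) (.l 0)) (.n 2 (.l 0) (.l 0)))) (.n 2 (.n 2 (.l 0) (.l 0)) (.n 1 (.l 0) (.l 0))))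
    [(254262640640, 6872104960), (755914244096, 68719476736), (2748779069440, 2748779069440)] rfl (by decide +kernel)
end

mutual
theorem A4_c0_t66 : CovD 1 gA4 [(254262640640, 6872104960), (755914244096, 68719476736), (8246337208320, 2748779069440)] :=
  covD_E kA4_eq (.n 2 (.n 1 (.n 2 (.l 0) (.l 0)) (.n 2 (.l 0) (.l 0))) (.n 2 (.l 0) (.l 0)))
    [(254262640640, 6872104960), (755914244096, 68719476736), (8246337208320, 2748779069440)] rfl (by decide +kernel)
theorem A4_c0_t68 : CovD 1 gA4 [(268006850560, 6872104960), (755914244096, 68719476736), (2748779069440, 2748779069440)] :=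
  covD_E kA4_eq (.n 2 (.n 0 (.n 2 (.n 2 (.l 0) (.l 0)) (.n 2 (.l 0) (.l 0))) (.n 2 (.n 2 (.l 0) (.l 0)) (.n 2 (.l 0) (.l 0)))) (.n 2 (.n 2 (.l 0) (.l 0)) (.n 2 (.l 0) (.l 0))))
    [(268006850560, 6872104960), (755914244096, 68719476736), (2748779069440, 2748779069440)] rfl (by decide +kernel)
end

mutual
theorem A4_c0_t69 : CovD 1 gA4 [(268006850560, 6872104960), (755914244096, 68719476736), (8246337208320, 2748779069440)] :=
  covD_E kA4_eq (.n 2 (.n 1 (.n 2 (.l 0) (.l 0)) (.n 2 (.l 0) (.l 0))) (.n 2 (.l 0) (.l 0)))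
    [(268006850560, 6872104960), (755914244096, 68719476736), (8246337208320, 2748779069440)] rfl (by decide +kernel)
theorem A4_c0_t73 : CovD 1 gA4 [(254262640640, 6872104960), (893353197568, 68719476736), (2748779069440, 2748779069440)] :=
  covD_E kA4_eq (.n 2 (.n 0 (.n 2 (.n 2 (.l 0) (.l 0)) (.n 2 (.l 0) (.l 0))) (.n 2 (.n 2 (.l 0) (.l 0)) (.n 2 (.l 0) (.l 0)))) (.n 2 (.n 2 (.l 0) (.l 0)) (.n 2 (.l 0) (.l 0))))
    [(254262640640, 6872104960), (893353197568, 68719476736), (2748779069440, 2748779069440)] rfl (by decide +kernel)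
end

mutual
theorem A4_c0_t74 : CovD 1 gA4 [(254262640640, 6872104960), (893353197568, 68719476736), (8246337208320, 2748779069440)] :=
  covD_E kA4_eq (.n 2 (.n 1 (.n 2 (.l 0) (.l 0)) (.n 2 (.l 0) (.l 0))) (.n 2 (.n 0 (.l 0) (.l 0)) (.l 0)))
    [(254262640640, 6872104960), (893353197568, 68719476736), (8246337208320, 2748779069440)] rfl (by decide +kernel)
theorem A4_c0_t76 : CovD 1 gA4 [(254262640640, 6872104960), (1030792151040, 68719476736), (2748779069440, 2748779069440)] :=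
  covD_E kA4_eq (.n 2 (.n 0 (.n 2 (.n 2 (.l 0) (.l 0)) (.n 2 (.l 0) (.l 0))) (.n 2 (.n 2 (.l 0) (.l 0)) (.n 2 (.l 0) (.l 0)))) (.n 2 (.n 2 (.l 0) (.l 0)) (.n 2 (.l 0) (.l 0))))
    [(254262640640, 6872104960), (1030792151040, 68719476736), (2748779069440, 2748779069440)] rfl (by decide +kernel)
end

mutual
theorem A4_c0_t77 : CovD 1 gA4 [(254262640640, 6872104960), (1030792151040, 68719476736), (8246337208320, 2748779069440)] :=
  covD_E kA4_eq (.n 2 (.n 1 (.n 2 (.l 0) (.l 0)) (.n 2 (.l 0) (.l 0))) (.n 2 (.n 0 (.l 0) (.l 0)) (.l 0)))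
    [(254262640640, 6872104960), (1030792151040, 68719476736), (8246337208320, 2748779069440)] rfl (by decide +kernel)
theorem A4_c0_t80 : CovD 1 gA4 [(268006850560, 6872104960), (893353197568, 68719476736), (2748779069440, 2748779069440)] :=
  covD_E kA4_eq (.n 2 (.n 0 (.n 2 (.n 2 (.l 0) (.l 0)) (.n 2 (.l 0) (.l 0))) (.n 2 (.n 2 (.l 0) (.l 0)) (.n 2 (.l 0) (.l 0)))) (.n 2 (.n 2 (.l 0) (.l 0)) (.n 2 (.l 0) (.l 0))))
    [(268006850560, 6872104960), (893353197568, 68719476736), (2748779069440, 2748779069440)] rfl (by decide +kernel)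
end

mutual
theorem A4_c0_t81 : CovD 1 gA4 [(268006850560, 6872104960), (893353197568, 68719476736), (8246337208320, 2748779069440)] :=
  covD_E kA4_eq (.n 2 (.n 1 (.n 2 (.l 0) (.l 0)) (.n 2 (.l 0) (.l 0))) (.n 2 (.n 0 (.l 0) (.l 0)) (.l 0)))
    [(268006850560, 6872104960), (893353197568, 68719476736), (8246337208320, 2748779069440)] rfl (by decide +kernel)
theorem A4_c0_t83 : CovD 1 gA4 [(268006850560, 6872104960), (1030792151040, 68719476736), (2748779069440, 2748779069440)] :=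
  covD_E kA4_eq (.n 2 (.n 0 (.n 2 (.n 2 (.l 0) (.l 0)) (.n 2 (.l 0) (.l 0))) (.n 2 (.n 2 (.l 0) (.l 0)) (.n 2 (.l 0) (.l 0)))) (.n 2 (.n 2 (.n 0 (.l 0) (.l 0)) (.l 0)) (.n 2 (.l 0) (.l 0))))
    [(268006850560, 6872104960), (1030792151040, 68719476736), (2748779069440, 2748779069440)] rfl (by decide +kernel)
end

theorem A4_c0_t84 : CovD 1 gA4 [(268006850560, 6872104960), (1030792151040, 68719476736), (8246337208320, 2748779069440)] :=
  covD_E kA4_eq (.n 1 (.n 2 (.n 2 (.l 0) (.l 0)) (.n 2 (.l 0) (.l 0))) (.n 2 (.n 2 (.l 0) (.l 0)) (.n 2 (.l 0) (.l 0))))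
    [(268006850560, 6872104960), (1030792151040, 68719476736), (8246337208320, 2748779069440)] rfl (by decide +kernel)

theorem A4_c0_t4 : CovD 1 gA4 [(233646325760, 13744209920), (68719476736, 68719476736), (5497558138880, 5497558138880)] :=
  covD_split 1 (by decide +kernel) A4_c0_t5 A4_c0_t6

theorem A4_c0_t7 : CovD 1 gA4 [(233646325760, 13744209920), (206158430208, 68719476736), (5497558138880, 5497558138880)] :=
  covD_split 1 (by decide +kernel) A4_c0_t8 A4_c0_t9

theorem A4_c0_t3 : CovD 1 gA4 [(233646325760, 13744209920), (137438953472, 137438953472), (5497558138880, 5497558138880)] :=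
  covD_split 1 (by decide +kernel) A4_c0_t4 A4_c0_t7

theorem A4_c0_t11 : CovD 1 gA4 [(226774220800, 6872104960), (412316860416, 137438953472), (5497558138880, 5497558138880)] :=
  covD_split 1 (by decide +kernel) A4_c0_t12 A4_c0_t13

theorem A4_c0_t14 : CovD 1 gA4 [(240518430720, 6872104960), (412316860416, 137438953472), (5497558138880, 5497558138880)] :=
  covD_split 1 (by decide +kernel) A4_c0_t15 A4_c0_t16

theorem A4_c0_t10 : CovD 1 gA4 [(233646325760, 13744209920), (412316860416, 137438953472), (5497558138880, 5497558138880)] :=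
  covD_split 0 (by decide +kernel) A4_c0_t11 A4_c0_t14

theorem A4_c0_t2 : CovD 1 gA4 [(233646325760, 13744209920), (274877906944, 274877906944), (5497558138880, 5497558138880)] :=
  covD_split 1 (by decide +kernel) A4_c0_t3 A4_c0_t10

theorem A4_c0_t19 : CovD 1 gA4 [(261134745600, 13744209920), (68719476736, 68719476736), (5497558138880, 5497558138880)] :=
  covD_split 1 (by decide +kernel) A4_c0_t20 A4_c0_t21

theorem A4_c0_t22 : CovD 1 gA4 [(261134745600, 13744209920), (206158430208, 68719476736), (5497558138880, 5497558138880)] :=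
  covD_split 1 (by decide +kernel) A4_c0_t23 A4_c0_t24

theorem A4_c0_t18 : CovD 1 gA4 [(261134745600, 13744209920), (137438953472, 137438953472), (5497558138880, 5497558138880)] :=
  covD_split 1 (by decide +kernel) A4_c0_t19 A4_c0_t22

theorem A4_c0_t26 : CovD 1 gA4 [(254262640640, 6872104960), (412316860416, 137438953472), (5497558138880, 5497558138880)] :=
  covD_split 1 (by decide +kernel) A4_c0_t27 A4_c0_t28

theorem A4_c0_t29 : CovD 1 gA4 [(268006850560, 6872104960), (412316860416, 137438953472), (5497558138880, 5497558138880)] :=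
  covD_split 1 (by decide +kernel) A4_c0_t30 A4_c0_t31

theorem A4_c0_t25 : CovD 1 gA4 [(261134745600, 13744209920), (412316860416, 137438953472), (5497558138880, 5497558138880)] :=
  covD_split 0 (by decide +kernel) A4_c0_t26 A4_c0_t29

theorem A4_c0_t17 : CovD 1 gA4 [(261134745600, 13744209920), (274877906944, 274877906944), (5497558138880, 5497558138880)] :=
  covD_split 1 (by decide +kernel) A4_c0_t18 A4_c0_t25

theorem A4_c0_t1 : CovD 1 gA4 [(247390535680, 27488419840), (274877906944, 274877906944), (5497558138880, 5497558138880)] :=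
  covD_split 0 (by decide +kernel) A4_c0_t2 A4_c0_t17

theorem A4_c0_t35 : CovD 1 gA4 [(226774220800, 6872104960), (687194767360, 137438953472), (5497558138880, 5497558138880)] :=
  covD_split 1 (by decide +kernel) A4_c0_t36 A4_c0_t37

theorem A4_c0_t40 : CovD 1 gA4 [(226774220800, 6872104960), (1030792151040, 68719476736), (5497558138880, 5497558138880)] :=
  covD_split 2 (by decide +kernel) A4_c0_t41 A4_c0_t42

theorem A4_c0_t38 : CovD 1 gA4 [(226774220800, 6872104960), (962072674304, 137438953472), (5497558138880, 5497558138880)] :=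
  covD_split 1 (by decide +kernel) A4_c0_t39 A4_c0_t40

theorem A4_c0_t34 : CovD 1 gA4 [(226774220800, 6872104960), (824633720832, 274877906944), (5497558138880, 5497558138880)] :=
  covD_split 1 (by decide +kernel) A4_c0_t35 A4_c0_t38

theorem A4_c0_t46 : CovD 1 gA4 [(240518430720, 6872104960), (755914244096, 68719476736), (5497558138880, 5497558138880)] :=
  covD_split 2 (by decide +kernel) A4_c0_t47 A4_c0_t48

theorem A4_c0_t44 : CovD 1 gA4 [(240518430720, 6872104960), (687194767360, 137438953472), (5497558138880, 5497558138880)] :=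
  covD_split 1 (by decide +kernel) A4_c0_t45 A4_c0_t46

theorem A4_c0_t50 : CovD 1 gA4 [(240518430720, 6872104960), (893353197568, 68719476736), (5497558138880, 5497558138880)] :=
  covD_split 2 (by decide +kernel) A4_c0_t51 A4_c0_t52

theorem A4_c0_t53 : CovD 1 gA4 [(240518430720, 6872104960), (1030792151040, 68719476736), (5497558138880, 5497558138880)] :=
  covD_split 2 (by decide +kernel) A4_c0_t54 A4_c0_t55

theorem A4_c0_t49 : CovD 1 gA4 [(240518430720, 6872104960), (962072674304, 137438953472), (5497558138880, 5497558138880)] :=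
  covD_split 1 (by decide +kernel) A4_c0_t50 A4_c0_t53

theorem A4_c0_t43 : CovD 1 gA4 [(240518430720, 6872104960), (824633720832, 274877906944), (5497558138880, 5497558138880)] :=
  covD_split 1 (by decide +kernel) A4_c0_t44 A4_c0_t49

theorem A4_c0_t33 : CovD 1 gA4 [(233646325760, 13744209920), (824633720832, 274877906944), (5497558138880, 5497558138880)] :=
  covD_split 0 (by decide +kernel) A4_c0_t34 A4_c0_t43

theorem A4_c0_t59 : CovD 1 gA4 [(261134745600, 13744209920), (618475290624, 68719476736), (2748779069440, 2748779069440)] :=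
  covD_split 0 (by decide +kernel) A4_c0_t60 A4_c0_t61

theorem A4_c0_t58 : CovD 1 gA4 [(261134745600, 13744209920), (618475290624, 68719476736), (5497558138880, 5497558138880)] :=
  covD_split 2 (by decide +kernel) A4_c0_t59 A4_c0_t62

theorem A4_c0_t64 : CovD 1 gA4 [(254262640640, 6872104960), (755914244096, 68719476736), (5497558138880, 5497558138880)] :=
  covD_split 2 (by decide +kernel) A4_c0_t65 A4_c0_t66

theorem A4_c0_t67 : CovD 1 gA4 [(268006850560, 6872104960), (755914244096, 68719476736), (5497558138880, 5497558138880)] :=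
  covD_split 2 (by decide +kernel) A4_c0_t68 A4_c0_t69

theorem A4_c0_t63 : CovD 1 gA4 [(261134745600, 13744209920), (755914244096, 68719476736), (5497558138880, 5497558138880)] :=
  covD_split 0 (by decide +kernel) A4_c0_t64 A4_c0_t67

theorem A4_c0_t57 : CovD 1 gA4 [(261134745600, 13744209920), (687194767360, 137438953472), (5497558138880, 5497558138880)] :=
  covD_split 1 (by decide +kernel) A4_c0_t58 A4_c0_t63

theorem A4_c0_t72 : CovD 1 gA4 [(254262640640, 6872104960), (893353197568, 68719476736), (5497558138880, 5497558138880)] :=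
  covD_split 2 (by decide +kernel) A4_c0_t73 A4_c0_t74

theorem A4_c0_t75 : CovD 1 gA4 [(254262640640, 6872104960), (1030792151040, 68719476736), (5497558138880, 5497558138880)] :=
  covD_split 2 (by decide +kernel) A4_c0_t76 A4_c0_t77

theorem A4_c0_t71 : CovD 1 gA4 [(254262640640, 6872104960), (962072674304, 137438953472), (5497558138880, 5497558138880)] :=
  covD_split 1 (by decide +kernel) A4_c0_t72 A4_c0_t75

theorem A4_c0_t79 : CovD 1 gA4 [(268006850560, 6872104960), (893353197568, 68719476736), (5497558138880, 5497558138880)] :=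
  covD_split 2 (by decide +kernel) A4_c0_t80 A4_c0_t81

theorem A4_c0_t82 : CovD 1 gA4 [(268006850560, 6872104960), (1030792151040, 68719476736), (5497558138880, 5497558138880)] :=
  covD_split 2 (by decide +kernel) A4_c0_t83 A4_c0_t84

theorem A4_c0_t78 : CovD 1 gA4 [(268006850560, 6872104960), (962072674304, 137438953472), (5497558138880, 5497558138880)] :=
  covD_split 1 (by decide +kernel) A4_c0_t79 A4_c0_t82

theorem A4_c0_t70 : CovD 1 gA4 [(261134745600, 13744209920), (962072674304, 137438953472), (5497558138880, 5497558138880)] :=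
  covD_split 0 (by decide +kernel) A4_c0_t71 A4_c0_t78

theorem A4_c0_t56 : CovD 1 gA4 [(261134745600, 13744209920), (824633720832, 274877906944), (5497558138880, 5497558138880)] :=
  covD_split 1 (by decide +kernel) A4_c0_t57 A4_c0_t70

theorem A4_c0_t32 : CovD 1 gA4 [(247390535680, 27488419840), (824633720832, 274877906944), (5497558138880, 5497558138880)] :=
  covD_split 0 (by decide +kernel) A4_c0_t33 A4_c0_t56

theorem A4_c0 : CovD 1 gA4 [(247390535680, 27488419840), (549755813888, 549755813888), (5497558138880, 5497558138880)] :=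
  covD_split 1 (by decide +kernel) A4_c0_t1 A4_c0_t32

end Pool.Agent.helper14.NR.E4d
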