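import Pool.Agent.helper14.NR.E4d.PN4

/-!
Generated: certificates.
-/

namespace Pool.Agent.helper14.NR.E4d

open Pool.Agent.helper31.IA (Z)
open Pool.Agent.helper31.IX (Op XOps runX Cov CovD cov_split covD_split)
open Pool.Agent.helper31.IC (TD)
open Pool.Agent.helper63.RG (reloc)
open Pool.Agent.helper63.NF hiding TD
open Pool.Agent.helper14.CF (xE covD_E)
open Pool.Agent.helper14.NR (share)

mutual
theorem B4_c0_t3 : CovD 1 gB4 [(226774220800, 6872104960), (274877906944, 274877906944), (54975791104, 54975791104)] :=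
  covD_E kB4_eq (.n 1 (.n 1 (.n 2 (.l 0) (.l 0)) (.n 1 (.l 0) (.l 0))) (.n 1 (.n 1 (.l 0) (.l 0)) (.n 2 (.l 0) (.l 0))))
    [(226774220800, 6872104960), (274877906944, 274877906944), (54975791104, 54975791104)] rfl (by decide +kernel)
theorem B4_c0_t4 : CovD 1 gB4 [(226774220800, 6872104960), (824633720832, 274877906944), (54975791104, 54975791104)] :=
  covD_E kB4_eq (.n 1 (.n 1 (.n 2 (.l 0) (.l 0)) (.n 2 (.l 0) (.l 0))) (.n 0 (.n 1 (.n 2 (.l 0) (.l 0)) (.n 2 (.l 0) (.l 0))) (.n 1 (.n 2 (.l 0) (.l 0)) (.n 2 (.l 0) (.l 0)))))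
    [(226774220800, 6872104960), (824633720832, 274877906944), (54975791104, 54975791104)] rfl (by decide +kernel)
end

mutual
theorem B4_c0_t6 : CovD 1 gB4 [(240518430720, 6872104960), (274877906944, 274877906944), (54975791104, 54975791104)] :=
  covD_E kB4_eq (.n 1 (.n 0 (.n 1 (.l 0) (.l 0)) (.n 1 (.l 0) (.l 0))) (.n 1 (.n 1 (.l 0) (.l 0)) (.n 2 (.l 0) (.l 0))))
    [(240518430720, 6872104960), (274877906944, 274877906944), (54975791104, 54975791104)] rfl (by decide +kernel)
theorem B4_c0_t7 : CovD 1 gB4 [(240518430720, 6872104960), (824633720832, 274877906944), (54975791104, 54975791104)] :=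
  covD_E kB4_eq (.n 1 (.n 1 (.n 2 (.l 0) (.l 0)) (.n 2 (.l 0) (.l 0))) (.n 0 (.n 1 (.n 2 (.l 0) (.l 0)) (.n 2 (.l 0) (.l 0))) (.n 1 (.n 2 (.l 0) (.l 0)) (.n 2 (.l 0) (.l 0)))))
    [(240518430720, 6872104960), (824633720832, 274877906944), (54975791104, 54975791104)] rfl (by decide +kernel)
end

mutual
theorem B4_c0_t10 : CovD 1 gB4 [(254262640640, 6872104960), (274877906944, 274877906944), (54975791104, 54975791104)] :=
  covD_E kB4_eq (.n 1 (.n 0 (.n 1 (.l 0) (.l 0)) (.n 1 (.l 0) (.l 0))) (.n 1 (.n 1 (.l 0) (.l 0)) (.n 2 (.l 0) (.l 0))))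
    [(254262640640, 6872104960), (274877906944, 274877906944), (54975791104, 54975791104)] rfl (by decide +kernel)
theorem B4_c0_t11 : CovD 1 gB4 [(254262640640, 6872104960), (824633720832, 274877906944), (54975791104, 54975791104)] :=
  covD_E kB4_eq (.n 1 (.n 1 (.n 2 (.l 0) (.l 0)) (.n 2 (.l 0) (.l 0))) (.n 0 (.n 1 (.n 2 (.l 0) (.l 0)) (.n 2 (.l 0) (.l 0))) (.n 1 (.n 2 (.l 0) (.l 0)) (.n 2 (.l 0) (.l 0)))))
    [(254262640640, 6872104960), (824633720832, 274877906944), (54975791104, 54975791104)] rfl (by decide +kernel)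
end

mutual
theorem B4_c0_t13 : CovD 1 gB4 [(268006850560, 6872104960), (274877906944, 274877906944), (54975791104, 54975791104)] :=
  covD_E kB4_eq (.n 1 (.n 0 (.n 1 (.l 0) (.l 0)) (.n 1 (.l 0) (.l 0))) (.n 1 (.n 1 (.l 0) (.l 0)) (.n 2 (.l 0) (.l 0))))
    [(268006850560, 6872104960), (274877906944, 274877906944), (54975791104, 54975791104)] rfl (by decide +kernel)
theorem B4_c0_t14 : CovD 1 gB4 [(268006850560, 6872104960), (824633720832, 274877906944), (54975791104, 54975791104)] :=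
  covD_E kB4_eq (.n 1 (.n 1 (.n 2 (.l 0) (.l 0)) (.n 2 (.l 0) (.l 0))) (.n 1 (.n 0 (.n 2 (.l 0) (.l 0)) (.n 2 (.l 0) (.l 0))) (.n 1 (.n 2 (.l 0) (.l 0)) (.n 2 (.l 0) (.l 0)))))
    [(268006850560, 6872104960), (824633720832, 274877906944), (54975791104, 54975791104)] rfl (by decide +kernel)
end

mutual
theorem D4_c0_t4 : CovD 1 gD4 [(233646325760, 13744209920), (68719476736, 68719476736), (863554764800, 863554764800)] :=
  covD_E kD4_eq (.n 2 (.n 2 (.n 1 (.l 0) (.l 0)) (.n 2 (.l 0) (.n 0 (.l 0) (.l 0)))) (.n 0 (.n 2 (.n 2 (.l 0) (.l 0)) (.n 2 (.l 0) (.l 1))) (.n 2 (.n 2 (.l 0) (.l 1)) (.l 1))))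
    [(233646325760, 13744209920), (68719476736, 68719476736), (863554764800, 863554764800)] rfl (by decide +kernel)
theorem D4_c0_t5 : CovD 1 gD4 [(233646325760, 13744209920), (206158430208, 68719476736), (863554764800, 863554764800)] :=
  covD_E kD4_eq (.n 2 (.n 2 (.n 0 (.n 1 (.l 0) (.l 0)) (.l 1)) (.n 2 (.l 1) (.l 1))) (.n 2 (.n 1 (.l 1) (.l 1)) (.l 1)))
    [(233646325760, 13744209920), (206158430208, 68719476736), (863554764800, 863554764800)] rfl (by decide +kernel)
end

mutual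
theorem D4_c0_t6 : CovD 1 gD4 [(261134745600, 13744209920), (137438953472, 137438953472), (863554764800, 863554764800)] :=
  covD_E kD4_eq (.n 2 (.n 1 (.n 2 (.n 2 (.l 1) (.l 1)) (.n 2 (.l 1) (.l 1))) (.n 2 (.l 1) (.l 1))) (.n 2 (.n 2 (.l 1) (.l 1)) (.n 1 (.l 1) (.l 1))))
    [(261134745600, 13744209920), (137438953472, 137438953472), (863554764800, 863554764800)] rfl (by decide +kernel)
theorem D4_c0_t7 : CovD 1 gD4 [(247390535680, 27488419840), (412316860416, 137438953472), (863554764800, 863554764800)] :=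
  covD_E kD4_eq (.n 1 (.n 2 (.n 2 (.l 1) (.l 1)) (.n 2 (.l 1) (.l 1))) (.n 2 (.n 2 (.l 1) (.l 1)) (.n 2 (.l 1) (.l 1))))
    [(247390535680, 27488419840), (412316860416, 137438953472), (863554764800, 863554764800)] rfl (by decide +kernel)
end

mutual
theorem D4_c0_t8 : CovD 1 gD4 [(247390535680, 27488419840), (824633720832, 274877906944), (863554764800, 863554764800)] :=
  covD_E kD4_eq (.n 1 (.n 2 (.n 2 (.l 1) (.l 1)) (.n 2 (.l 1) (.l 1))) (.n 2 (.n 2 (.l 1) (.l 1)) (.n 2 (.l 1) (.l 1))))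
    [(247390535680, 27488419840), (824633720832, 274877906944), (863554764800, 863554764800)] rfl (by decide +kernel)
theorem E4_c0_t2 : CovD 1 gE4 [(247390535680, 27488419840), (137438953472, 137438953472), (863554764800, 863554764800)] :=
  covD_E kE4_eq (.n 2 (.n 2 (.n 2 (.n 2 (.l 1) (.l 1)) (.n 2 (.l 1) (.l 1))) (.n 2 (.n 1 (.l 1) (.l 1)) (.l 1))) (.n 1 (.n 2 (.n 0 (.l 1) (.l 1)) (.n 2 (.l 1) (.l 1))) (.n 2 (.l 1) (.l 1))))
    [(247390535680, 27488419840), (137438953472, 137438953472), (863554764800, 863554764800)] rfl (by decide +kernel)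
end

mutual
theorem E4_c0_t3 : CovD 1 gE4 [(247390535680, 27488419840), (412316860416, 137438953472), (863554764800, 863554764800)] :=
  covD_E kE4_eq (.n 2 (.n 2 (.n 1 (.n 2 (.l 2) (.l 2)) (.l 2)) (.n 2 (.n 1 (.l 1) (.l 1)) (.l 1))) (.n 1 (.n 2 (.l 1) (.l 1)) (.n 2 (.l 1) (.l 1))))
    [(247390535680, 27488419840), (412316860416, 137438953472), (863554764800, 863554764800)] rfl (by decide +kernel)
theorem E4_c0_t4 : CovD 1 gE4 [(247390535680, 27488419840), (824633720832, 274877906944), (863554764800, 863554764800)] :=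
  covD_E kE4_eq (.n 1 (.n 2 (.n 2 (.l 2) (.n 2 (.n 1 (.l 1) (.l 1)) (.l 1))) (.n 1 (.n 2 (.l 1) (.l 1)) (.n 2 (.l 1) (.l 1)))) (.n 2 (.n 2 (.l 2) (.n 2 (.l 2) (.l 1))) (.n 1 (.n 2 (.l 1) (.l 1)) (.n 2 (.l 1) (.l 1)))))
    [(247390535680, 27488419840), (824633720832, 274877906944), (863554764800, 863554764800)] rfl (by decide +kernel)
end

theorem B4_c0_t2 : CovD 1 gB4 [(226774220800, 6872104960), (549755813888, 549755813888), (54975791104, 54975791104)] :=
  covD_split 1 (by decide +kernel) B4_c0_t3 B4_c0_t4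

theorem B4_c0_t5 : CovD 1 gB4 [(240518430720, 6872104960), (549755813888, 549755813888), (54975791104, 54975791104)] :=
  covD_split 1 (by decide +kernel) B4_c0_t6 B4_c0_t7

theorem B4_c0_t1 : CovD 1 gB4 [(233646325760, 13744209920), (549755813888, 549755813888), (54975791104, 54975791104)] :=
  covD_split 0 (by decide +kernel) B4_c0_t2 B4_c0_t5

theorem B4_c0_t9 : CovD 1 gB4 [(254262640640, 6872104960), (549755813888, 549755813888), (54975791104, 54975791104)] :=
  covD_split 1 (by decide +kernel) B4_c0_t10 B4_c0_t11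

theorem B4_c0_t12 : CovD 1 gB4 [(268006850560, 6872104960), (549755813888, 549755813888), (54975791104, 54975791104)] :=
  covD_split 1 (by decide +kernel) B4_c0_t13 B4_c0_t14

theorem B4_c0_t8 : CovD 1 gB4 [(261134745600, 13744209920), (549755813888, 549755813888), (54975791104, 54975791104)] :=
  covD_split 0 (by decide +kernel) B4_c0_t9 B4_c0_t12

theorem B4_c0 : CovD 1 gB4 [(247390535680, 27488419840), (549755813888, 549755813888), (54975791104, 54975791104)] :=
  covD_split 0 (by decide +kernel) B4_c0_t1 B4_c0_t8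

theorem D4_c0_t3 : CovD 1 gD4 [(233646325760, 13744209920), (137438953472, 137438953472), (863554764800, 863554764800)] :=
  covD_split 1 (by decide +kernel) D4_c0_t4 D4_c0_t5

theorem D4_c0_t2 : CovD 1 gD4 [(247390535680, 27488419840), (137438953472, 137438953472), (863554764800, 863554764800)] :=
  covD_split 0 (by decide +kernel) D4_c0_t3 D4_c0_t6

theorem D4_c0_t1 : CovD 1 gD4 [(247390535680, 27488419840), (274877906944, 274877906944), (863554764800, 863554764800)] :=
  covD_split 1 (by decide +kernel) D4_c0_t2 D4_c0_t7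

theorem D4_c0 : CovD 1 gD4 [(247390535680, 27488419840), (549755813888, 549755813888), (863554764800, 863554764800)] :=
  covD_split 1 (by decide +kernel) D4_c0_t1 D4_c0_t8

theorem E4_c0_t1 : CovD 1 gE4 [(247390535680, 27488419840), (274877906944, 274877906944), (863554764800, 863554764800)] :=
  covD_split 1 (by decide +kernel) E4_c0_t2 E4_c0_t3

theorem E4_c0 : CovD 1 gE4 [(247390535680, 27488419840), (549755813888, 549755813888), (863554764800, 863554764800)] :=
  covD_split 1 (by decide +kernel) E4_c0_t1 E4_c0_t4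

end Pool.Agent.helper14.NR.E4d
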