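import Pool.Agent.helper14.NR.E4d.PN5

/-!
Generated: certificates.
-/

namespace Pool.Agent.helper14.NR.E4d

open Pool.Agent.helper31.IA (Z)
open Pool.Agent.helper31.IX (Op XOps runX Cov CovD cov_split covD_split)
open Pool.Agent.helper31.IC (TD)
open Pool.Agent.helper63.RG (reloc)
open Pool.Agent.helper63.NF hiding TD
open Pool.Agent.helper14.CF (xE covD_E)
open Pool.Agent.helper14.NR (share)

mutual
theorem A5_c1_t5 : CovD 1 gA5 [(226774220800, 6872104960), (584115552256, 34359738368), (5497558138880, 5497558138880)] :=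
  covD_E kA5_eq (.n 2 (.n 2 (.n 2 (.n 0 (.n 2 (.l 0) (.l 0)) (.n 2 (.l 0) (.l 0))) (.n 2 (.n 0 (.l 0) (.l 0)) (.l 0))) (.n 2 (.n 2 (.l 0) (.l 0)) (.n 2 (.l 0) (.l 0)))) (.n 2 (.n 2 (.n 0 (.l 0) (.l 0)) (.l 0)) (.n 2 (.l 0) (.l 0))))
    [(226774220800, 6872104960), (584115552256, 34359738368), (5497558138880, 5497558138880)] rfl (by decide +kernel)
theorem A5_c1_t6 : CovD 1 gA5 [(226774220800, 6872104960), (652835028992, 34359738368), (5497558138880, 5497558138880)] :=
  covD_E kA5_eq (.n 2 (.n 2 (.n 2 (.n 0 (.n 2 (.l 0) (.l 0)) (.n 2 (.l 0) (.l 0))) (.n 2 (.n 0 (.l 0) (.l 0)) (.l 0))) (.n 2 (.n 2 (.l 0) (.l 0)) (.n 2 (.l 0) (.l 0)))) (.n 2 (.n 2 (.n 0 (.l 0) (.l 0)) (.l 0)) (.n 2 (.l 0) (.l 0))))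
    [(226774220800, 6872104960), (652835028992, 34359738368), (5497558138880, 5497558138880)] rfl (by decide +kernel)
end

mutual
theorem A5_c1_t9 : CovD 1 gA5 [(226774220800, 6872104960), (755914244096, 68719476736), (1374389534720, 1374389534720)] :=
  covD_E kA5_eq (.n 2 (.n 2 (.n 2 (.l 0) (.n 0 (.l 0) (.l 0))) (.n 0 (.n 1 (.l 0) (.l 0)) (.n 1 (.l 0) (.l 0)))) (.n 1 (.n 2 (.n 0 (.l 0) (.l 0)) (.l 0)) (.n 2 (.n 0 (.l 0) (.l 0)) (.l 0))))
    [(226774220800, 6872104960), (755914244096, 68719476736), (1374389534720, 1374389534720)] rfl (by decide +kernel)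
theorem A5_c1_t10 : CovD 1 gA5 [(226774220800, 6872104960), (755914244096, 68719476736), (4123168604160, 1374389534720)] :=
  covD_E kA5_eq (.n 1 (.n 2 (.n 2 (.l 0) (.l 0)) (.n 2 (.l 0) (.l 0))) (.n 2 (.n 2 (.l 0) (.l 0)) (.n 2 (.l 0) (.l 0))))
    [(226774220800, 6872104960), (755914244096, 68719476736), (4123168604160, 1374389534720)] rfl (by decide +kernel)
end

mutual
theorem A5_c1_t11 : CovD 1 gA5 [(226774220800, 6872104960), (755914244096, 68719476736), (8246337208320, 2748779069440)] :=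
  covD_E kA5_eq (.n 1 (.n 2 (.n 2 (.n 0 (.l 0) (.l 0)) (.l 0)) (.n 2 (.l 0) (.l 0))) (.n 2 (.n 0 (.n 2 (.l 0) (.l 0)) (.n 2 (.l 0) (.l 0))) (.n 2 (.l 0) (.l 0))))
    [(226774220800, 6872104960), (755914244096, 68719476736), (8246337208320, 2748779069440)] rfl (by decide +kernel)
theorem A5_c1_t14 : CovD 1 gA5 [(240518430720, 6872104960), (584115552256, 34359738368), (5497558138880, 5497558138880)] :=
  covD_E kA5_eq (.n 2 (.n 2 (.n 2 (.n 0 (.n 2 (.l 0) (.l 0)) (.n 2 (.l 0) (.l 0))) (.n 2 (.n 0 (.l 0) (.l 0)) (.l 0))) (.n 2 (.n 2 (.l 0) (.l 0)) (.n 2 (.l 0) (.l 0)))) (.n 2 (.n 2 (.n 0 (.l 0) (.l 0)) (.l 0)) (.n 2 (.l 0) (.l 0))))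
    [(240518430720, 6872104960), (584115552256, 34359738368), (5497558138880, 5497558138880)] rfl (by decide +kernel)
end

mutual
theorem A5_c1_t15 : CovD 1 gA5 [(240518430720, 6872104960), (652835028992, 34359738368), (5497558138880, 5497558138880)] :=
  covD_E kA5_eq (.n 2 (.n 2 (.n 2 (.n 0 (.n 2 (.l 0) (.l 0)) (.n 2 (.l 0) (.l 0))) (.n 2 (.n 0 (.l 0) (.l 0)) (.l 0))) (.n 2 (.n 2 (.l 0) (.l 0)) (.n 2 (.l 0) (.l 0)))) (.n 2 (.n 2 (.n 0 (.l 0) (.l 0)) (.l 0)) (.n 2 (.l 0) (.l 0))))
    [(240518430720, 6872104960), (652835028992, 34359738368), (5497558138880, 5497558138880)] rfl (by decide +kernel)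
theorem A5_c1_t18 : CovD 1 gA5 [(240518430720, 6872104960), (721554505728, 34359738368), (2748779069440, 2748779069440)] :=
  covD_E kA5_eq (.n 2 (.n 2 (.n 0 (.n 2 (.l 0) (.l 0)) (.n 2 (.l 0) (.l 0))) (.n 2 (.n 0 (.l 0) (.l 0)) (.l 0))) (.n 2 (.n 2 (.l 0) (.l 0)) (.n 2 (.l 0) (.l 0))))
    [(240518430720, 6872104960), (721554505728, 34359738368), (2748779069440, 2748779069440)] rfl (by decide +kernel)
end

mutual
theorem A5_c1_t19 : CovD 1 gA5 [(240518430720, 6872104960), (721554505728, 34359738368), (8246337208320, 2748779069440)] :=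
  covD_E kA5_eq (.n 2 (.n 1 (.n 2 (.l 0) (.l 0)) (.n 2 (.l 0) (.l 0))) (.n 2 (.l 0) (.l 0)))
    [(240518430720, 6872104960), (721554505728, 34359738368), (8246337208320, 2748779069440)] rfl (by decide +kernel)
theorem A5_c1_t21 : CovD 1 gA5 [(240518430720, 6872104960), (790273982464, 34359738368), (2748779069440, 2748779069440)] :=
  covD_E kA5_eq (.n 2 (.n 2 (.n 0 (.n 2 (.l 0) (.l 0)) (.n 2 (.l 0) (.l 0))) (.n 2 (.n 0 (.l 0) (.l 0)) (.l 0))) (.n 2 (.n 2 (.l 0) (.l 0)) (.n 2 (.l 0) (.l 0))))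
    [(240518430720, 6872104960), (790273982464, 34359738368), (2748779069440, 2748779069440)] rfl (by decide +kernel)
end

mutual
theorem A5_c1_t22 : CovD 1 gA5 [(240518430720, 6872104960), (790273982464, 34359738368), (8246337208320, 2748779069440)] :=
  covD_E kA5_eq (.n 2 (.n 1 (.n 2 (.l 0) (.l 0)) (.n 2 (.l 0) (.l 0))) (.n 2 (.l 0) (.l 0)))
    [(240518430720, 6872104960), (790273982464, 34359738368), (8246337208320, 2748779069440)] rfl (by decide +kernel)
theorem A5_c1_t26 : CovD 1 gA5 [(254262640640, 6872104960), (584115552256, 34359738368), (5497558138880, 5497558138880)] :=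
  covD_E kA5_eq (.n 2 (.n 2 (.n 2 (.n 2 (.n 2 (.l 0) (.l 0)) (.n 2 (.l 0) (.l 0))) (.n 2 (.n 0 (.l 0) (.l 0)) (.l 0))) (.n 2 (.n 2 (.l 0) (.l 0)) (.n 2 (.l 0) (.l 0)))) (.n 2 (.n 2 (.n 1 (.l 0) (.l 0)) (.l 0)) (.n 2 (.l 0) (.l 0))))
    [(254262640640, 6872104960), (584115552256, 34359738368), (5497558138880, 5497558138880)] rfl (by decide +kernel)
end

mutual
theorem A5_c1_t28 : CovD 1 gA5 [(254262640640, 6872104960), (652835028992, 34359738368), (2748779069440, 2748779069440)] :=
  covD_E kA5_eq (.n 2 (.n 2 (.n 2 (.n 2 (.l 0) (.l 0)) (.n 2 (.l 0) (.l 0))) (.n 2 (.n 0 (.l 0) (.l 0)) (.l 0))) (.n 2 (.n 2 (.l 0) (.l 0)) (.n 2 (.l 0) (.l 0))))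
    [(254262640640, 6872104960), (652835028992, 34359738368), (2748779069440, 2748779069440)] rfl (by decide +kernel)
theorem A5_c1_t29 : CovD 1 gA5 [(254262640640, 6872104960), (652835028992, 34359738368), (8246337208320, 2748779069440)] :=
  covD_E kA5_eq (.n 2 (.n 1 (.n 2 (.l 0) (.l 0)) (.n 2 (.l 0) (.l 0))) (.n 2 (.l 0) (.l 0)))
    [(254262640640, 6872104960), (652835028992, 34359738368), (8246337208320, 2748779069440)] rfl (by decide +kernel)
end

mutual
theorem A5_c1_t32 : CovD 1 gA5 [(254262640640, 6872104960), (721554505728, 34359738368), (2748779069440, 2748779069440)] :=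
  covD_E kA5_eq (.n 2 (.n 2 (.n 1 (.n 2 (.l 0) (.l 0)) (.n 2 (.l 0) (.l 0))) (.n 2 (.n 0 (.l 0) (.l 0)) (.l 0))) (.n 2 (.n 2 (.l 0) (.l 0)) (.n 2 (.l 0) (.l 0))))
    [(254262640640, 6872104960), (721554505728, 34359738368), (2748779069440, 2748779069440)] rfl (by decide +kernel)
theorem A5_c1_t33 : CovD 1 gA5 [(254262640640, 6872104960), (721554505728, 34359738368), (8246337208320, 2748779069440)] :=
  covD_E kA5_eq (.n 2 (.n 2 (.n 2 (.l 0) (.l 0)) (.n 0 (.l 0) (.l 0))) (.n 2 (.l 0) (.l 0)))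
    [(254262640640, 6872104960), (721554505728, 34359738368), (8246337208320, 2748779069440)] rfl (by decide +kernel)
end

mutual
theorem A5_c1_t35 : CovD 1 gA5 [(254262640640, 6872104960), (790273982464, 34359738368), (2748779069440, 2748779069440)] :=
  covD_E kA5_eq (.n 2 (.n 1 (.n 2 (.n 2 (.l 0) (.l 0)) (.n 2 (.l 0) (.l 0))) (.n 2 (.n 2 (.l 0) (.l 0)) (.n 2 (.l 0) (.l 0)))) (.n 2 (.n 2 (.l 0) (.l 0)) (.n 2 (.l 0) (.l 0))))
    [(254262640640, 6872104960), (790273982464, 34359738368), (2748779069440, 2748779069440)] rfl (by decide +kernel)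
theorem A5_c1_t36 : CovD 1 gA5 [(254262640640, 6872104960), (790273982464, 34359738368), (8246337208320, 2748779069440)] :=
  covD_E kA5_eq (.n 2 (.n 2 (.n 2 (.l 0) (.l 0)) (.n 0 (.l 0) (.l 0))) (.n 2 (.l 0) (.l 0)))
    [(254262640640, 6872104960), (790273982464, 34359738368), (8246337208320, 2748779069440)] rfl (by decide +kernel)
end

mutual
theorem A5_c1_t40 : CovD 1 gA5 [(268006850560, 6872104960), (584115552256, 34359738368), (2748779069440, 2748779069440)] :=
  covD_E kA5_eq (.n 2 (.n 2 (.n 2 (.n 2 (.l 0) (.l 0)) (.n 2 (.l 0) (.l 0))) (.n 1 (.n 2 (.l 0) (.l 0)) (.n 2 (.l 0) (.l 0)))) (.n 2 (.n 2 (.l 0) (.l 0)) (.n 2 (.l 0) (.l 0))))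
    [(268006850560, 6872104960), (584115552256, 34359738368), (2748779069440, 2748779069440)] rfl (by decide +kernel)
theorem A5_c1_t41 : CovD 1 gA5 [(268006850560, 6872104960), (584115552256, 34359738368), (8246337208320, 2748779069440)] :=
  covD_E kA5_eq (.n 2 (.n 1 (.n 2 (.l 0) (.l 0)) (.n 2 (.l 0) (.l 0))) (.n 2 (.l 0) (.l 0)))
    [(268006850560, 6872104960), (584115552256, 34359738368), (8246337208320, 2748779069440)] rfl (by decide +kernel)
end

mutual
theorem A5_c1_t43 : CovD 1 gA5 [(268006850560, 6872104960), (652835028992, 34359738368), (2748779069440, 2748779069440)] :=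
  covD_E kA5_eq (.n 2 (.n 2 (.n 2 (.n 2 (.l 0) (.l 0)) (.n 2 (.l 0) (.l 0))) (.n 1 (.n 2 (.l 0) (.l 0)) (.n 2 (.l 0) (.l 0)))) (.n 2 (.n 2 (.l 0) (.l 0)) (.n 2 (.l 0) (.l 0))))
    [(268006850560, 6872104960), (652835028992, 34359738368), (2748779069440, 2748779069440)] rfl (by decide +kernel)
theorem A5_c1_t44 : CovD 1 gA5 [(268006850560, 6872104960), (652835028992, 34359738368), (8246337208320, 2748779069440)] :=
  covD_E kA5_eq (.n 2 (.n 2 (.n 2 (.l 0) (.l 0)) (.n 0 (.l 0) (.l 0))) (.n 2 (.l 0) (.l 0)))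
    [(268006850560, 6872104960), (652835028992, 34359738368), (8246337208320, 2748779069440)] rfl (by decide +kernel)
end

mutual
theorem A5_c1_t47 : CovD 1 gA5 [(268006850560, 6872104960), (721554505728, 34359738368), (2748779069440, 2748779069440)] :=
  covD_E kA5_eq (.n 2 (.n 2 (.n 2 (.n 2 (.l 0) (.l 0)) (.n 2 (.l 0) (.l 0))) (.n 1 (.n 2 (.l 0) (.l 0)) (.n 2 (.l 0) (.l 0)))) (.n 2 (.n 2 (.l 0) (.l 0)) (.n 2 (.l 0) (.l 0))))
    [(268006850560, 6872104960), (721554505728, 34359738368), (2748779069440, 2748779069440)] rfl (by decide +kernel)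
theorem A5_c1_t48 : CovD 1 gA5 [(268006850560, 6872104960), (721554505728, 34359738368), (8246337208320, 2748779069440)] :=
  covD_E kA5_eq (.n 2 (.n 2 (.n 2 (.l 0) (.l 0)) (.n 0 (.l 0) (.l 0))) (.n 2 (.l 0) (.l 0)))
    [(268006850560, 6872104960), (721554505728, 34359738368), (8246337208320, 2748779069440)] rfl (by decide +kernel)
end

mutual
theorem A5_c1_t50 : CovD 1 gA5 [(268006850560, 6872104960), (790273982464, 34359738368), (2748779069440, 2748779069440)] :=
  covD_E kA5_eq (.n 2 (.n 2 (.n 2 (.n 2 (.l 0) (.l 0)) (.n 2 (.l 0) (.l 0))) (.n 1 (.n 2 (.l 0) (.l 0)) (.n 2 (.l 0) (.l 0)))) (.n 2 (.n 2 (.l 0) (.l 0)) (.n 2 (.l 0) (.l 0))))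
    [(268006850560, 6872104960), (790273982464, 34359738368), (2748779069440, 2748779069440)] rfl (by decide +kernel)
theorem A5_c1_t51 : CovD 1 gA5 [(268006850560, 6872104960), (790273982464, 34359738368), (8246337208320, 2748779069440)] :=
  covD_E kA5_eq (.n 2 (.n 2 (.n 2 (.l 0) (.l 0)) (.n 0 (.l 0) (.l 0))) (.n 2 (.l 0) (.l 0)))
    [(268006850560, 6872104960), (790273982464, 34359738368), (8246337208320, 2748779069440)] rfl (by decide +kernel)
end

mutual
theorem A5_c1_t57 : CovD 1 gA5 [(226774220800, 6872104960), (893353197568, 68719476736), (1374389534720, 1374389534720)] :=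
  covD_E kA5_eq (.n 2 (.n 2 (.n 2 (.l 0) (.n 0 (.l 0) (.l 0))) (.n 0 (.n 1 (.l 0) (.l 0)) (.n 1 (.l 0) (.l 0)))) (.n 1 (.n 2 (.n 0 (.l 0) (.l 0)) (.l 0)) (.n 2 (.n 0 (.l 0) (.l 0)) (.l 0))))
    [(226774220800, 6872104960), (893353197568, 68719476736), (1374389534720, 1374389534720)] rfl (by decide +kernel)
theorem A5_c1_t58 : CovD 1 gA5 [(226774220800, 6872104960), (893353197568, 68719476736), (4123168604160, 1374389534720)] :=
  covD_E kA5_eq (.n 1 (.n 2 (.n 2 (.l 0) (.l 0)) (.n 2 (.l 0) (.l 0))) (.n 2 (.n 2 (.l 0) (.l 0)) (.n 2 (.l 0) (.l 0))))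
    [(226774220800, 6872104960), (893353197568, 68719476736), (4123168604160, 1374389534720)] rfl (by decide +kernel)
end

mutual
theorem A5_c1_t59 : CovD 1 gA5 [(226774220800, 6872104960), (893353197568, 68719476736), (8246337208320, 2748779069440)] :=
  covD_E kA5_eq (.n 1 (.n 2 (.n 1 (.n 2 (.l 0) (.l 0)) (.n 2 (.l 0) (.l 0))) (.n 2 (.l 0) (.l 0))) (.n 2 (.n 2 (.n 2 (.l 0) (.l 0)) (.n 0 (.l 0) (.l 0))) (.n 2 (.l 0) (.l 0))))
    [(226774220800, 6872104960), (893353197568, 68719476736), (8246337208320, 2748779069440)] rfl (by decide +kernel)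
theorem A5_c1_t62 : CovD 1 gA5 [(226774220800, 6872104960), (996432412672, 34359738368), (2748779069440, 2748779069440)] :=
  covD_E kA5_eq (.n 2 (.n 2 (.n 0 (.n 2 (.l 0) (.l 0)) (.n 2 (.l 0) (.l 0))) (.n 2 (.n 0 (.l 0) (.l 0)) (.l 0))) (.n 2 (.n 2 (.l 0) (.l 0)) (.n 2 (.l 0) (.l 0))))
    [(226774220800, 6872104960), (996432412672, 34359738368), (2748779069440, 2748779069440)] rfl (by decide +kernel)
end

mutual
theorem A5_c1_t63 : CovD 1 gA5 [(226774220800, 6872104960), (996432412672, 34359738368), (8246337208320, 2748779069440)] :=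
  covD_E kA5_eq (.n 2 (.n 2 (.n 2 (.l 0) (.l 0)) (.n 0 (.l 0) (.l 0))) (.n 2 (.l 0) (.l 0)))
    [(226774220800, 6872104960), (996432412672, 34359738368), (8246337208320, 2748779069440)] rfl (by decide +kernel)
theorem A5_c1_t64 : CovD 1 gA5 [(226774220800, 6872104960), (1065151889408, 34359738368), (5497558138880, 5497558138880)] :=
  covD_E kA5_eq (.n 2 (.n 2 (.n 2 (.n 2 (.l 0) (.n 0 (.l 0) (.l 0))) (.n 2 (.n 0 (.l 0) (.l 0)) (.l 0))) (.n 2 (.n 2 (.l 0) (.l 0)) (.n 2 (.l 0) (.l 0)))) (.n 2 (.n 2 (.n 2 (.l 0) (.l 0)) (.n 0 (.l 0) (.l 0))) (.n 2 (.l 0) (.l 0))))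
    [(226774220800, 6872104960), (1065151889408, 34359738368), (5497558138880, 5497558138880)] rfl (by decide +kernel)
end

mutual
theorem A5_c1_t68 : CovD 1 gA5 [(240518430720, 6872104960), (858993459200, 34359738368), (2748779069440, 2748779069440)] :=
  covD_E kA5_eq (.n 2 (.n 2 (.n 0 (.n 2 (.l 0) (.l 0)) (.n 2 (.l 0) (.l 0))) (.n 2 (.n 0 (.l 0) (.l 0)) (.l 0))) (.n 2 (.n 2 (.l 0) (.l 0)) (.n 2 (.l 0) (.l 0))))
    [(240518430720, 6872104960), (858993459200, 34359738368), (2748779069440, 2748779069440)] rfl (by decide +kernel)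
theorem A5_c1_t69 : CovD 1 gA5 [(240518430720, 6872104960), (858993459200, 34359738368), (8246337208320, 2748779069440)] :=
  covD_E kA5_eq (.n 2 (.n 2 (.n 2 (.l 0) (.l 0)) (.n 0 (.l 0) (.l 0))) (.n 2 (.l 0) (.l 0)))
    [(240518430720, 6872104960), (858993459200, 34359738368), (8246337208320, 2748779069440)] rfl (by decide +kernel)
end

mutual
theorem A5_c1_t71 : CovD 1 gA5 [(240518430720, 6872104960), (927712935936, 34359738368), (2748779069440, 2748779069440)] :=
  covD_E kA5_eq (.n 2 (.n 2 (.n 0 (.n 2 (.l 0) (.l 0)) (.n 2 (.l 0) (.l 0))) (.n 2 (.n 0 (.l 0) (.l 0)) (.l 0))) (.n 2 (.n 2 (.l 0) (.l 0)) (.n 2 (.l 0) (.l 0))))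
    [(240518430720, 6872104960), (927712935936, 34359738368), (2748779069440, 2748779069440)] rfl (by decide +kernel)
theorem A5_c1_t72 : CovD 1 gA5 [(240518430720, 6872104960), (927712935936, 34359738368), (8246337208320, 2748779069440)] :=
  covD_E kA5_eq (.n 2 (.n 2 (.n 2 (.l 0) (.l 0)) (.n 0 (.l 0) (.l 0))) (.n 2 (.l 0) (.l 0)))
    [(240518430720, 6872104960), (927712935936, 34359738368), (8246337208320, 2748779069440)] rfl (by decide +kernel)
end

mutual
theorem A5_c1_t75 : CovD 1 gA5 [(240518430720, 6872104960), (996432412672, 34359738368), (2748779069440, 2748779069440)] :=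
  covD_E kA5_eq (.n 2 (.n 0 (.n 2 (.n 2 (.l 0) (.l 0)) (.n 2 (.l 0) (.l 0))) (.n 2 (.n 2 (.l 0) (.l 0)) (.n 2 (.l 0) (.l 0)))) (.n 2 (.n 2 (.l 0) (.l 0)) (.n 2 (.l 0) (.l 0))))
    [(240518430720, 6872104960), (996432412672, 34359738368), (2748779069440, 2748779069440)] rfl (by decide +kernel)
theorem A5_c1_t76 : CovD 1 gA5 [(240518430720, 6872104960), (996432412672, 34359738368), (8246337208320, 2748779069440)] :=
  covD_E kA5_eq (.n 2 (.n 2 (.n 2 (.l 0) (.l 0)) (.n 0 (.l 0) (.l 0))) (.n 2 (.n 0 (.l 0) (.l 0)) (.l 0)))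
    [(240518430720, 6872104960), (996432412672, 34359738368), (8246337208320, 2748779069440)] rfl (by decide +kernel)
end

mutual
theorem A5_c1_t78 : CovD 1 gA5 [(240518430720, 6872104960), (1065151889408, 34359738368), (2748779069440, 2748779069440)] :=
  covD_E kA5_eq (.n 2 (.n 0 (.n 2 (.n 2 (.l 0) (.l 0)) (.n 2 (.l 0) (.l 0))) (.n 2 (.n 2 (.l 0) (.l 0)) (.n 2 (.l 0) (.l 0)))) (.n 2 (.n 2 (.l 0) (.l 0)) (.n 2 (.l 0) (.l 0))))
    [(240518430720, 6872104960), (1065151889408, 34359738368), (2748779069440, 2748779069440)] rfl (by decide +kernel)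
theorem A5_c1_t79 : CovD 1 gA5 [(240518430720, 6872104960), (1065151889408, 34359738368), (8246337208320, 2748779069440)] :=
  covD_E kA5_eq (.n 2 (.n 2 (.n 2 (.l 0) (.l 0)) (.n 0 (.l 0) (.l 0))) (.n 2 (.n 0 (.l 0) (.l 0)) (.l 0)))
    [(240518430720, 6872104960), (1065151889408, 34359738368), (8246337208320, 2748779069440)] rfl (by decide +kernel)
end

mutual
theorem A5_c1_t84 : CovD 1 gA5 [(254262640640, 6872104960), (858993459200, 34359738368), (2748779069440, 2748779069440)] :=
  covD_E kA5_eq (.n 2 (.n 1 (.n 2 (.n 2 (.l 0) (.l 0)) (.n 2 (.l 0) (.l 0))) (.n 2 (.n 2 (.l 0) (.l 0)) (.n 2 (.l 0) (.l 0)))) (.n 2 (.n 2 (.l 0) (.l 0)) (.n 2 (.l 0) (.l 0))))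
    [(254262640640, 6872104960), (858993459200, 34359738368), (2748779069440, 2748779069440)] rfl (by decide +kernel)
theorem A5_c1_t85 : CovD 1 gA5 [(254262640640, 6872104960), (858993459200, 34359738368), (8246337208320, 2748779069440)] :=
  covD_E kA5_eq (.n 2 (.n 2 (.n 2 (.l 0) (.l 0)) (.n 0 (.l 0) (.l 0))) (.n 2 (.l 0) (.l 0)))
    [(254262640640, 6872104960), (858993459200, 34359738368), (8246337208320, 2748779069440)] rfl (by decide +kernel)
end

mutual
theorem A5_c1_t87 : CovD 1 gA5 [(254262640640, 6872104960), (927712935936, 34359738368), (2748779069440, 2748779069440)] :=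
  covD_E kA5_eq (.n 2 (.n 1 (.n 2 (.n 2 (.l 0) (.l 0)) (.n 2 (.l 0) (.l 0))) (.n 2 (.n 2 (.l 0) (.l 0)) (.n 2 (.l 0) (.l 0)))) (.n 2 (.n 2 (.l 0) (.l 0)) (.n 2 (.l 0) (.l 0))))
    [(254262640640, 6872104960), (927712935936, 34359738368), (2748779069440, 2748779069440)] rfl (by decide +kernel)
theorem A5_c1_t88 : CovD 1 gA5 [(254262640640, 6872104960), (927712935936, 34359738368), (8246337208320, 2748779069440)] :=
  covD_E kA5_eq (.n 2 (.n 2 (.n 2 (.l 0) (.l 0)) (.n 0 (.l 0) (.l 0))) (.n 2 (.n 0 (.l 0) (.l 0)) (.l 0)))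
    [(254262640640, 6872104960), (927712935936, 34359738368), (8246337208320, 2748779069440)] rfl (by decide +kernel)
end

mutual
theorem A5_c1_t91 : CovD 1 gA5 [(254262640640, 6872104960), (996432412672, 34359738368), (2748779069440, 2748779069440)] :=
  covD_E kA5_eq (.n 2 (.n 1 (.n 2 (.n 2 (.l 0) (.l 0)) (.n 2 (.l 0) (.l 0))) (.n 2 (.n 2 (.l 0) (.l 0)) (.n 2 (.l 0) (.l 0)))) (.n 2 (.n 2 (.l 0) (.l 0)) (.n 2 (.l 0) (.l 0))))
    [(254262640640, 6872104960), (996432412672, 34359738368), (2748779069440, 2748779069440)] rfl (by decide +kernel)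
theorem A5_c1_t92 : CovD 1 gA5 [(254262640640, 6872104960), (996432412672, 34359738368), (8246337208320, 2748779069440)] :=
  covD_E kA5_eq (.n 2 (.n 2 (.n 2 (.l 0) (.l 0)) (.n 1 (.l 0) (.l 0))) (.n 2 (.n 0 (.l 0) (.l 0)) (.l 0)))
    [(254262640640, 6872104960), (996432412672, 34359738368), (8246337208320, 2748779069440)] rfl (by decide +kernel)
end

mutual
theorem A5_c1_t94 : CovD 1 gA5 [(254262640640, 6872104960), (1065151889408, 34359738368), (2748779069440, 2748779069440)] :=
  covD_E kA5_eq (.n 2 (.n 1 (.n 2 (.n 2 (.l 0) (.l 0)) (.n 2 (.l 0) (.l 0))) (.n 2 (.n 2 (.l 0) (.l 0)) (.n 2 (.l 0) (.l 0)))) (.n 2 (.n 2 (.l 0) (.l 0)) (.n 2 (.l 0) (.l 0))))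
    [(254262640640, 6872104960), (1065151889408, 34359738368), (2748779069440, 2748779069440)] rfl (by decide +kernel)
theorem A5_c1_t95 : CovD 1 gA5 [(254262640640, 6872104960), (1065151889408, 34359738368), (8246337208320, 2748779069440)] :=
  covD_E kA5_eq (.n 2 (.n 2 (.n 2 (.l 0) (.l 0)) (.n 2 (.l 0) (.l 0))) (.n 2 (.n 0 (.l 0) (.l 0)) (.l 0)))
    [(254262640640, 6872104960), (1065151889408, 34359738368), (8246337208320, 2748779069440)] rfl (by decide +kernel)
end

mutual
theorem A5_c1_t99 : CovD 1 gA5 [(268006850560, 6872104960), (858993459200, 34359738368), (2748779069440, 2748779069440)] :=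
  covD_E kA5_eq (.n 2 (.n 2 (.n 2 (.n 2 (.l 0) (.l 0)) (.n 2 (.l 0) (.l 0))) (.n 1 (.n 2 (.l 0) (.l 0)) (.n 2 (.l 0) (.l 0)))) (.n 2 (.n 2 (.l 0) (.l 0)) (.n 2 (.l 0) (.l 0))))
    [(268006850560, 6872104960), (858993459200, 34359738368), (2748779069440, 2748779069440)] rfl (by decide +kernel)
theorem A5_c1_t100 : CovD 1 gA5 [(268006850560, 6872104960), (858993459200, 34359738368), (8246337208320, 2748779069440)] :=
  covD_E kA5_eq (.n 2 (.n 2 (.n 2 (.l 0) (.l 0)) (.n 0 (.l 0) (.l 0))) (.n 2 (.n 0 (.l 0) (.l 0)) (.l 0)))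
    [(268006850560, 6872104960), (858993459200, 34359738368), (8246337208320, 2748779069440)] rfl (by decide +kernel)
end

mutual
theorem A5_c1_t102 : CovD 1 gA5 [(268006850560, 6872104960), (927712935936, 34359738368), (2748779069440, 2748779069440)] :=
  covD_E kA5_eq (.n 2 (.n 2 (.n 2 (.n 2 (.l 0) (.l 0)) (.n 2 (.l 0) (.l 0))) (.n 1 (.n 2 (.l 0) (.l 0)) (.n 2 (.l 0) (.l 0)))) (.n 2 (.n 2 (.l 0) (.l 0)) (.n 2 (.l 0) (.l 0))))
    [(268006850560, 6872104960), (927712935936, 34359738368), (2748779069440, 2748779069440)] rfl (by decide +kernel)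
theorem A5_c1_t103 : CovD 1 gA5 [(268006850560, 6872104960), (927712935936, 34359738368), (8246337208320, 2748779069440)] :=
  covD_E kA5_eq (.n 2 (.n 2 (.n 2 (.l 0) (.l 0)) (.n 1 (.l 0) (.l 0))) (.n 2 (.n 0 (.l 0) (.l 0)) (.l 0)))
    [(268006850560, 6872104960), (927712935936, 34359738368), (8246337208320, 2748779069440)] rfl (by decide +kernel)
end

mutual
theorem A5_c1_t106 : CovD 1 gA5 [(268006850560, 6872104960), (996432412672, 34359738368), (2748779069440, 2748779069440)] :=
  covD_E kA5_eq (.n 2 (.n 2 (.n 2 (.n 2 (.l 0) (.l 0)) (.n 2 (.l 0) (.l 0))) (.n 1 (.n 2 (.l 0) (.l 0)) (.n 2 (.l 0) (.l 0)))) (.n 2 (.n 2 (.l 0) (.l 0)) (.n 2 (.l 0) (.l 0))))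
    [(268006850560, 6872104960), (996432412672, 34359738368), (2748779069440, 2748779069440)] rfl (by decide +kernel)
theorem A5_c1_t107 : CovD 1 gA5 [(268006850560, 6872104960), (996432412672, 34359738368), (8246337208320, 2748779069440)] :=
  covD_E kA5_eq (.n 2 (.n 2 (.n 2 (.l 0) (.l 0)) (.n 2 (.l 0) (.l 0))) (.n 2 (.n 0 (.l 0) (.l 0)) (.l 0)))
    [(268006850560, 6872104960), (996432412672, 34359738368), (8246337208320, 2748779069440)] rfl (by decide +kernel)
end

mutual
theorem A5_c1_t109 : CovD 1 gA5 [(268006850560, 6872104960), (1065151889408, 34359738368), (2748779069440, 2748779069440)] :=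
  covD_E kA5_eq (.n 2 (.n 2 (.n 2 (.n 2 (.l 0) (.l 0)) (.n 2 (.l 0) (.l 0))) (.n 1 (.n 2 (.l 0) (.l 0)) (.n 2 (.l 0) (.l 0)))) (.n 2 (.n 2 (.n 0 (.l 0) (.l 0)) (.l 0)) (.n 2 (.l 0) (.l 0))))
    [(268006850560, 6872104960), (1065151889408, 34359738368), (2748779069440, 2748779069440)] rfl (by decide +kernel)
theorem A5_c1_t110 : CovD 1 gA5 [(268006850560, 6872104960), (1065151889408, 34359738368), (8246337208320, 2748779069440)] :=
  covD_E kA5_eq (.n 2 (.n 2 (.n 2 (.l 0) (.l 0)) (.n 2 (.l 0) (.l 0))) (.n 0 (.n 2 (.l 0) (.l 0)) (.n 2 (.l 0) (.l 0))))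
    [(268006850560, 6872104960), (1065151889408, 34359738368), (8246337208320, 2748779069440)] rfl (by decide +kernel)
end

theorem A5_c1_t4 : CovD 1 gA5 [(226774220800, 6872104960), (618475290624, 68719476736), (5497558138880, 5497558138880)] :=
  covD_split 1 (by decide +kernel) A5_c1_t5 A5_c1_t6

theorem A5_c1_t8 : CovD 1 gA5 [(226774220800, 6872104960), (755914244096, 68719476736), (2748779069440, 2748779069440)] :=
  covD_split 2 (by decide +kernel) A5_c1_t9 A5_c1_t10

theorem A5_c1_t7 : CovD 1 gA5 [(226774220800, 6872104960), (755914244096, 68719476736), (5497558138880, 5497558138880)] :=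
  covD_split 2 (by decide +kernel) A5_c1_t8 A5_c1_t11

theorem A5_c1_t3 : CovD 1 gA5 [(226774220800, 6872104960), (687194767360, 137438953472), (5497558138880, 5497558138880)] :=
  covD_split 1 (by decide +kernel) A5_c1_t4 A5_c1_t7

theorem A5_c1_t13 : CovD 1 gA5 [(240518430720, 6872104960), (618475290624, 68719476736), (5497558138880, 5497558138880)] :=
  covD_split 1 (by decide +kernel) A5_c1_t14 A5_c1_t15

theorem A5_c1_t17 : CovD 1 gA5 [(240518430720, 6872104960), (721554505728, 34359738368), (5497558138880, 5497558138880)] :=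
  covD_split 2 (by decide +kernel) A5_c1_t18 A5_c1_t19

theorem A5_c1_t20 : CovD 1 gA5 [(240518430720, 6872104960), (790273982464, 34359738368), (5497558138880, 5497558138880)] :=
  covD_split 2 (by decide +kernel) A5_c1_t21 A5_c1_t22

theorem A5_c1_t16 : CovD 1 gA5 [(240518430720, 6872104960), (755914244096, 68719476736), (5497558138880, 5497558138880)] :=
  covD_split 1 (by decide +kernel) A5_c1_t17 A5_c1_t20

theorem A5_c1_t12 : CovD 1 gA5 [(240518430720, 6872104960), (687194767360, 137438953472), (5497558138880, 5497558138880)] :=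
  covD_split 1 (by decide +kernel) A5_c1_t13 A5_c1_t16

theorem A5_c1_t2 : CovD 1 gA5 [(233646325760, 13744209920), (687194767360, 137438953472), (5497558138880, 5497558138880)] :=
  covD_split 0 (by decide +kernel) A5_c1_t3 A5_c1_t12

theorem A5_c1_t27 : CovD 1 gA5 [(254262640640, 6872104960), (652835028992, 34359738368), (5497558138880, 5497558138880)] :=
  covD_split 2 (by decide +kernel) A5_c1_t28 A5_c1_t29

theorem A5_c1_t25 : CovD 1 gA5 [(254262640640, 6872104960), (618475290624, 68719476736), (5497558138880, 5497558138880)] :=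
  covD_split 1 (by decide +kernel) A5_c1_t26 A5_c1_t27

theorem A5_c1_t31 : CovD 1 gA5 [(254262640640, 6872104960), (721554505728, 34359738368), (5497558138880, 5497558138880)] :=
  covD_split 2 (by decide +kernel) A5_c1_t32 A5_c1_t33

theorem A5_c1_t34 : CovD 1 gA5 [(254262640640, 6872104960), (790273982464, 34359738368), (5497558138880, 5497558138880)] :=
  covD_split 2 (by decide +kernel) A5_c1_t35 A5_c1_t36

theorem A5_c1_t30 : CovD 1 gA5 [(254262640640, 6872104960), (755914244096, 68719476736), (5497558138880, 5497558138880)] :=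
  covD_split 1 (by decide +kernel) A5_c1_t31 A5_c1_t34

theorem A5_c1_t24 : CovD 1 gA5 [(254262640640, 6872104960), (687194767360, 137438953472), (5497558138880, 5497558138880)] :=
  covD_split 1 (by decide +kernel) A5_c1_t25 A5_c1_t30

theorem A5_c1_t39 : CovD 1 gA5 [(268006850560, 6872104960), (584115552256, 34359738368), (5497558138880, 5497558138880)] :=
  covD_split 2 (by decide +kernel) A5_c1_t40 A5_c1_t41

theorem A5_c1_t42 : CovD 1 gA5 [(268006850560, 6872104960), (652835028992, 34359738368), (5497558138880, 5497558138880)] :=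
  covD_split 2 (by decide +kernel) A5_c1_t43 A5_c1_t44

theorem A5_c1_t38 : CovD 1 gA5 [(268006850560, 6872104960), (618475290624, 68719476736), (5497558138880, 5497558138880)] :=
  covD_split 1 (by decide +kernel) A5_c1_t39 A5_c1_t42

theorem A5_c1_t46 : CovD 1 gA5 [(268006850560, 6872104960), (721554505728, 34359738368), (5497558138880, 5497558138880)] :=
  covD_split 2 (by decide +kernel) A5_c1_t47 A5_c1_t48

theorem A5_c1_t49 : CovD 1 gA5 [(268006850560, 6872104960), (790273982464, 34359738368), (5497558138880, 5497558138880)] :=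
  covD_split 2 (by decide +kernel) A5_c1_t50 A5_c1_t51

theorem A5_c1_t45 : CovD 1 gA5 [(268006850560, 6872104960), (755914244096, 68719476736), (5497558138880, 5497558138880)] :=
  covD_split 1 (by decide +kernel) A5_c1_t46 A5_c1_t49

theorem A5_c1_t37 : CovD 1 gA5 [(268006850560, 6872104960), (687194767360, 137438953472), (5497558138880, 5497558138880)] :=
  covD_split 1 (by decide +kernel) A5_c1_t38 A5_c1_t45

theorem A5_c1_t23 : CovD 1 gA5 [(261134745600, 13744209920), (687194767360, 137438953472), (5497558138880, 5497558138880)] :=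
  covD_split 0 (by decide +kernel) A5_c1_t24 A5_c1_t37

theorem A5_c1_t1 : CovD 1 gA5 [(247390535680, 27488419840), (687194767360, 137438953472), (5497558138880, 5497558138880)] :=
  covD_split 0 (by decide +kernel) A5_c1_t2 A5_c1_t23

theorem A5_c1_t56 : CovD 1 gA5 [(226774220800, 6872104960), (893353197568, 68719476736), (2748779069440, 2748779069440)] :=
  covD_split 2 (by decide +kernel) A5_c1_t57 A5_c1_t58

theorem A5_c1_t55 : CovD 1 gA5 [(226774220800, 6872104960), (893353197568, 68719476736), (5497558138880, 5497558138880)] :=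
  covD_split 2 (by decide +kernel) A5_c1_t56 A5_c1_t59

theorem A5_c1_t61 : CovD 1 gA5 [(226774220800, 6872104960), (996432412672, 34359738368), (5497558138880, 5497558138880)] :=
  covD_split 2 (by decide +kernel) A5_c1_t62 A5_c1_t63

theorem A5_c1_t60 : CovD 1 gA5 [(226774220800, 6872104960), (1030792151040, 68719476736), (5497558138880, 5497558138880)] :=
  covD_split 1 (by decide +kernel) A5_c1_t61 A5_c1_t64

theorem A5_c1_t54 : CovD 1 gA5 [(226774220800, 6872104960), (962072674304, 137438953472), (5497558138880, 5497558138880)] :=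
  covD_split 1 (by decide +kernel) A5_c1_t55 A5_c1_t60

theorem A5_c1_t67 : CovD 1 gA5 [(240518430720, 6872104960), (858993459200, 34359738368), (5497558138880, 5497558138880)] :=
  covD_split 2 (by decide +kernel) A5_c1_t68 A5_c1_t69

theorem A5_c1_t70 : CovD 1 gA5 [(240518430720, 6872104960), (927712935936, 34359738368), (5497558138880, 5497558138880)] :=
  covD_split 2 (by decide +kernel) A5_c1_t71 A5_c1_t72

theorem A5_c1_t66 : CovD 1 gA5 [(240518430720, 6872104960), (893353197568, 68719476736), (5497558138880, 5497558138880)] :=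
  covD_split 1 (by decide +kernel) A5_c1_t67 A5_c1_t70

theorem A5_c1_t74 : CovD 1 gA5 [(240518430720, 6872104960), (996432412672, 34359738368), (5497558138880, 5497558138880)] :=
  covD_split 2 (by decide +kernel) A5_c1_t75 A5_c1_t76

theorem A5_c1_t77 : CovD 1 gA5 [(240518430720, 6872104960), (1065151889408, 34359738368), (5497558138880, 5497558138880)] :=
  covD_split 2 (by decide +kernel) A5_c1_t78 A5_c1_t79

theorem A5_c1_t73 : CovD 1 gA5 [(240518430720, 6872104960), (1030792151040, 68719476736), (5497558138880, 5497558138880)] :=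
  covD_split 1 (by decide +kernel) A5_c1_t74 A5_c1_t77

theorem A5_c1_t65 : CovD 1 gA5 [(240518430720, 6872104960), (962072674304, 137438953472), (5497558138880, 5497558138880)] :=
  covD_split 1 (by decide +kernel) A5_c1_t66 A5_c1_t73

theorem A5_c1_t53 : CovD 1 gA5 [(233646325760, 13744209920), (962072674304, 137438953472), (5497558138880, 5497558138880)] :=
  covD_split 0 (by decide +kernel) A5_c1_t54 A5_c1_t65

theorem A5_c1_t83 : CovD 1 gA5 [(254262640640, 6872104960), (858993459200, 34359738368), (5497558138880, 5497558138880)] :=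
  covD_split 2 (by decide +kernel) A5_c1_t84 A5_c1_t85

theorem A5_c1_t86 : CovD 1 gA5 [(254262640640, 6872104960), (927712935936, 34359738368), (5497558138880, 5497558138880)] :=
  covD_split 2 (by decide +kernel) A5_c1_t87 A5_c1_t88

theorem A5_c1_t82 : CovD 1 gA5 [(254262640640, 6872104960), (893353197568, 68719476736), (5497558138880, 5497558138880)] :=
  covD_split 1 (by decide +kernel) A5_c1_t83 A5_c1_t86

theorem A5_c1_t90 : CovD 1 gA5 [(254262640640, 6872104960), (996432412672, 34359738368), (5497558138880, 5497558138880)] :=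
  covD_split 2 (by decide +kernel) A5_c1_t91 A5_c1_t92

theorem A5_c1_t93 : CovD 1 gA5 [(254262640640, 6872104960), (1065151889408, 34359738368), (5497558138880, 5497558138880)] :=
  covD_split 2 (by decide +kernel) A5_c1_t94 A5_c1_t95

theorem A5_c1_t89 : CovD 1 gA5 [(254262640640, 6872104960), (1030792151040, 68719476736), (5497558138880, 5497558138880)] :=
  covD_split 1 (by decide +kernel) A5_c1_t90 A5_c1_t93

theorem A5_c1_t81 : CovD 1 gA5 [(254262640640, 6872104960), (962072674304, 137438953472), (5497558138880, 5497558138880)] :=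
  covD_split 1 (by decide +kernel) A5_c1_t82 A5_c1_t89

theorem A5_c1_t98 : CovD 1 gA5 [(268006850560, 6872104960), (858993459200, 34359738368), (5497558138880, 5497558138880)] :=
  covD_split 2 (by decide +kernel) A5_c1_t99 A5_c1_t100

theorem A5_c1_t101 : CovD 1 gA5 [(268006850560, 6872104960), (927712935936, 34359738368), (5497558138880, 5497558138880)] :=
  covD_split 2 (by decide +kernel) A5_c1_t102 A5_c1_t103

theorem A5_c1_t97 : CovD 1 gA5 [(268006850560, 6872104960), (893353197568, 68719476736), (5497558138880, 5497558138880)] :=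
  covD_split 1 (by decide +kernel) A5_c1_t98 A5_c1_t101

theorem A5_c1_t105 : CovD 1 gA5 [(268006850560, 6872104960), (996432412672, 34359738368), (5497558138880, 5497558138880)] :=
  covD_split 2 (by decide +kernel) A5_c1_t106 A5_c1_t107

theorem A5_c1_t108 : CovD 1 gA5 [(268006850560, 6872104960), (1065151889408, 34359738368), (5497558138880, 5497558138880)] :=
  covD_split 2 (by decide +kernel) A5_c1_t109 A5_c1_t110

theorem A5_c1_t104 : CovD 1 gA5 [(268006850560, 6872104960), (1030792151040, 68719476736), (5497558138880, 5497558138880)] :=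
  covD_split 1 (by decide +kernel) A5_c1_t105 A5_c1_t108

theorem A5_c1_t96 : CovD 1 gA5 [(268006850560, 6872104960), (962072674304, 137438953472), (5497558138880, 5497558138880)] :=
  covD_split 1 (by decide +kernel) A5_c1_t97 A5_c1_t104

theorem A5_c1_t80 : CovD 1 gA5 [(261134745600, 13744209920), (962072674304, 137438953472), (5497558138880, 5497558138880)] :=
  covD_split 0 (by decide +kernel) A5_c1_t81 A5_c1_t96

theorem A5_c1_t52 : CovD 1 gA5 [(247390535680, 27488419840), (962072674304, 137438953472), (5497558138880, 5497558138880)] :=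
  covD_split 0 (by decide +kernel) A5_c1_t53 A5_c1_t80

theorem A5_c1 : CovD 1 gA5 [(247390535680, 27488419840), (824633720832, 274877906944), (5497558138880, 5497558138880)] :=
  covD_split 1 (by decide +kernel) A5_c1_t1 A5_c1_t52

end Pool.Agent.helper14.NR.E4d
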