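import Pool.Agent.helper14.NR.E4d.PN5

/-!
Generated: certificates.
-/

namespace Pool.Agent.helper14.NR.E4d

open Pool.Agent.helper31.IA (Z)
open Pool.Agent.helper31.IX (Op XOps runX Cov CovD cov_split covD_split)
open Pool.Agent.helper31.IC (TD)
open Pool.Agent.helper63.RG (reloc)
open Pool.Agent.helper63.NF hiding TD
open Pool.Agent.helper14.CF (xE covD_E)
open Pool.Agent.helper14.NR (share)

mutual
theorem B5_c0_t3 : CovD 1 gB5 [(226774220800, 6872104960), (274877906944, 274877906944), (54975791104, 54975791104)] :=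
  covD_E kB5_eq (.n 1 (.n 1 (.n 1 (.l 0) (.l 0)) (.n 1 (.l 0) (.n 0 (.l 0) (.l 0)))) (.n 0 (.n 1 (.n 1 (.l 0) (.l 0)) (.n 2 (.l 0) (.l 0))) (.n 1 (.n 2 (.l 0) (.l 0)) (.n 2 (.l 0) (.l 0)))))
    [(226774220800, 6872104960), (274877906944, 274877906944), (54975791104, 54975791104)] rfl (by decide +kernel)
theorem B5_c0_t5 : CovD 1 gB5 [(226774220800, 6872104960), (687194767360, 137438953472), (54975791104, 54975791104)] :=
  covD_E kB5_eq (.n 1 (.n 0 (.n 2 (.l 0) (.l 0)) (.n 2 (.l 0) (.l 0))) (.n 1 (.n 2 (.l 0) (.l 0)) (.n 2 (.l 0) (.l 0))))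
    [(226774220800, 6872104960), (687194767360, 137438953472), (54975791104, 54975791104)] rfl (by decide +kernel)
end

mutual
theorem B5_c0_t6 : CovD 1 gB5 [(226774220800, 6872104960), (962072674304, 137438953472), (54975791104, 54975791104)] :=
  covD_E kB5_eq (.n 1 (.n 1 (.n 2 (.l 0) (.l 0)) (.n 0 (.n 2 (.l 0) (.l 0)) (.n 2 (.l 0) (.l 0)))) (.n 0 (.n 1 (.n 2 (.l 0) (.l 0)) (.n 2 (.l 0) (.l 0))) (.n 1 (.n 2 (.l 0) (.l 0)) (.n 2 (.l 0) (.l 0)))))
    [(226774220800, 6872104960), (962072674304, 137438953472), (54975791104, 54975791104)] rfl (by decide +kernel)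
theorem B5_c0_t8 : CovD 1 gB5 [(240518430720, 6872104960), (274877906944, 274877906944), (54975791104, 54975791104)] :=
  covD_E kB5_eq (.n 1 (.n 1 (.n 1 (.l 0) (.l 0)) (.n 1 (.l 0) (.n 0 (.l 0) (.l 0)))) (.n 0 (.n 1 (.n 2 (.l 0) (.l 0)) (.n 2 (.l 0) (.l 0))) (.n 1 (.n 2 (.l 0) (.l 0)) (.n 2 (.l 0) (.l 0)))))
    [(240518430720, 6872104960), (274877906944, 274877906944), (54975791104, 54975791104)] rfl (by decide +kernel)
end

mutual
theorem B5_c0_t10 : CovD 1 gB5 [(240518430720, 6872104960), (687194767360, 137438953472), (54975791104, 54975791104)] :=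
  covD_E kB5_eq (.n 1 (.n 1 (.n 2 (.l 0) (.l 0)) (.n 2 (.l 0) (.l 0))) (.n 1 (.n 2 (.l 0) (.l 0)) (.n 2 (.l 0) (.l 0))))
    [(240518430720, 6872104960), (687194767360, 137438953472), (54975791104, 54975791104)] rfl (by decide +kernel)
theorem B5_c0_t11 : CovD 1 gB5 [(240518430720, 6872104960), (962072674304, 137438953472), (54975791104, 54975791104)] :=
  covD_E kB5_eq (.n 1 (.n 1 (.n 2 (.l 0) (.l 0)) (.n 0 (.n 2 (.l 0) (.l 0)) (.n 2 (.l 0) (.l 0)))) (.n 0 (.n 2 (.n 1 (.l 0) (.l 0)) (.n 2 (.l 0) (.l 0))) (.n 2 (.n 2 (.l 0) (.l 0)) (.n 2 (.l 0) (.l 0)))))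
    [(240518430720, 6872104960), (962072674304, 137438953472), (54975791104, 54975791104)] rfl (by decide +kernel)
end

mutual
theorem B5_c0_t14 : CovD 1 gB5 [(254262640640, 6872104960), (274877906944, 274877906944), (54975791104, 54975791104)] :=
  covD_E kB5_eq (.n 1 (.n 1 (.n 1 (.l 0) (.l 0)) (.n 0 (.n 1 (.l 0) (.l 0)) (.n 1 (.l 0) (.l 0)))) (.n 0 (.n 1 (.n 2 (.l 0) (.l 0)) (.n 2 (.l 0) (.l 0))) (.n 1 (.n 2 (.l 0) (.l 0)) (.n 2 (.l 0) (.l 0)))))
    [(254262640640, 6872104960), (274877906944, 274877906944), (54975791104, 54975791104)] rfl (by decide +kernel)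
theorem B5_c0_t16 : CovD 1 gB5 [(254262640640, 6872104960), (687194767360, 137438953472), (54975791104, 54975791104)] :=
  covD_E kB5_eq (.n 1 (.n 1 (.n 2 (.l 0) (.l 0)) (.n 2 (.l 0) (.l 0))) (.n 1 (.n 2 (.l 0) (.l 0)) (.n 2 (.l 0) (.l 0))))
    [(254262640640, 6872104960), (687194767360, 137438953472), (54975791104, 54975791104)] rfl (by decide +kernel)
end

mutual
theorem B5_c0_t17 : CovD 1 gB5 [(254262640640, 6872104960), (962072674304, 137438953472), (54975791104, 54975791104)] :=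
  covD_E kB5_eq (.n 1 (.n 1 (.n 2 (.l 0) (.l 0)) (.n 0 (.n 2 (.l 0) (.l 0)) (.n 2 (.l 0) (.l 0)))) (.n 0 (.n 2 (.n 2 (.l 0) (.l 0)) (.n 2 (.l 0) (.l 0))) (.n 2 (.n 2 (.l 0) (.l 0)) (.n 2 (.l 0) (.l 0)))))
    [(254262640640, 6872104960), (962072674304, 137438953472), (54975791104, 54975791104)] rfl (by decide +kernel)
theorem B5_c0_t19 : CovD 1 gB5 [(268006850560, 6872104960), (274877906944, 274877906944), (54975791104, 54975791104)] :=
  covD_E kB5_eq (.n 1 (.n 1 (.n 1 (.l 0) (.n 0 (.l 0) (.l 0))) (.n 0 (.n 1 (.l 0) (.l 0)) (.n 1 (.l 0) (.l 0)))) (.n 1 (.n 0 (.n 2 (.l 0) (.l 0)) (.n 2 (.l 0) (.l 0))) (.n 1 (.n 2 (.l 0) (.l 0)) (.n 2 (.l 0) (.l 0)))))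
    [(268006850560, 6872104960), (274877906944, 274877906944), (54975791104, 54975791104)] rfl (by decide +kernel)
end

mutual
theorem B5_c0_t21 : CovD 1 gB5 [(268006850560, 6872104960), (687194767360, 137438953472), (54975791104, 54975791104)] :=
  covD_E kB5_eq (.n 1 (.n 1 (.n 2 (.l 0) (.l 0)) (.n 2 (.l 0) (.l 0))) (.n 1 (.n 2 (.l 0) (.l 0)) (.n 2 (.l 0) (.l 0))))
    [(268006850560, 6872104960), (687194767360, 137438953472), (54975791104, 54975791104)] rfl (by decide +kernel)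
theorem B5_c0_t22 : CovD 1 gB5 [(268006850560, 6872104960), (962072674304, 137438953472), (54975791104, 54975791104)] :=
  covD_E kB5_eq (.n 1 (.n 1 (.n 2 (.l 0) (.n 0 (.l 0) (.l 0))) (.n 0 (.n 2 (.l 0) (.l 0)) (.n 2 (.l 0) (.l 0)))) (.n 0 (.n 2 (.n 2 (.l 0) (.l 0)) (.n 2 (.l 0) (.l 0))) (.n 2 (.n 2 (.l 0) (.l 0)) (.n 2 (.l 0) (.l 0)))))
    [(268006850560, 6872104960), (962072674304, 137438953472), (54975791104, 54975791104)] rfl (by decide +kernel)
end

mutual
theorem D5_c0_t3 : CovD 1 gD5 [(247390535680, 27488419840), (68719476736, 68719476736), (863554764800, 863554764800)] :=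
  covD_E kD5_eq (.n 0 (.n 2 (.n 1 (.n 2 (.n 1 (.l 0) (.l 0)) (.n 2 (.l 0) (.l 0))) (.n 2 (.l 1) (.l 1))) (.n 2 (.n 1 (.n 2 (.l 0) (.l 0)) (.l 1)) (.n 2 (.l 1) (.l 1)))) (.n 2 (.n 2 (.l 1) (.l 1)) (.n 2 (.l 1) (.l 1))))
    [(247390535680, 27488419840), (68719476736, 68719476736), (863554764800, 863554764800)] rfl (by decide +kernel)
theorem D5_c0_t4 : CovD 1 gD5 [(247390535680, 27488419840), (206158430208, 68719476736), (863554764800, 863554764800)] :=
  covD_E kD5_eq (.n 2 (.n 2 (.l 1) (.l 1)) (.n 2 (.l 1) (.l 1)))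
    [(247390535680, 27488419840), (206158430208, 68719476736), (863554764800, 863554764800)] rfl (by decide +kernel)
end

mutual
theorem D5_c0_t5 : CovD 1 gD5 [(247390535680, 27488419840), (412316860416, 137438953472), (863554764800, 863554764800)] :=
  covD_E kD5_eq (.n 0 (.n 2 (.n 2 (.l 1) (.l 1)) (.n 2 (.l 1) (.l 1))) (.n 2 (.n 2 (.l 1) (.l 1)) (.n 2 (.l 1) (.l 1))))
    [(247390535680, 27488419840), (412316860416, 137438953472), (863554764800, 863554764800)] rfl (by decide +kernel)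
theorem D5_c0_t6 : CovD 1 gD5 [(247390535680, 27488419840), (824633720832, 274877906944), (863554764800, 863554764800)] :=
  covD_E kD5_eq (.n 1 (.n 2 (.n 2 (.l 1) (.l 1)) (.n 2 (.l 1) (.l 1))) (.n 0 (.n 2 (.n 2 (.l 1) (.l 1)) (.n 2 (.l 1) (.l 1))) (.n 2 (.n 2 (.l 1) (.l 1)) (.n 2 (.l 1) (.l 1)))))
    [(247390535680, 27488419840), (824633720832, 274877906944), (863554764800, 863554764800)] rfl (by decide +kernel)
end

mutual
theorem F5_c0_t2 : CovD 1 gF5 [(247390535680, 27488419840), (137438953472, 137438953472), (863554764800, 863554764800)] :=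
  covD_E kF5_eq (.n 1 (.n 2 (.n 2 (.l 2) (.n 1 (.l 1) (.l 1))) (.n 2 (.n 0 (.l 1) (.l 1)) (.n 2 (.l 1) (.l 1)))) (.n 2 (.n 2 (.l 2) (.n 2 (.l 1) (.l 1))) (.n 2 (.l 1) (.l 1))))
    [(247390535680, 27488419840), (137438953472, 137438953472), (863554764800, 863554764800)] rfl (by decide +kernel)
theorem F5_c0_t3 : CovD 1 gF5 [(247390535680, 27488419840), (412316860416, 137438953472), (863554764800, 863554764800)] :=
  covD_E kF5_eq (.n 2 (.n 2 (.l 2) (.n 2 (.l 2) (.n 1 (.l 1) (.l 1)))) (.n 1 (.n 2 (.l 1) (.l 1)) (.n 2 (.l 1) (.l 1))))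
    [(247390535680, 27488419840), (412316860416, 137438953472), (863554764800, 863554764800)] rfl (by decide +kernel)
end

theorem F5_c0_t4 : CovD 1 gF5 [(247390535680, 27488419840), (824633720832, 274877906944), (863554764800, 863554764800)] :=
  covD_E kF5_eq (.n 1 (.n 2 (.n 2 (.l 2) (.n 0 (.l 2) (.l 2))) (.n 1 (.n 2 (.l 1) (.l 1)) (.n 2 (.l 1) (.l 1)))) (.n 1 (.n 2 (.l 2) (.n 2 (.l 1) (.l 1))) (.n 2 (.l 2) (.n 2 (.l 1) (.l 1)))))
    [(247390535680, 27488419840), (824633720832, 274877906944), (863554764800, 863554764800)] rfl (by decide +kernel)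

theorem B5_c0_t4 : CovD 1 gB5 [(226774220800, 6872104960), (824633720832, 274877906944), (54975791104, 54975791104)] :=
  covD_split 1 (by decide +kernel) B5_c0_t5 B5_c0_t6

theorem B5_c0_t2 : CovD 1 gB5 [(226774220800, 6872104960), (549755813888, 549755813888), (54975791104, 54975791104)] :=
  covD_split 1 (by decide +kernel) B5_c0_t3 B5_c0_t4

theorem B5_c0_t9 : CovD 1 gB5 [(240518430720, 6872104960), (824633720832, 274877906944), (54975791104, 54975791104)] :=
  covD_split 1 (by decide +kernel) B5_c0_t10 B5_c0_t11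

theorem B5_c0_t7 : CovD 1 gB5 [(240518430720, 6872104960), (549755813888, 549755813888), (54975791104, 54975791104)] :=
  covD_split 1 (by decide +kernel) B5_c0_t8 B5_c0_t9

theorem B5_c0_t1 : CovD 1 gB5 [(233646325760, 13744209920), (549755813888, 549755813888), (54975791104, 54975791104)] :=
  covD_split 0 (by decide +kernel) B5_c0_t2 B5_c0_t7

theorem B5_c0_t15 : CovD 1 gB5 [(254262640640, 6872104960), (824633720832, 274877906944), (54975791104, 54975791104)] :=
  covD_split 1 (by decide +kernel) B5_c0_t16 B5_c0_t17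

theorem B5_c0_t13 : CovD 1 gB5 [(254262640640, 6872104960), (549755813888, 549755813888), (54975791104, 54975791104)] :=
  covD_split 1 (by decide +kernel) B5_c0_t14 B5_c0_t15

theorem B5_c0_t20 : CovD 1 gB5 [(268006850560, 6872104960), (824633720832, 274877906944), (54975791104, 54975791104)] :=
  covD_split 1 (by decide +kernel) B5_c0_t21 B5_c0_t22

theorem B5_c0_t18 : CovD 1 gB5 [(268006850560, 6872104960), (549755813888, 549755813888), (54975791104, 54975791104)] :=
  covD_split 1 (by decide +kernel) B5_c0_t19 B5_c0_t20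

theorem B5_c0_t12 : CovD 1 gB5 [(261134745600, 13744209920), (549755813888, 549755813888), (54975791104, 54975791104)] :=
  covD_split 0 (by decide +kernel) B5_c0_t13 B5_c0_t18

theorem B5_c0 : CovD 1 gB5 [(247390535680, 27488419840), (549755813888, 549755813888), (54975791104, 54975791104)] :=
  covD_split 0 (by decide +kernel) B5_c0_t1 B5_c0_t12

theorem D5_c0_t2 : CovD 1 gD5 [(247390535680, 27488419840), (137438953472, 137438953472), (863554764800, 863554764800)] :=
  covD_split 1 (by decide +kernel) D5_c0_t3 D5_c0_t4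

theorem D5_c0_t1 : CovD 1 gD5 [(247390535680, 27488419840), (274877906944, 274877906944), (863554764800, 863554764800)] :=
  covD_split 1 (by decide +kernel) D5_c0_t2 D5_c0_t5

theorem D5_c0 : CovD 1 gD5 [(247390535680, 27488419840), (549755813888, 549755813888), (863554764800, 863554764800)] :=
  covD_split 1 (by decide +kernel) D5_c0_t1 D5_c0_t6

theorem F5_c0_t1 : CovD 1 gF5 [(247390535680, 27488419840), (274877906944, 274877906944), (863554764800, 863554764800)] :=
  covD_split 1 (by decide +kernel) F5_c0_t2 F5_c0_t3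

theorem F5_c0 : CovD 1 gF5 [(247390535680, 27488419840), (549755813888, 549755813888), (863554764800, 863554764800)] :=
  covD_split 1 (by decide +kernel) F5_c0_t1 F5_c0_t4

end Pool.Agent.helper14.NR.E4d
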