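import Pool.Agent.helper14.NR.E4d.PZ

/-!
Generated: certificates.
-/

namespace Pool.Agent.helper14.NR.E4d

open Pool.Agent.helper31.IA (Z)
open Pool.Agent.helper31.IX (Op XOps runX Cov CovD cov_split covD_split)
open Pool.Agent.helper31.IC (TD)
open Pool.Agent.helper63.RG (reloc)
open Pool.Agent.helper63.NF hiding TD
open Pool.Agent.helper14.CF (xE covD_E)
open Pool.Agent.helper14.NR (share)

mutual
theorem Z_c0_t6 : CovD 1 gZ [(233646325760, 13744209920), (68719476736, 68719476736), (137438953472, 137438953472)] :=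
  covD_E kZ_eq (.n 1 (.n 0 (.n 2 (.n 2 (.l 0) (.l 0)) (.n 2 (.l 0) (.l 0))) (.n 2 (.n 2 (.l 0) (.l 0)) (.n 2 (.l 0) (.l 0)))) (.n 2 (.n 2 (.l 0) (.l 0)) (.n 2 (.l 0) (.l 0))))
    [(233646325760, 13744209920), (68719476736, 68719476736), (137438953472, 137438953472)] rfl (by decide +kernel)
theorem Z_c0_t7 : CovD 1 gZ [(233646325760, 13744209920), (68719476736, 68719476736), (412316860416, 137438953472)] :=
  covD_E kZ_eq (.n 0 (.n 2 (.n 2 (.l 0) (.l 0)) (.n 2 (.l 0) (.l 0))) (.n 2 (.n 2 (.n 0 (.l 0) (.l 0)) (.l 0)) (.n 2 (.l 0) (.l 0))))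
    [(233646325760, 13744209920), (68719476736, 68719476736), (412316860416, 137438953472)] rfl (by decide +kernel)
end

mutual
theorem Z_c0_t8 : CovD 1 gZ [(233646325760, 13744209920), (206158430208, 68719476736), (274877906944, 274877906944)] :=
  covD_E kZ_eq (.n 2 (.n 2 (.n 2 (.l 0) (.l 0)) (.n 0 (.n 2 (.l 0) (.l 0)) (.n 2 (.l 0) (.l 0)))) (.n 0 (.n 1 (.n 2 (.l 0) (.l 0)) (.n 2 (.l 0) (.l 0))) (.n 2 (.n 2 (.l 0) (.l 0)) (.n 2 (.l 0) (.l 0)))))
    [(233646325760, 13744209920), (206158430208, 68719476736), (274877906944, 274877906944)] rfl (by decide +kernel)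
theorem Z_c0_t10 : CovD 1 gZ [(233646325760, 13744209920), (343597383680, 68719476736), (274877906944, 274877906944)] :=
  covD_E kZ_eq (.n 2 (.n 2 (.n 2 (.l 0) (.l 0)) (.n 2 (.l 0) (.l 0))) (.n 2 (.n 2 (.l 0) (.n 0 (.l 0) (.l 0))) (.n 0 (.n 0 (.l 0) (.l 0)) (.n 0 (.l 0) (.l 0)))))
    [(233646325760, 13744209920), (343597383680, 68719476736), (274877906944, 274877906944)] rfl (by decide +kernel)
end

mutual
theorem Z_c0_t11 : CovD 1 gZ [(233646325760, 13744209920), (481036337152, 68719476736), (274877906944, 274877906944)] :=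
  covD_E kZ_eq (.n 2 (.n 2 (.n 2 (.l 0) (.l 0)) (.n 2 (.l 0) (.l 0))) (.n 2 (.n 2 (.l 0) (.l 0)) (.n 0 (.n 0 (.l 0) (.l 0)) (.n 0 (.l 0) (.l 0)))))
    [(233646325760, 13744209920), (481036337152, 68719476736), (274877906944, 274877906944)] rfl (by decide +kernel)
theorem Z_c0_t14 : CovD 1 gZ [(233646325760, 13744209920), (618475290624, 68719476736), (274877906944, 274877906944)] :=
  covD_E kZ_eq (.n 2 (.n 2 (.n 0 (.l 0) (.l 0)) (.n 2 (.l 0) (.l 0))) (.n 2 (.n 2 (.l 0) (.n 0 (.l 0) (.l 0))) (.n 0 (.n 0 (.l 0) (.l 0)) (.n 0 (.l 0) (.l 0)))))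
    [(233646325760, 13744209920), (618475290624, 68719476736), (274877906944, 274877906944)] rfl (by decide +kernel)
end

mutual
theorem Z_c0_t15 : CovD 1 gZ [(233646325760, 13744209920), (755914244096, 68719476736), (274877906944, 274877906944)] :=
  covD_E kZ_eq (.n 2 (.n 2 (.n 0 (.l 0) (.l 0)) (.n 2 (.l 0) (.l 0))) (.n 2 (.n 2 (.l 0) (.n 0 (.l 0) (.l 0))) (.n 0 (.n 0 (.l 0) (.l 0)) (.n 0 (.l 0) (.l 0)))))
    [(233646325760, 13744209920), (755914244096, 68719476736), (274877906944, 274877906944)] rfl (by decide +kernel)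
theorem Z_c0_t17 : CovD 1 gZ [(226774220800, 6872104960), (962072674304, 137438953472), (274877906944, 274877906944)] :=
  covD_E kZ_eq (.n 1 (.n 2 (.n 2 (.l 0) (.l 0)) (.n 0 (.n 2 (.l 0) (.l 0)) (.n 2 (.l 0) (.l 0)))) (.n 2 (.n 2 (.l 0) (.n 0 (.l 0) (.l 0))) (.n 0 (.n 2 (.l 0) (.l 0)) (.n 2 (.l 0) (.l 0)))))
    [(226774220800, 6872104960), (962072674304, 137438953472), (274877906944, 274877906944)] rfl (by decide +kernel)
end

mutual
theorem Z_c0_t18 : CovD 1 gZ [(240518430720, 6872104960), (962072674304, 137438953472), (274877906944, 274877906944)] :=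
  covD_E kZ_eq (.n 1 (.n 2 (.n 2 (.l 0) (.l 0)) (.n 0 (.n 2 (.l 0) (.l 0)) (.n 2 (.l 0) (.l 0)))) (.n 2 (.n 2 (.l 0) (.n 0 (.l 0) (.l 0))) (.n 0 (.n 2 (.l 0) (.l 0)) (.n 2 (.l 0) (.l 0)))))
    [(240518430720, 6872104960), (962072674304, 137438953472), (274877906944, 274877906944)] rfl (by decide +kernel)
theorem Z_c0_t23 : CovD 1 gZ [(261134745600, 13744209920), (68719476736, 68719476736), (137438953472, 137438953472)] :=
  covD_E kZ_eq (.n 1 (.n 0 (.n 2 (.n 2 (.l 0) (.l 0)) (.n 2 (.l 0) (.l 0))) (.n 2 (.n 2 (.l 0) (.l 0)) (.n 2 (.l 0) (.l 0)))) (.n 2 (.n 2 (.l 0) (.l 0)) (.n 2 (.l 0) (.l 0))))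
    [(261134745600, 13744209920), (68719476736, 68719476736), (137438953472, 137438953472)] rfl (by decide +kernel)
end

mutual
theorem Z_c0_t24 : CovD 1 gZ [(261134745600, 13744209920), (68719476736, 68719476736), (412316860416, 137438953472)] :=
  covD_E kZ_eq (.n 2 (.n 1 (.n 0 (.n 2 (.l 0) (.l 0)) (.n 2 (.l 0) (.l 0))) (.n 2 (.l 0) (.l 0))) (.n 0 (.n 2 (.l 0) (.l 0)) (.n 0 (.n 2 (.l 0) (.l 0)) (.n 2 (.l 0) (.l 0)))))
    [(261134745600, 13744209920), (68719476736, 68719476736), (412316860416, 137438953472)] rfl (by decide +kernel)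
theorem Z_c0_t25 : CovD 1 gZ [(261134745600, 13744209920), (206158430208, 68719476736), (274877906944, 274877906944)] :=
  covD_E kZ_eq (.n 2 (.n 2 (.n 2 (.l 0) (.n 0 (.l 0) (.l 0))) (.n 0 (.n 2 (.l 0) (.l 0)) (.n 2 (.l 0) (.l 0)))) (.n 0 (.n 2 (.n 2 (.l 0) (.l 0)) (.n 2 (.l 0) (.l 0))) (.n 2 (.n 2 (.l 0) (.l 0)) (.n 2 (.l 0) (.l 0)))))
    [(261134745600, 13744209920), (206158430208, 68719476736), (274877906944, 274877906944)] rfl (by decide +kernel)
end

mutual
theorem Z_c0_t27 : CovD 1 gZ [(261134745600, 13744209920), (343597383680, 68719476736), (274877906944, 274877906944)] :=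
  covD_E kZ_eq (.n 2 (.n 2 (.n 2 (.l 0) (.l 0)) (.n 2 (.l 0) (.n 0 (.l 0) (.l 0)))) (.n 0 (.n 1 (.n 2 (.l 0) (.l 0)) (.n 2 (.l 0) (.l 0))) (.n 2 (.n 2 (.l 0) (.l 0)) (.n 2 (.l 0) (.l 0)))))
    [(261134745600, 13744209920), (343597383680, 68719476736), (274877906944, 274877906944)] rfl (by decide +kernel)
theorem Z_c0_t28 : CovD 1 gZ [(261134745600, 13744209920), (481036337152, 68719476736), (274877906944, 274877906944)] :=
  covD_E kZ_eq (.n 2 (.n 2 (.n 2 (.l 0) (.l 0)) (.n 2 (.l 0) (.l 0))) (.n 2 (.n 2 (.l 0) (.n 0 (.l 0) (.l 0))) (.n 0 (.n 0 (.l 0) (.l 0)) (.n 2 (.l 0) (.l 0)))))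
    [(261134745600, 13744209920), (481036337152, 68719476736), (274877906944, 274877906944)] rfl (by decide +kernel)
end

mutual
theorem Z_c0_t31 : CovD 1 gZ [(261134745600, 13744209920), (618475290624, 68719476736), (274877906944, 274877906944)] :=
  covD_E kZ_eq (.n 2 (.n 2 (.n 2 (.l 0) (.l 0)) (.n 2 (.l 0) (.l 0))) (.n 2 (.n 2 (.l 0) (.n 0 (.l 0) (.l 0))) (.n 0 (.n 0 (.l 0) (.l 0)) (.n 0 (.l 0) (.l 0)))))
    [(261134745600, 13744209920), (618475290624, 68719476736), (274877906944, 274877906944)] rfl (by decide +kernel)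
theorem Z_c0_t32 : CovD 1 gZ [(261134745600, 13744209920), (755914244096, 68719476736), (274877906944, 274877906944)] :=
  covD_E kZ_eq (.n 2 (.n 2 (.n 0 (.l 0) (.l 0)) (.n 2 (.l 0) (.l 0))) (.n 0 (.n 0 (.n 2 (.l 0) (.l 0)) (.n 2 (.l 0) (.l 0))) (.n 0 (.n 2 (.l 0) (.l 0)) (.n 2 (.l 0) (.l 0)))))
    [(261134745600, 13744209920), (755914244096, 68719476736), (274877906944, 274877906944)] rfl (by decide +kernel)
end

mutual
theorem Z_c0_t34 : CovD 1 gZ [(261134745600, 13744209920), (893353197568, 68719476736), (274877906944, 274877906944)] :=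
  covD_E kZ_eq (.n 2 (.n 2 (.n 0 (.l 0) (.l 0)) (.n 2 (.l 0) (.l 0))) (.n 0 (.n 0 (.n 2 (.l 0) (.l 0)) (.n 2 (.l 0) (.l 0))) (.n 0 (.n 2 (.l 0) (.l 0)) (.n 2 (.l 0) (.l 0)))))
    [(261134745600, 13744209920), (893353197568, 68719476736), (274877906944, 274877906944)] rfl (by decide +kernel)
theorem Z_c0_t35 : CovD 1 gZ [(261134745600, 13744209920), (1030792151040, 68719476736), (274877906944, 274877906944)] :=
  covD_E kZ_eq (.n 0 (.n 2 (.n 2 (.l 0) (.l 0)) (.n 0 (.n 2 (.l 0) (.l 0)) (.n 2 (.l 0) (.l 0)))) (.n 2 (.n 2 (.l 0) (.n 0 (.l 0) (.l 0))) (.n 1 (.n 2 (.l 0) (.l 0)) (.n 2 (.l 0) (.l 0)))))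
    [(261134745600, 13744209920), (1030792151040, 68719476736), (274877906944, 274877906944)] rfl (by decide +kernel)
end

mutual
theorem Z_c0_t40 : CovD 1 gZ [(226774220800, 6872104960), (137438953472, 137438953472), (824633720832, 274877906944)] :=
  covD_E kZ_eq (.n 1 (.n 2 (.n 2 (.n 2 (.l 0) (.l 0)) (.n 2 (.l 0) (.l 0))) (.n 2 (.n 0 (.l 0) (.l 0)) (.n 2 (.l 0) (.l 0)))) (.n 0 (.n 2 (.n 2 (.l 0) (.l 0)) (.n 2 (.l 0) (.l 0))) (.n 2 (.n 2 (.l 0) (.l 0)) (.n 2 (.l 0) (.l 0)))))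
    [(226774220800, 6872104960), (137438953472, 137438953472), (824633720832, 274877906944)] rfl (by decide +kernel)
theorem Z_c0_t41 : CovD 1 gZ [(226774220800, 6872104960), (412316860416, 137438953472), (824633720832, 274877906944)] :=
  covD_E kZ_eq (.n 1 (.n 2 (.n 0 (.n 2 (.l 0) (.l 0)) (.n 2 (.l 0) (.l 0))) (.n 2 (.n 0 (.l 0) (.l 0)) (.n 2 (.l 0) (.l 0)))) (.n 2 (.n 0 (.n 2 (.l 0) (.l 0)) (.n 2 (.l 0) (.l 0))) (.n 2 (.n 0 (.l 0) (.l 0)) (.n 2 (.l 0) (.l 0)))))
    [(226774220800, 6872104960), (412316860416, 137438953472), (824633720832, 274877906944)] rfl (by decide +kernel)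
end

mutual
theorem Z_c0_t44 : CovD 1 gZ [(226774220800, 6872104960), (618475290624, 68719476736), (824633720832, 274877906944)] :=
  covD_E kZ_eq (.n 2 (.n 0 (.n 2 (.l 0) (.l 0)) (.n 2 (.l 0) (.l 0))) (.n 2 (.n 0 (.l 0) (.l 0)) (.n 2 (.l 0) (.l 0))))
    [(226774220800, 6872104960), (618475290624, 68719476736), (824633720832, 274877906944)] rfl (by decide +kernel)
theorem Z_c0_t45 : CovD 1 gZ [(226774220800, 6872104960), (755914244096, 68719476736), (824633720832, 274877906944)] :=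
  covD_E kZ_eq (.n 2 (.n 0 (.n 2 (.l 0) (.l 0)) (.n 2 (.l 0) (.l 0))) (.n 2 (.n 0 (.l 0) (.l 0)) (.n 2 (.l 0) (.n 0 (.l 0) (.l 0)))))
    [(226774220800, 6872104960), (755914244096, 68719476736), (824633720832, 274877906944)] rfl (by decide +kernel)
end

mutual
theorem Z_c0_t47 : CovD 1 gZ [(226774220800, 6872104960), (893353197568, 68719476736), (824633720832, 274877906944)] :=
  covD_E kZ_eq (.n 2 (.n 0 (.n 2 (.l 0) (.l 0)) (.n 2 (.l 0) (.l 0))) (.n 2 (.n 0 (.l 0) (.l 0)) (.n 2 (.l 0) (.n 0 (.l 0) (.l 0)))))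
    [(226774220800, 6872104960), (893353197568, 68719476736), (824633720832, 274877906944)] rfl (by decide +kernel)
theorem Z_c0_t48 : CovD 1 gZ [(226774220800, 6872104960), (1030792151040, 68719476736), (824633720832, 274877906944)] :=
  covD_E kZ_eq (.n 2 (.n 2 (.n 0 (.l 0) (.l 0)) (.n 2 (.l 0) (.l 0))) (.n 2 (.n 2 (.l 0) (.l 0)) (.n 0 (.n 1 (.l 0) (.l 0)) (.n 2 (.l 0) (.l 0)))))
    [(226774220800, 6872104960), (1030792151040, 68719476736), (824633720832, 274877906944)] rfl (by decide +kernel)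
end

mutual
theorem Z_c0_t52 : CovD 1 gZ [(240518430720, 6872104960), (68719476736, 68719476736), (824633720832, 274877906944)] :=
  covD_E kZ_eq (.n 2 (.n 2 (.n 2 (.l 0) (.l 0)) (.n 2 (.l 0) (.l 0))) (.n 2 (.n 2 (.l 0) (.l 0)) (.n 2 (.l 0) (.n 0 (.l 0) (.l 0)))))
    [(240518430720, 6872104960), (68719476736, 68719476736), (824633720832, 274877906944)] rfl (by decide +kernel)
theorem Z_c0_t53 : CovD 1 gZ [(240518430720, 6872104960), (206158430208, 68719476736), (824633720832, 274877906944)] :=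
  covD_E kZ_eq (.n 2 (.n 0 (.n 2 (.l 0) (.l 0)) (.n 2 (.l 0) (.l 0))) (.n 2 (.n 0 (.l 0) (.l 0)) (.n 2 (.l 0) (.l 0))))
    [(240518430720, 6872104960), (206158430208, 68719476736), (824633720832, 274877906944)] rfl (by decide +kernel)
end

mutual
theorem Z_c0_t55 : CovD 1 gZ [(240518430720, 6872104960), (343597383680, 68719476736), (824633720832, 274877906944)] :=
  covD_E kZ_eq (.n 2 (.n 0 (.n 2 (.l 0) (.l 0)) (.n 2 (.l 0) (.l 0))) (.n 2 (.n 0 (.l 0) (.l 0)) (.n 2 (.l 0) (.l 0))))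
    [(240518430720, 6872104960), (343597383680, 68719476736), (824633720832, 274877906944)] rfl (by decide +kernel)
theorem Z_c0_t56 : CovD 1 gZ [(240518430720, 6872104960), (481036337152, 68719476736), (824633720832, 274877906944)] :=
  covD_E kZ_eq (.n 2 (.n 0 (.n 2 (.l 0) (.l 0)) (.n 2 (.l 0) (.l 0))) (.n 2 (.n 0 (.l 0) (.l 0)) (.n 2 (.l 0) (.n 0 (.l 0) (.l 0)))))
    [(240518430720, 6872104960), (481036337152, 68719476736), (824633720832, 274877906944)] rfl (by decide +kernel)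
end

mutual
theorem Z_c0_t59 : CovD 1 gZ [(240518430720, 6872104960), (618475290624, 68719476736), (824633720832, 274877906944)] :=
  covD_E kZ_eq (.n 2 (.n 0 (.n 2 (.l 0) (.l 0)) (.n 2 (.l 0) (.l 0))) (.n 2 (.n 2 (.l 0) (.l 0)) (.n 2 (.l 0) (.n 0 (.l 0) (.l 0)))))
    [(240518430720, 6872104960), (618475290624, 68719476736), (824633720832, 274877906944)] rfl (by decide +kernel)
theorem Z_c0_t60 : CovD 1 gZ [(240518430720, 6872104960), (755914244096, 68719476736), (824633720832, 274877906944)] :=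
  covD_E kZ_eq (.n 2 (.n 2 (.n 0 (.l 0) (.l 0)) (.n 2 (.l 0) (.l 0))) (.n 2 (.n 2 (.l 0) (.l 0)) (.n 2 (.l 0) (.n 0 (.l 0) (.l 0)))))
    [(240518430720, 6872104960), (755914244096, 68719476736), (824633720832, 274877906944)] rfl (by decide +kernel)
end

mutual
theorem Z_c0_t62 : CovD 1 gZ [(240518430720, 6872104960), (893353197568, 68719476736), (824633720832, 274877906944)] :=
  covD_E kZ_eq (.n 2 (.n 2 (.n 0 (.l 0) (.l 0)) (.n 2 (.l 0) (.l 0))) (.n 2 (.n 2 (.l 0) (.l 0)) (.n 0 (.n 2 (.l 0) (.l 0)) (.n 2 (.l 0) (.l 0)))))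
    [(240518430720, 6872104960), (893353197568, 68719476736), (824633720832, 274877906944)] rfl (by decide +kernel)
theorem Z_c0_t63 : CovD 1 gZ [(240518430720, 6872104960), (1030792151040, 68719476736), (824633720832, 274877906944)] :=
  covD_E kZ_eq (.n 2 (.n 2 (.n 1 (.l 0) (.l 0)) (.n 2 (.l 0) (.l 0))) (.n 2 (.n 2 (.l 0) (.n 0 (.l 0) (.l 0))) (.n 0 (.n 2 (.l 0) (.l 0)) (.n 2 (.l 0) (.l 0)))))
    [(240518430720, 6872104960), (1030792151040, 68719476736), (824633720832, 274877906944)] rfl (by decide +kernel)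
end

mutual
theorem Z_c0_t68 : CovD 1 gZ [(254262640640, 6872104960), (68719476736, 68719476736), (824633720832, 274877906944)] :=
  covD_E kZ_eq (.n 2 (.n 2 (.n 2 (.l 0) (.l 0)) (.n 2 (.l 0) (.l 0))) (.n 2 (.n 2 (.l 0) (.l 0)) (.n 0 (.n 2 (.l 0) (.l 0)) (.n 2 (.l 0) (.l 0)))))
    [(254262640640, 6872104960), (68719476736, 68719476736), (824633720832, 274877906944)] rfl (by decide +kernel)
theorem Z_c0_t69 : CovD 1 gZ [(254262640640, 6872104960), (206158430208, 68719476736), (824633720832, 274877906944)] :=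
  covD_E kZ_eq (.n 2 (.n 2 (.n 2 (.l 0) (.l 0)) (.n 2 (.l 0) (.l 0))) (.n 2 (.n 2 (.l 0) (.l 0)) (.n 2 (.l 0) (.n 0 (.l 0) (.l 0)))))
    [(254262640640, 6872104960), (206158430208, 68719476736), (824633720832, 274877906944)] rfl (by decide +kernel)
end

mutual
theorem Z_c0_t71 : CovD 1 gZ [(254262640640, 6872104960), (343597383680, 68719476736), (824633720832, 274877906944)] :=
  covD_E kZ_eq (.n 2 (.n 2 (.n 2 (.l 0) (.l 0)) (.n 2 (.l 0) (.l 0))) (.n 2 (.n 2 (.l 0) (.l 0)) (.n 2 (.l 0) (.n 0 (.l 0) (.l 0)))))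
    [(254262640640, 6872104960), (343597383680, 68719476736), (824633720832, 274877906944)] rfl (by decide +kernel)
theorem Z_c0_t72 : CovD 1 gZ [(254262640640, 6872104960), (481036337152, 68719476736), (824633720832, 274877906944)] :=
  covD_E kZ_eq (.n 2 (.n 2 (.n 2 (.l 0) (.l 0)) (.n 2 (.l 0) (.l 0))) (.n 2 (.n 2 (.l 0) (.l 0)) (.n 2 (.l 0) (.n 0 (.l 0) (.l 0)))))
    [(254262640640, 6872104960), (481036337152, 68719476736), (824633720832, 274877906944)] rfl (by decide +kernel)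
end

mutual
theorem Z_c0_t75 : CovD 1 gZ [(254262640640, 6872104960), (618475290624, 68719476736), (824633720832, 274877906944)] :=
  covD_E kZ_eq (.n 2 (.n 2 (.n 2 (.l 0) (.l 0)) (.n 2 (.l 0) (.l 0))) (.n 2 (.n 2 (.l 0) (.l 0)) (.n 0 (.n 2 (.l 0) (.l 0)) (.n 2 (.l 0) (.l 0)))))
    [(254262640640, 6872104960), (618475290624, 68719476736), (824633720832, 274877906944)] rfl (by decide +kernel)
theorem Z_c0_t76 : CovD 1 gZ [(254262640640, 6872104960), (755914244096, 68719476736), (824633720832, 274877906944)] :=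
  covD_E kZ_eq (.n 2 (.n 2 (.n 2 (.l 0) (.l 0)) (.n 2 (.l 0) (.l 0))) (.n 2 (.n 2 (.l 0) (.l 0)) (.n 0 (.n 2 (.l 0) (.l 0)) (.n 2 (.l 0) (.l 0)))))
    [(254262640640, 6872104960), (755914244096, 68719476736), (824633720832, 274877906944)] rfl (by decide +kernel)
end

mutual
theorem Z_c0_t78 : CovD 1 gZ [(254262640640, 6872104960), (893353197568, 68719476736), (824633720832, 274877906944)] :=
  covD_E kZ_eq (.n 2 (.n 2 (.n 2 (.l 0) (.l 0)) (.n 2 (.l 0) (.l 0))) (.n 2 (.n 2 (.l 0) (.n 0 (.l 0) (.l 0))) (.n 0 (.n 2 (.l 0) (.l 0)) (.n 2 (.l 0) (.l 0)))))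
    [(254262640640, 6872104960), (893353197568, 68719476736), (824633720832, 274877906944)] rfl (by decide +kernel)
theorem Z_c0_t79 : CovD 1 gZ [(254262640640, 6872104960), (1030792151040, 68719476736), (824633720832, 274877906944)] :=
  covD_E kZ_eq (.n 2 (.n 2 (.n 2 (.l 0) (.l 0)) (.n 2 (.l 0) (.l 0))) (.n 0 (.n 2 (.n 1 (.l 0) (.l 0)) (.n 2 (.l 0) (.l 0))) (.n 2 (.n 2 (.l 0) (.l 0)) (.n 2 (.l 0) (.n 0 (.l 0) (.l 0))))))
    [(254262640640, 6872104960), (1030792151040, 68719476736), (824633720832, 274877906944)] rfl (by decide +kernel)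
end

mutual
theorem Z_c0_t83 : CovD 1 gZ [(268006850560, 6872104960), (68719476736, 68719476736), (824633720832, 274877906944)] :=
  covD_E kZ_eq (.n 0 (.n 2 (.n 2 (.n 2 (.l 0) (.l 0)) (.n 2 (.l 0) (.l 0))) (.n 2 (.n 2 (.l 0) (.l 0)) (.n 2 (.l 0) (.l 0)))) (.n 2 (.n 2 (.n 2 (.l 0) (.l 0)) (.n 2 (.l 0) (.l 0))) (.n 2 (.n 2 (.l 0) (.l 0)) (.n 2 (.l 0) (.l 0)))))
    [(268006850560, 6872104960), (68719476736, 68719476736), (824633720832, 274877906944)] rfl (by decide +kernel)
theorem Z_c0_t84 : CovD 1 gZ [(268006850560, 6872104960), (206158430208, 68719476736), (824633720832, 274877906944)] :=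
  covD_E kZ_eq (.n 2 (.n 2 (.n 2 (.l 0) (.l 0)) (.n 2 (.l 0) (.l 0))) (.n 2 (.n 2 (.l 0) (.l 0)) (.n 0 (.n 2 (.l 0) (.l 0)) (.n 2 (.l 0) (.l 0)))))
    [(268006850560, 6872104960), (206158430208, 68719476736), (824633720832, 274877906944)] rfl (by decide +kernel)
end

mutual
theorem Z_c0_t86 : CovD 1 gZ [(268006850560, 6872104960), (343597383680, 68719476736), (824633720832, 274877906944)] :=
  covD_E kZ_eq (.n 2 (.n 2 (.n 2 (.l 0) (.l 0)) (.n 2 (.l 0) (.l 0))) (.n 2 (.n 2 (.l 0) (.l 0)) (.n 0 (.n 2 (.l 0) (.l 0)) (.n 2 (.l 0) (.l 0)))))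
    [(268006850560, 6872104960), (343597383680, 68719476736), (824633720832, 274877906944)] rfl (by decide +kernel)
theorem Z_c0_t87 : CovD 1 gZ [(268006850560, 6872104960), (481036337152, 68719476736), (824633720832, 274877906944)] :=
  covD_E kZ_eq (.n 2 (.n 2 (.n 2 (.l 0) (.l 0)) (.n 2 (.l 0) (.l 0))) (.n 2 (.n 2 (.l 0) (.n 0 (.l 0) (.l 0))) (.n 0 (.n 2 (.l 0) (.l 0)) (.n 2 (.l 0) (.n 0 (.l 0) (.l 0))))))
    [(268006850560, 6872104960), (481036337152, 68719476736), (824633720832, 274877906944)] rfl (by decide +kernel)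
end

mutual
theorem Z_c0_t90 : CovD 1 gZ [(268006850560, 6872104960), (618475290624, 68719476736), (824633720832, 274877906944)] :=
  covD_E kZ_eq (.n 2 (.n 2 (.n 2 (.l 0) (.l 0)) (.n 2 (.l 0) (.l 0))) (.n 2 (.n 2 (.l 0) (.n 0 (.l 0) (.l 0))) (.n 0 (.n 2 (.l 0) (.l 0)) (.n 2 (.l 0) (.n 0 (.l 0) (.l 0))))))
    [(268006850560, 6872104960), (618475290624, 68719476736), (824633720832, 274877906944)] rfl (by decide +kernel)
theorem Z_c0_t91 : CovD 1 gZ [(268006850560, 6872104960), (755914244096, 68719476736), (824633720832, 274877906944)] :=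
  covD_E kZ_eq (.n 2 (.n 2 (.n 2 (.l 0) (.l 0)) (.n 2 (.l 0) (.l 0))) (.n 0 (.n 2 (.n 2 (.l 0) (.l 0)) (.n 2 (.l 0) (.n 0 (.l 0) (.l 0)))) (.n 2 (.n 2 (.l 0) (.l 0)) (.n 2 (.l 0) (.n 2 (.l 0) (.l 0))))))
    [(268006850560, 6872104960), (755914244096, 68719476736), (824633720832, 274877906944)] rfl (by decide +kernel)
end

mutual
theorem Z_c0_t93 : CovD 1 gZ [(268006850560, 6872104960), (893353197568, 68719476736), (824633720832, 274877906944)] :=
  covD_E kZ_eq (.n 2 (.n 2 (.n 2 (.l 0) (.l 0)) (.n 2 (.l 0) (.l 0))) (.n 0 (.n 2 (.n 2 (.l 0) (.l 0)) (.n 2 (.l 0) (.n 0 (.l 0) (.l 0)))) (.n 2 (.n 2 (.l 0) (.l 0)) (.n 2 (.l 0) (.n 2 (.l 0) (.n 0 (.l 0) (.l 0)))))))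
    [(268006850560, 6872104960), (893353197568, 68719476736), (824633720832, 274877906944)] rfl (by decide +kernel)
theorem Z_c0_t95 : CovD 1 gZ [(268006850560, 6872104960), (1030792151040, 68719476736), (687194767360, 137438953472)] :=
  covD_E kZ_eq (.n 2 (.n 2 (.l 0) (.l 0)) (.n 2 (.l 0) (.n 0 (.l 0) (.l 0))))
    [(268006850560, 6872104960), (1030792151040, 68719476736), (687194767360, 137438953472)] rfl (by decide +kernel)
end

mutual
theorem Z_c0_t96 : CovD 1 gZ [(268006850560, 6872104960), (1030792151040, 68719476736), (962072674304, 137438953472)] :=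
  covD_E kZ_eq (.n 0 (.n 2 (.n 2 (.l 0) (.l 0)) (.n 2 (.l 0) (.n 2 (.l 0) (.l 0)))) (.n 2 (.n 2 (.l 0) (.l 0)) (.n 2 (.n 0 (.l 0) (.l 0)) (.n 2 (.l 0) (.n 0 (.l 0) (.l 0))))))
    [(268006850560, 6872104960), (1030792151040, 68719476736), (962072674304, 137438953472)] rfl (by decide +kernel)
theorem T_c0 : CovD 1 gT [(247390535680, 27488419840), (549755813888, 549755813888)] :=
  covD_E kT_eq (.n 0 (.n 1 (.l 0) (.l 0)) (.n 1 (.l 0) (.n 0 (.l 0) (.n 1 (.l 0) (.l 0)))))
    [(247390535680, 27488419840), (549755813888, 549755813888)] rfl (by decide +kernel)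
end

theorem S_c0 : CovD 0 gS [(247390535680, 27488419840), (549755813888, 549755813888)] :=
  covD_E kS_eq (.n 0 (.n 1 (.n 0 (.n 1 (.l 0) (.l 0)) (.n 1 (.l 0) (.l 0))) (.n 1 (.l 0) (.l 0))) (.n 1 (.n 1 (.n 1 (.l 0) (.l 0)) (.n 0 (.l 0) (.l 0))) (.n 1 (.l 0) (.l 0))))
    [(247390535680, 27488419840), (549755813888, 549755813888)] rfl (by decide +kernel)

theorem Z_c0_t5 : CovD 1 gZ [(233646325760, 13744209920), (68719476736, 68719476736), (274877906944, 274877906944)] :=
  covD_split 2 (by decide +kernel) Z_c0_t6 Z_c0_t7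

theorem Z_c0_t4 : CovD 1 gZ [(233646325760, 13744209920), (137438953472, 137438953472), (274877906944, 274877906944)] :=
  covD_split 1 (by decide +kernel) Z_c0_t5 Z_c0_t8

theorem Z_c0_t9 : CovD 1 gZ [(233646325760, 13744209920), (412316860416, 137438953472), (274877906944, 274877906944)] :=
  covD_split 1 (by decide +kernel) Z_c0_t10 Z_c0_t11

theorem Z_c0_t3 : CovD 1 gZ [(233646325760, 13744209920), (274877906944, 274877906944), (274877906944, 274877906944)] :=
  covD_split 1 (by decide +kernel) Z_c0_t4 Z_c0_t9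

theorem Z_c0_t13 : CovD 1 gZ [(233646325760, 13744209920), (687194767360, 137438953472), (274877906944, 274877906944)] :=
  covD_split 1 (by decide +kernel) Z_c0_t14 Z_c0_t15

theorem Z_c0_t16 : CovD 1 gZ [(233646325760, 13744209920), (962072674304, 137438953472), (274877906944, 274877906944)] :=
  covD_split 0 (by decide +kernel) Z_c0_t17 Z_c0_t18

theorem Z_c0_t12 : CovD 1 gZ [(233646325760, 13744209920), (824633720832, 274877906944), (274877906944, 274877906944)] :=
  covD_split 1 (by decide +kernel) Z_c0_t13 Z_c0_t16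

theorem Z_c0_t2 : CovD 1 gZ [(233646325760, 13744209920), (549755813888, 549755813888), (274877906944, 274877906944)] :=
  covD_split 1 (by decide +kernel) Z_c0_t3 Z_c0_t12

theorem Z_c0_t22 : CovD 1 gZ [(261134745600, 13744209920), (68719476736, 68719476736), (274877906944, 274877906944)] :=
  covD_split 2 (by decide +kernel) Z_c0_t23 Z_c0_t24

theorem Z_c0_t21 : CovD 1 gZ [(261134745600, 13744209920), (137438953472, 137438953472), (274877906944, 274877906944)] :=
  covD_split 1 (by decide +kernel) Z_c0_t22 Z_c0_t25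

theorem Z_c0_t26 : CovD 1 gZ [(261134745600, 13744209920), (412316860416, 137438953472), (274877906944, 274877906944)] :=
  covD_split 1 (by decide +kernel) Z_c0_t27 Z_c0_t28

theorem Z_c0_t20 : CovD 1 gZ [(261134745600, 13744209920), (274877906944, 274877906944), (274877906944, 274877906944)] :=
  covD_split 1 (by decide +kernel) Z_c0_t21 Z_c0_t26

theorem Z_c0_t30 : CovD 1 gZ [(261134745600, 13744209920), (687194767360, 137438953472), (274877906944, 274877906944)] :=
  covD_split 1 (by decide +kernel) Z_c0_t31 Z_c0_t32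

theorem Z_c0_t33 : CovD 1 gZ [(261134745600, 13744209920), (962072674304, 137438953472), (274877906944, 274877906944)] :=
  covD_split 1 (by decide +kernel) Z_c0_t34 Z_c0_t35

theorem Z_c0_t29 : CovD 1 gZ [(261134745600, 13744209920), (824633720832, 274877906944), (274877906944, 274877906944)] :=
  covD_split 1 (by decide +kernel) Z_c0_t30 Z_c0_t33

theorem Z_c0_t19 : CovD 1 gZ [(261134745600, 13744209920), (549755813888, 549755813888), (274877906944, 274877906944)] :=
  covD_split 1 (by decide +kernel) Z_c0_t20 Z_c0_t29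

theorem Z_c0_t1 : CovD 1 gZ [(247390535680, 27488419840), (549755813888, 549755813888), (274877906944, 274877906944)] :=
  covD_split 0 (by decide +kernel) Z_c0_t2 Z_c0_t19

theorem Z_c0_t39 : CovD 1 gZ [(226774220800, 6872104960), (274877906944, 274877906944), (824633720832, 274877906944)] :=
  covD_split 1 (by decide +kernel) Z_c0_t40 Z_c0_t41

theorem Z_c0_t43 : CovD 1 gZ [(226774220800, 6872104960), (687194767360, 137438953472), (824633720832, 274877906944)] :=
  covD_split 1 (by decide +kernel) Z_c0_t44 Z_c0_t45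

theorem Z_c0_t46 : CovD 1 gZ [(226774220800, 6872104960), (962072674304, 137438953472), (824633720832, 274877906944)] :=
  covD_split 1 (by decide +kernel) Z_c0_t47 Z_c0_t48

theorem Z_c0_t42 : CovD 1 gZ [(226774220800, 6872104960), (824633720832, 274877906944), (824633720832, 274877906944)] :=
  covD_split 1 (by decide +kernel) Z_c0_t43 Z_c0_t46

theorem Z_c0_t38 : CovD 1 gZ [(226774220800, 6872104960), (549755813888, 549755813888), (824633720832, 274877906944)] :=
  covD_split 1 (by decide +kernel) Z_c0_t39 Z_c0_t42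

theorem Z_c0_t51 : CovD 1 gZ [(240518430720, 6872104960), (137438953472, 137438953472), (824633720832, 274877906944)] :=
  covD_split 1 (by decide +kernel) Z_c0_t52 Z_c0_t53

theorem Z_c0_t54 : CovD 1 gZ [(240518430720, 6872104960), (412316860416, 137438953472), (824633720832, 274877906944)] :=
  covD_split 1 (by decide +kernel) Z_c0_t55 Z_c0_t56

theorem Z_c0_t50 : CovD 1 gZ [(240518430720, 6872104960), (274877906944, 274877906944), (824633720832, 274877906944)] :=
  covD_split 1 (by decide +kernel) Z_c0_t51 Z_c0_t54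

theorem Z_c0_t58 : CovD 1 gZ [(240518430720, 6872104960), (687194767360, 137438953472), (824633720832, 274877906944)] :=
  covD_split 1 (by decide +kernel) Z_c0_t59 Z_c0_t60

theorem Z_c0_t61 : CovD 1 gZ [(240518430720, 6872104960), (962072674304, 137438953472), (824633720832, 274877906944)] :=
  covD_split 1 (by decide +kernel) Z_c0_t62 Z_c0_t63

theorem Z_c0_t57 : CovD 1 gZ [(240518430720, 6872104960), (824633720832, 274877906944), (824633720832, 274877906944)] :=
  covD_split 1 (by decide +kernel) Z_c0_t58 Z_c0_t61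

theorem Z_c0_t49 : CovD 1 gZ [(240518430720, 6872104960), (549755813888, 549755813888), (824633720832, 274877906944)] :=
  covD_split 1 (by decide +kernel) Z_c0_t50 Z_c0_t57

theorem Z_c0_t37 : CovD 1 gZ [(233646325760, 13744209920), (549755813888, 549755813888), (824633720832, 274877906944)] :=
  covD_split 0 (by decide +kernel) Z_c0_t38 Z_c0_t49

theorem Z_c0_t67 : CovD 1 gZ [(254262640640, 6872104960), (137438953472, 137438953472), (824633720832, 274877906944)] :=
  covD_split 1 (by decide +kernel) Z_c0_t68 Z_c0_t69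

theorem Z_c0_t70 : CovD 1 gZ [(254262640640, 6872104960), (412316860416, 137438953472), (824633720832, 274877906944)] :=
  covD_split 1 (by decide +kernel) Z_c0_t71 Z_c0_t72

theorem Z_c0_t66 : CovD 1 gZ [(254262640640, 6872104960), (274877906944, 274877906944), (824633720832, 274877906944)] :=
  covD_split 1 (by decide +kernel) Z_c0_t67 Z_c0_t70

theorem Z_c0_t74 : CovD 1 gZ [(254262640640, 6872104960), (687194767360, 137438953472), (824633720832, 274877906944)] :=
  covD_split 1 (by decide +kernel) Z_c0_t75 Z_c0_t76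

theorem Z_c0_t77 : CovD 1 gZ [(254262640640, 6872104960), (962072674304, 137438953472), (824633720832, 274877906944)] :=
  covD_split 1 (by decide +kernel) Z_c0_t78 Z_c0_t79

theorem Z_c0_t73 : CovD 1 gZ [(254262640640, 6872104960), (824633720832, 274877906944), (824633720832, 274877906944)] :=
  covD_split 1 (by decide +kernel) Z_c0_t74 Z_c0_t77

theorem Z_c0_t65 : CovD 1 gZ [(254262640640, 6872104960), (549755813888, 549755813888), (824633720832, 274877906944)] :=
  covD_split 1 (by decide +kernel) Z_c0_t66 Z_c0_t73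

theorem Z_c0_t82 : CovD 1 gZ [(268006850560, 6872104960), (137438953472, 137438953472), (824633720832, 274877906944)] :=
  covD_split 1 (by decide +kernel) Z_c0_t83 Z_c0_t84

theorem Z_c0_t85 : CovD 1 gZ [(268006850560, 6872104960), (412316860416, 137438953472), (824633720832, 274877906944)] :=
  covD_split 1 (by decide +kernel) Z_c0_t86 Z_c0_t87

theorem Z_c0_t81 : CovD 1 gZ [(268006850560, 6872104960), (274877906944, 274877906944), (824633720832, 274877906944)] :=
  covD_split 1 (by decide +kernel) Z_c0_t82 Z_c0_t85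

theorem Z_c0_t89 : CovD 1 gZ [(268006850560, 6872104960), (687194767360, 137438953472), (824633720832, 274877906944)] :=
  covD_split 1 (by decide +kernel) Z_c0_t90 Z_c0_t91

theorem Z_c0_t94 : CovD 1 gZ [(268006850560, 6872104960), (1030792151040, 68719476736), (824633720832, 274877906944)] :=
  covD_split 2 (by decide +kernel) Z_c0_t95 Z_c0_t96

theorem Z_c0_t92 : CovD 1 gZ [(268006850560, 6872104960), (962072674304, 137438953472), (824633720832, 274877906944)] :=
  covD_split 1 (by decide +kernel) Z_c0_t93 Z_c0_t94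

theorem Z_c0_t88 : CovD 1 gZ [(268006850560, 6872104960), (824633720832, 274877906944), (824633720832, 274877906944)] :=
  covD_split 1 (by decide +kernel) Z_c0_t89 Z_c0_t92

theorem Z_c0_t80 : CovD 1 gZ [(268006850560, 6872104960), (549755813888, 549755813888), (824633720832, 274877906944)] :=
  covD_split 1 (by decide +kernel) Z_c0_t81 Z_c0_t88

theorem Z_c0_t64 : CovD 1 gZ [(261134745600, 13744209920), (549755813888, 549755813888), (824633720832, 274877906944)] :=
  covD_split 0 (by decide +kernel) Z_c0_t65 Z_c0_t80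

theorem Z_c0_t36 : CovD 1 gZ [(247390535680, 27488419840), (549755813888, 549755813888), (824633720832, 274877906944)] :=
  covD_split 0 (by decide +kernel) Z_c0_t37 Z_c0_t64

theorem Z_c0 : CovD 1 gZ [(247390535680, 27488419840), (549755813888, 549755813888), (549755813888, 549755813888)] :=
  covD_split 2 (by decide +kernel) Z_c0_t1 Z_c0_t36

end Pool.Agent.helper14.NR.E4d
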