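import Pool.Agent.helper14.NR.E4d.Tab
import Pool.Agent.helper14.NR.Share

/-!
Generated: programs and compiled forms.
-/

namespace Pool.Agent.helper14.NR.E4d

open Pool.Agent.helper31.IA (Z)
open Pool.Agent.helper31.IX (Op XOps runX Cov CovD cov_split covD_split)
open Pool.Agent.helper31.IC (TD)
open Pool.Agent.helper63.RG (reloc)
open Pool.Agent.helper63.NF hiding TD
open Pool.Agent.helper14.CF (xE covD_E)
open Pool.Agent.helper14.NR (share)

def p_Z_0 : List Op := [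
  .pos 0,
  .scale ⟨10447239512064, 0, 0, 0⟩ 0,
  .const ⟨0, 7472169353216, 0, 0⟩,
  .add 1 0,
  .mul 0 3,
  .const ⟨2077207035904, 0, 0, 0⟩,
  .add 1 0,
  .mul 7 0,
  .const ⟨879609511936, 0, 0, 0⟩,
  .add 1 0,
  .inv 9,
  .mul 10 1,
  .scale ⟨2199023255552, 0, 0, 0⟩ 0,
  .exp 1,
  .neg 2,
  .exp 0,
  .mul 2 2,
  .mul 1 1,
  .mul 0 0,
  .sub 5 3,
  .add 6 4,
  .mul 1 0,
  .scale ⟨549755813888, 0, 0, 0⟩ 0,
  .mul 3 3,
  .mul 1 13,
  .scale ⟨2199023255552, 0, 0, 0⟩ 15,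
  .neg 0,
  .exp 0,
  .const ⟨1099511627776, 0, 0, 0⟩,
  .add 1 0,
  .pos 0,
  .inv 0,
  .mul 3 0,
  .add 15 14,
  .scale ⟨549755813888, 0, 0, 0⟩ 0,
  .const ⟨247497490432, 0, 0, 0⟩,
  .sub 34 0,
  .const ⟨1340029796352, 0, 0, 0⟩,
  .sub 27 0,
  .mul 0 0,
  .mul 0 1,
  .mul 4 2,
  .mul 5 2,
  .mul 6 6,
  .mul 0 5,
  .mul 1 8,
  .scale ⟨3431701504, 0, 0, 0⟩ 7,
  .scale ⟨0, 6630662912, 0, 0⟩ 7,
  .add 1 0,
  .scale ⟨6288853760, 0, 0, 0⟩ 8,
  .add 1 0,
  .scale ⟨217345086464, 0, 0, 0⟩ 14,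
  .add 1 0,
  .scale ⟨0, 118364892352, 0, 0⟩ 11,
  .add 1 0,
  .scale ⟨58107493376, 0, 0, 0⟩ 12,
  .add 1 0,
  .scale ⟨0, 269349337920, 0, 0⟩ 13,
  .add 1 0,
  .scale ⟨0, 44194304896, 0, 0⟩ 14,
  .add 1 0,
  .scale ⟨0, 1119282293952, 0, 0⟩ 15,
  .add 1 0,
  .const ⟨636400814912, 0, 0, 0⟩,
  .add 1 0,
  .scale ⟨0, 12027544448, 0, 0⟩ 26,
  .scale ⟨3385478016, 0, 0, 0⟩ 26,
  .add 1 0,
  .scale ⟨0, 62225771520, 0, 0⟩ 31,
  .add 1 0,
  .scale ⟨0, 24990052096, 0, 0⟩ 28,
  .add 1 0,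
  .scale ⟨0, 94638355776, 0, 0⟩ 28,
  .add 1 0,
  .const ⟨0, 11747053696, 0, 0⟩,
  .add 1 0,
  .scale ⟨1587523008, 0, 0, 0⟩ 37,
  .scale ⟨0, 7775299072, 0, 0⟩ 40,
  .add 1 0,
  .const ⟨0, 4654083136, 0, 0⟩,
  .add 1 0,
  .scale ⟨0, 0, 1099511627776, 0⟩ 81,
  .scale ⟨549755813888, 0, 0, 0⟩ 0,
  .add 0 53,
  .inv 0,
  .mul 3 0,
  .scale ⟨0, 267736289728, 0, 0⟩ 0,
  .const ⟨2200552290176, 0, 0, 0⟩,
  .add 1 0,
  .mul 3 0,
  .const ⟨0, 2969431306176, 0, 0⟩,
  .add 1 0,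
  .mul 6 0,
  .const ⟨4144742949184, 0, 0, 0⟩,
  .add 1 0,
  .mul 9 0,
  .scale ⟨0, 1781266989312, 0, 0⟩ 57,
  .scale ⟨0, 27084827172736, 0, 0⟩ 60,
  .add 1 0,
  .const ⟨0, 2633070007104, 0, 0⟩,
  .add 1 0,
  .add 5 0,
  .mul 16 0,
  .scale ⟨1526902875584, 0, 0, 0⟩ 64,
  .scale ⟨19124167201408, 0, 0, 0⟩ 67,
  .add 1 0,
  .const ⟨1786534437376, 0, 0, 0⟩,
  .add 1 0,
  .add 5 0,
  .mul 23 0,
  .scale ⟨0, 2044617846336, 0, 0⟩ 71,
  .scale ⟨0, 34695143397888, 0, 0⟩ 74,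
  .add 1 0,
  .const ⟨0, 470602375808, 0, 0⟩,
  .add 1 0,
  .add 5 0,
  .mul 30 0,
  .scale ⟨0, 245665460544, 0, 0⟩ 78,
  .scale ⟨15426309922880, 0, 0, 0⟩ 81,
  .add 1 0,
  .const ⟨868581163968, 0, 0, 0⟩,
  .add 1 0,
  .add 5 0,
  .mul 37 0,
  .scale ⟨1066349951872, 0, 0, 0⟩ 85,
  .scale ⟨396109696256, 0, 0, 0⟩ 85,
  .add 1 0,
  .scale ⟨0, 236526323136, 0, 0⟩ 90,
  .add 1 0,
  .scale ⟨26186117816256, 0, 0, 0⟩ 87,
  .add 1 0,
  .scale ⟨569802385099648, 0, 0, 0⟩ 87,
  .add 1 0,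
  .const ⟨0, 759536097536, 0, 0⟩,
  .add 1 0,
  .add 11 0,
  .mul 50 0,
  .scale ⟨0, 1485047699072, 0, 0⟩ 98,
  .scale ⟨0, 223226032128, 0, 0⟩ 98,
  .add 1 0,
  .scale ⟨0, 314042463360, 0, 0⟩ 103,
  .add 1 0,
  .scale ⟨0, 15865989985920, 0, 0⟩ 100,
  .add 1 0,
  .scale ⟨0, 327154934930048, 0, 0⟩ 100,
  .add 1 0,
  .const ⟨401110233920, 0, 0, 0⟩,
  .add 1 0,
  .add 11 0,
  .mul 63 0,
  .scale ⟨742948840960, 0, 0, 0⟩ 111,
  .scale ⟨81011339520, 0, 0, 0⟩ 111,
  .add 1 0,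
  .scale ⟨0, 18793233745856, 0, 0⟩ 116,
  .add 1 0,
  .scale ⟨14522583453056, 0, 0, 0⟩ 113,
  .add 1 0,
  .scale ⟨315901754843840, 0, 0, 0⟩ 113,
  .add 1 0,
  .const ⟨0, 2037591658240, 0, 0⟩,
  .add 1 0,
  .add 11 0,
  .mul 76 0,
  .scale ⟨0, 876648608768, 0, 0⟩ 124,
  .scale ⟨0, 69339403648, 0, 0⟩ 124,
  .add 1 0,
  .scale ⟨491548655168, 0, 0, 0⟩ 129,
  .add 1 0,
  .scale ⟨0, 6708523074624, 0, 0⟩ 126,
  .add 1 0,
  .scale ⟨0, 63822908104128, 0, 0⟩ 126,
  .add 1 0,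
  .const ⟨3731207086976, 0, 0, 0⟩,
  .add 1 0,
  .add 11 0,
  .mul 89 0,
  .scale ⟨750203826048, 0, 0, 0⟩ 137,
  .scale ⟨0, 215643454272, 0, 0⟩ 137,
  .add 1 0,
  .scale ⟨25686854400, 0, 0, 0⟩ 138,
  .add 1 0,
  .scale ⟨3471409305088, 0, 0, 0⟩ 144,
  .add 1 0,
  .scale ⟨2137271078144, 0, 0, 0⟩ 141,
  .add 1 0,
  .scale ⟨0, 924911048704, 0, 0⟩ 142,
  .add 1 0,
  .scale ⟨7819966989376, 0, 0, 0⟩ 143,
  .add 1 0,
  .scale ⟨0, 20852716380608, 0, 0⟩ 144,
  .add 1 0,
  .scale ⟨70376553176640, 0, 0, 0⟩ 145,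
  .add 1 0,
  .const ⟨1108141199808, 0, 0, 0⟩,
  .add 1 0,
  .mul 0 184,
  .add 20 0,
  .mul 195 195,
  .scale ⟨5703716569088, 0, 0, 0⟩ 0,
  .const ⟨1726576852992, 0, 0, 0⟩,
  .add 1 0,
  .scale ⟨4398046511104, 0, 0, 0⟩ 190,
  .mul 116 1,
  .scale ⟨4398046511104, 0, 0, 0⟩ 0,
  .add 2 0,
  .scale ⟨0, 165872271360, 0, 0⟩ 166,
  .scale ⟨0, 13061062656, 0, 0⟩ 166,
  .add 1 0,
  .scale ⟨1030873022464, 0, 0, 0⟩ 167,
  .add 1 0,
  .scale ⟨54939615232, 0, 0, 0⟩ 173,
  .add 1 0,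
  .scale ⟨1456536289280, 0, 0, 0⟩ 170,
  .add 1 0,
  .const ⟨185628819456, 0, 0, 0⟩,
  .add 1 0,
  .scale ⟨824633720832, 0, 0, 0⟩ 202,
  .neg 0,
  .exp 0,
  .mul 3 0,
  .mul 0 15,
  .scale ⟨879662989312, 0, 0, 0⟩ 16,
  .add 0 192,
  .pos 0,
  .inv 0,
  .mul 3 0,
  .neg 28,
  .exp 0,
  .add 0 197,
  .pos 0,
  .log 0,
  .mul 4 230,
  .sub 200 0,
  .log 0,
  .mul 5 2,
  .add 0 203,
  .pos 0,
  .log 0,
  .scale ⟨274877906944, 0, 0, 0⟩ 210,
  .log 205,
  .add 226 0,
  .sub 9 3,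
  .sub 0 1,
  .mul 0 238,
  .exp 0,
  .sub 7 10,
  .add 0 46,
  .mul 0 242,
  .exp 0,
  .mul 244 45,
  .scale ⟨1649267441664, 0, 0, 0⟩ 11,
  .add 0 218,
  .mul 2 0,
  .mul 250 0,
  .scale ⟨0, 0, 1099511627776, 0⟩ 0,
  .mul 0 0,
  .sub 17 0,
  .mul 12 12,
  .mul 0 1,
  .scale ⟨4398046511104, 0, 0, 0⟩ 0,
  .sub 227 0,
  .log 0,
  .scale ⟨549755813888, 0, 0, 0⟩ 0,
  .exp 0,
  .mul 19 9,
  .mul 0 1,
  .mul 27 17,
  .scale ⟨2199023255552, 0, 0, 0⟩ 10,
  .add 1 0,
  .mul 11 0,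
  .add 0 4,
  .mul 22 0,
  .scale ⟨4398046511104, 0, 0, 0⟩ 0,
  .add 0 240,
  .log 0,
  .scale ⟨549755813888, 0, 0, 0⟩ 0,
  .exp 0,
  .sub 0 239,
  .mul 249 249,
  .const ⟨51435454595072, 0, 0, 0⟩,
  .add 1 0,
  .pos 0,
  .inv 0,
  .mul 4 267,
  .mul 0 0,
  .sub 0 5,
  .mul 0 3,
  .lt 0 1099510579200,
  .mul 41 31,
  .scale ⟨2199023255552, 0, 0, 0⟩ 0,
  .sub 24 0,
  .pos 0,
  .mul 34 264,
  .add 252 0,
  .inv 0,
  .sub 254 0,
  .sub 15 0,
  .scale ⟨1453440565248, 0, 0, 0⟩ 252,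
  .scale ⟨0, 551785005056, 0, 0⟩ 252,
  .add 1 0,
  .scale ⟨633919307776, 0, 0, 0⟩ 253,
  .add 1 0,
  .scale ⟨13002722377728, 0, 0, 0⟩ 259,
  .add 1 0,
  .scale ⟨13724055633920, 0, 0, 0⟩ 256,
  .add 1 0,
  .const ⟨2951814709248, 0, 0, 0⟩,
  .add 1 0,
  .add 15 278,
  .inv 0,
  .mul 285 16,
  .mul 1 0,
  .mul 0 15,
  .inv 293,
  .mul 284 0,
  .scale ⟨2199023255552, 0, 0, 0⟩ 0,
  .mul 0 3,
  .add 4 281,
  .inv 0,
  .mul 7 0,
  .mul 0 296,
  .mul 0 297,
  .inv 14,
  .mul 1 0,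
  .mul 7 0,
  .lt 0 1099510579200,
  .add 284 44,
  .pos 0,
  .inv 0,
  .mul 0 0,
  .sub 292 0,
  .mul 0 311,
  .sub 304 2,
  .mul 0 313,
  .scale ⟨0, 74564224, 0, 0⟩ 2,
  .const ⟨1002610816, 0, 0, 0⟩,
  .add 1 0,
  .mul 5 0,
  .add 0 249,
  .mul 7 0,
  .add 0 256,
  .mul 9 0,
  .add 0 269,
  .mul 9 0,
  .neg 0,
  .exp 0,
  .sub 0 308,
  .add 0 309,
  .mul 311 0,
  .add 0 311,
  .pos 0,
  .mul 309 3,
  .add 0 313,
  .pos 0,
  .log 0,
  .add 70 321,
  .add 149 117,
  .sub 0 110,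
  .sub 0 3,
  .scale ⟨549755813888, 0, 0, 0⟩ 337,
  .mul 78 0,
  .sub 2 0,
  .exp 0,
  .scale ⟨0, 263874019328, 0, 0⟩ 267,
  .const ⟨559064023040, 0, 0, 0⟩,
  .add 1 0,
  .mul 270 0,
  .const ⟨0, 390223429632, 0, 0⟩,
  .add 1 0,
  .mul 273 0,
  .scale ⟨30534270976, 0, 0, 0⟩ 321,
  .scale ⟨0, 7142263685120, 0, 0⟩ 324,
  .add 1 0,
  .const ⟨0, 495815032832, 0, 0⟩,
  .add 1 0,
  .add 5 0,
  .mul 280 0,
  .scale ⟨0, 173896564736, 0, 0⟩ 328,
  .scale ⟨2204372631552, 0, 0, 0⟩ 331,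
  .add 1 0,
  .const ⟨1042066898944, 0, 0, 0⟩,
  .add 1 0,
  .add 5 0,
  .mul 287 0,
  .scale ⟨856115970048, 0, 0, 0⟩ 335,
  .scale ⟨239917072384, 0, 0, 0⟩ 335,
  .add 1 0,
  .scale ⟨4238524416000, 0, 0, 0⟩ 340,
  .add 1 0,
  .scale ⟨5433071042560, 0, 0, 0⟩ 337,
  .add 1 0,
  .scale ⟨0, 9348559011840, 0, 0⟩ 337,
  .add 1 0,
  .const ⟨1519343697920, 0, 0, 0⟩,
  .add 1 0,
  .add 11 0,
  .inv 165,
  .mul 0 164,
  .scale ⟨1254686720, 0, 0, 0⟩ 349,
  .scale ⟨6881280, 0, 0, 0⟩ 349,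
  .add 1 0,
  .scale ⟨196608, 0, 0, 0⟩ 350,
  .add 1 0,
  .scale ⟨6798245888, 0, 0, 0⟩ 356,
  .add 1 0,
  .scale ⟨5650382848, 0, 0, 0⟩ 353,
  .add 1 0,
  .const ⟨111469854720, 0, 0, 0⟩,
  .add 1 0,
  .scale ⟨1786706395136, 0, 0, 0⟩ 385,
  .neg 0,
  .exp 0,
  .mul 3 0,
  .scale ⟨2199023255552, 0, 0, 0⟩ 0,
  .mul 0 58,
  .scale ⟨879662989312, 0, 0, 0⟩ 130,
  .add 0 404,
  .inv 0,
  .mul 3 0,
  .const ⟨0, 0, 0, 0⟩,
  .mul 24 57,
  .mul 0 70,
  .mul 0 3,
  .mul 0 25,
  .rball 4 0,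
  .sub 385 29,
  .mul 417 0,
  .sub 387 64,
  .mul 0 30,
  .mul 33 0,
  .add 3 0,
  .add 0 6,
  .lt 0 1099510579200]

set_option maxRecDepth 1000000 in
noncomputable def c_Z_0 {α : Type} (cst : Z → α) (add sub mul : α → α → α) (scale : Z → α → α)
    (neg inv exp log : α → α) (ok : α → Bool) (isPos : Nat → α → Bool) (isLt : α → Nat → Bool)
    (ball : Nat → α → α) (rball : α → α → α) : List α → Bool
  | [x0, x1, x2, x3] =>
  isPos 3 x0 && (
  let v0 := scale ⟨10447239512064, 0, 0, 0⟩ x0; ok v0 && (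
  let v1 := cst ⟨0, 7472169353216, 0, 0⟩; ok v1 && (
  let v2 := add v0 v1; ok v2 && (
  let v3 := mul v2 x0; ok v3 && (
  let v4 := cst ⟨2077207035904, 0, 0, 0⟩; ok v4 && (
  let v5 := add v3 v4; ok v5 && (
  let v6 := mul x1 v5; ok v6 && (
  let v7 := cst ⟨879609511936, 0, 0, 0⟩; ok v7 && (
  let v8 := add v6 v7; ok v8 && (
  let v9 := inv x0; ok v9 && (
  let v10 := mul x0 v8; ok v10 && (
  let v11 := scale ⟨2199023255552, 0, 0, 0⟩ v10; ok v11 && (
  let v12 := exp v10; ok v12 && (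
  let v13 := neg v10; ok v13 && (
  let v14 := exp v13; ok v14 && (
  let v15 := mul v12 v12; ok v15 && (
  let v16 := mul v14 v14; ok v16 && (
  let v17 := mul v16 v16; ok v17 && (
  let v18 := sub v12 v14; ok v18 && (
  let v19 := add v12 v14; ok v19 && (
  let v20 := mul v18 v19; ok v20 && (
  let v21 := scale ⟨549755813888, 0, 0, 0⟩ v20; ok v21 && (
  let v22 := mul v18 v18; ok v22 && (
  let v23 := mul v21 v9; ok v23 && (
  let v24 := scale ⟨2199023255552, 0, 0, 0⟩ v8; ok v24 && (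
  let v25 := neg v24; ok v25 && (
  let v26 := exp v25; ok v26 && (
  let v27 := cst ⟨1099511627776, 0, 0, 0⟩; ok v27 && (
  let v28 := add v26 v27; ok v28 && (
  isPos 3 v28 && (
  let v29 := inv v28; ok v29 && (
  let v30 := mul v26 v29; ok v30 && (
  let v31 := add v15 v16; ok v31 && (
  let v32 := scale ⟨549755813888, 0, 0, 0⟩ v31; ok v32 && (
  let v33 := cst ⟨247497490432, 0, 0, 0⟩; ok v33 && (
  let v34 := sub x0 v33; ok v34 && (
  let v35 := cst ⟨1340029796352, 0, 0, 0⟩; ok v35 && (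
  let v36 := sub v8 v35; ok v36 && (
  let v37 := mul v36 v36; ok v37 && (
  let v38 := mul v37 v36; ok v38 && (
  let v39 := mul v34 v36; ok v39 && (
  let v40 := mul v34 v37; ok v40 && (
  let v41 := mul v34 v34; ok v41 && (
  let v42 := mul v41 v36; ok v42 && (
  let v43 := mul v41 v34; ok v43 && (
  let v44 := scale ⟨3431701504, 0, 0, 0⟩ v36; ok v44 && (
  let v45 := scale ⟨0, 6630662912, 0, 0⟩ v37; ok v45 && (
  let v46 := add v44 v45; ok v46 && (
  let v47 := scale ⟨6288853760, 0, 0, 0⟩ v38; ok v47 && (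
  let v48 := add v46 v47; ok v48 && (
  let v49 := scale ⟨217345086464, 0, 0, 0⟩ v34; ok v49 && (
  let v50 := add v48 v49; ok v50 && (
  let v51 := scale ⟨0, 118364892352, 0, 0⟩ v39; ok v51 && (
  let v52 := add v50 v51; ok v52 && (
  let v53 := scale ⟨58107493376, 0, 0, 0⟩ v40; ok v53 && (
  let v54 := add v52 v53; ok v54 && (
  let v55 := scale ⟨0, 269349337920, 0, 0⟩ v41; ok v55 && (
  let v56 := add v54 v55; ok v56 && (
  let v57 := scale ⟨0, 44194304896, 0, 0⟩ v42; ok v57 && (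
  let v58 := add v56 v57; ok v58 && (
  let v59 := scale ⟨0, 1119282293952, 0, 0⟩ v43; ok v59 && (
  let v60 := add v58 v59; ok v60 && (
  let v61 := cst ⟨636400814912, 0, 0, 0⟩; ok v61 && (
  let v62 := add v60 v61; ok v62 && (
  let v63 := scale ⟨0, 12027544448, 0, 0⟩ v36; ok v63 && (
  let v64 := scale ⟨3385478016, 0, 0, 0⟩ v37; ok v64 && (
  let v65 := add v63 v64; ok v65 && (
  let v66 := scale ⟨0, 62225771520, 0, 0⟩ v34; ok v66 && (
  let v67 := add v65 v66; ok v67 && (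
  let v68 := scale ⟨0, 24990052096, 0, 0⟩ v39; ok v68 && (
  let v69 := add v67 v68; ok v69 && (
  let v70 := scale ⟨0, 94638355776, 0, 0⟩ v41; ok v70 && (
  let v71 := add v69 v70; ok v71 && (
  let v72 := cst ⟨0, 11747053696, 0, 0⟩; ok v72 && (
  let v73 := add v71 v72; ok v73 && (
  let v74 := scale ⟨1587523008, 0, 0, 0⟩ v36; ok v74 && (
  let v75 := scale ⟨0, 7775299072, 0, 0⟩ v34; ok v75 && (
  let v76 := add v74 v75; ok v76 && (
  let v77 := cst ⟨0, 4654083136, 0, 0⟩; ok v77 && (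
  let v78 := add v76 v77; ok v78 && (
  let v79 := scale ⟨0, 0, 1099511627776, 0⟩ x2; ok v79 && (
  let v80 := scale ⟨549755813888, 0, 0, 0⟩ v79; ok v80 && (
  let v81 := add v80 v27; ok v81 && (
  let v82 := inv v81; ok v82 && (
  let v83 := mul v79 v82; ok v83 && (
  let v84 := scale ⟨0, 267736289728, 0, 0⟩ v83; ok v84 && (
  let v85 := cst ⟨2200552290176, 0, 0, 0⟩; ok v85 && (
  let v86 := add v84 v85; ok v86 && (
  let v87 := mul v83 v86; ok v87 && (
  let v88 := cst ⟨0, 2969431306176, 0, 0⟩; ok v88 && (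
  let v89 := add v87 v88; ok v89 && (
  let v90 := mul v83 v89; ok v90 && (
  let v91 := cst ⟨4144742949184, 0, 0, 0⟩; ok v91 && (
  let v92 := add v90 v91; ok v92 && (
  let v93 := mul v83 v92; ok v93 && (
  let v94 := scale ⟨0, 1781266989312, 0, 0⟩ v36; ok v94 && (
  let v95 := scale ⟨0, 27084827172736, 0, 0⟩ v34; ok v95 && (
  let v96 := add v94 v95; ok v96 && (
  let v97 := cst ⟨0, 2633070007104, 0, 0⟩; ok v97 && (
  let v98 := add v96 v97; ok v98 && (
  let v99 := add v93 v98; ok v99 && (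
  let v100 := mul v83 v99; ok v100 && (
  let v101 := scale ⟨1526902875584, 0, 0, 0⟩ v36; ok v101 && (
  let v102 := scale ⟨19124167201408, 0, 0, 0⟩ v34; ok v102 && (
  let v103 := add v101 v102; ok v103 && (
  let v104 := cst ⟨1786534437376, 0, 0, 0⟩; ok v104 && (
  let v105 := add v103 v104; ok v105 && (
  let v106 := add v100 v105; ok v106 && (
  let v107 := mul v83 v106; ok v107 && (
  let v108 := scale ⟨0, 2044617846336, 0, 0⟩ v36; ok v108 && (
  let v109 := scale ⟨0, 34695143397888, 0, 0⟩ v34; ok v109 && (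
  let v110 := add v108 v109; ok v110 && (
  let v111 := cst ⟨0, 470602375808, 0, 0⟩; ok v111 && (
  let v112 := add v110 v111; ok v112 && (
  let v113 := add v107 v112; ok v113 && (
  let v114 := mul v83 v113; ok v114 && (
  let v115 := scale ⟨0, 245665460544, 0, 0⟩ v36; ok v115 && (
  let v116 := scale ⟨15426309922880, 0, 0, 0⟩ v34; ok v116 && (
  let v117 := add v115 v116; ok v117 && (
  let v118 := cst ⟨868581163968, 0, 0, 0⟩; ok v118 && (
  let v119 := add v117 v118; ok v119 && (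
  let v120 := add v114 v119; ok v120 && (
  let v121 := mul v83 v120; ok v121 && (
  let v122 := scale ⟨1066349951872, 0, 0, 0⟩ v36; ok v122 && (
  let v123 := scale ⟨396109696256, 0, 0, 0⟩ v37; ok v123 && (
  let v124 := add v122 v123; ok v124 && (
  let v125 := scale ⟨0, 236526323136, 0, 0⟩ v34; ok v125 && (
  let v126 := add v124 v125; ok v126 && (
  let v127 := scale ⟨26186117816256, 0, 0, 0⟩ v39; ok v127 && (
  let v128 := add v126 v127; ok v128 && (
  let v129 := scale ⟨569802385099648, 0, 0, 0⟩ v41; ok v129 && (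
  let v130 := add v128 v129; ok v130 && (
  let v131 := cst ⟨0, 759536097536, 0, 0⟩; ok v131 && (
  let v132 := add v130 v131; ok v132 && (
  let v133 := add v121 v132; ok v133 && (
  let v134 := mul v83 v133; ok v134 && (
  let v135 := scale ⟨0, 1485047699072, 0, 0⟩ v36; ok v135 && (
  let v136 := scale ⟨0, 223226032128, 0, 0⟩ v37; ok v136 && (
  let v137 := add v135 v136; ok v137 && (
  let v138 := scale ⟨0, 314042463360, 0, 0⟩ v34; ok v138 && (
  let v139 := add v137 v138; ok v139 && (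
  let v140 := scale ⟨0, 15865989985920, 0, 0⟩ v39; ok v140 && (
  let v141 := add v139 v140; ok v141 && (
  let v142 := scale ⟨0, 327154934930048, 0, 0⟩ v41; ok v142 && (
  let v143 := add v141 v142; ok v143 && (
  let v144 := cst ⟨401110233920, 0, 0, 0⟩; ok v144 && (
  let v145 := add v143 v144; ok v145 && (
  let v146 := add v134 v145; ok v146 && (
  let v147 := mul v83 v146; ok v147 && (
  let v148 := scale ⟨742948840960, 0, 0, 0⟩ v36; ok v148 && (
  let v149 := scale ⟨81011339520, 0, 0, 0⟩ v37; ok v149 && (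
  let v150 := add v148 v149; ok v150 && (
  let v151 := scale ⟨0, 18793233745856, 0, 0⟩ v34; ok v151 && (
  let v152 := add v150 v151; ok v152 && (
  let v153 := scale ⟨14522583453056, 0, 0, 0⟩ v39; ok v153 && (
  let v154 := add v152 v153; ok v154 && (
  let v155 := scale ⟨315901754843840, 0, 0, 0⟩ v41; ok v155 && (
  let v156 := add v154 v155; ok v156 && (
  let v157 := cst ⟨0, 2037591658240, 0, 0⟩; ok v157 && (
  let v158 := add v156 v157; ok v158 && (
  let v159 := add v147 v158; ok v159 && (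
  let v160 := mul v83 v159; ok v160 && (
  let v161 := scale ⟨0, 876648608768, 0, 0⟩ v36; ok v161 && (
  let v162 := scale ⟨0, 69339403648, 0, 0⟩ v37; ok v162 && (
  let v163 := add v161 v162; ok v163 && (
  let v164 := scale ⟨491548655168, 0, 0, 0⟩ v34; ok v164 && (
  let v165 := add v163 v164; ok v165 && (
  let v166 := scale ⟨0, 6708523074624, 0, 0⟩ v39; ok v166 && (
  let v167 := add v165 v166; ok v167 && (
  let v168 := scale ⟨0, 63822908104128, 0, 0⟩ v41; ok v168 && (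
  let v169 := add v167 v168; ok v169 && (
  let v170 := cst ⟨3731207086976, 0, 0, 0⟩; ok v170 && (
  let v171 := add v169 v170; ok v171 && (
  let v172 := add v160 v171; ok v172 && (
  let v173 := mul v83 v172; ok v173 && (
  let v174 := scale ⟨750203826048, 0, 0, 0⟩ v36; ok v174 && (
  let v175 := scale ⟨0, 215643454272, 0, 0⟩ v37; ok v175 && (
  let v176 := add v174 v175; ok v176 && (
  let v177 := scale ⟨25686854400, 0, 0, 0⟩ v38; ok v177 && (
  let v178 := add v176 v177; ok v178 && (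
  let v179 := scale ⟨3471409305088, 0, 0, 0⟩ v34; ok v179 && (
  let v180 := add v178 v179; ok v180 && (
  let v181 := scale ⟨2137271078144, 0, 0, 0⟩ v39; ok v181 && (
  let v182 := add v180 v181; ok v182 && (
  let v183 := scale ⟨0, 924911048704, 0, 0⟩ v40; ok v183 && (
  let v184 := add v182 v183; ok v184 && (
  let v185 := scale ⟨7819966989376, 0, 0, 0⟩ v41; ok v185 && (
  let v186 := add v184 v185; ok v186 && (
  let v187 := scale ⟨0, 20852716380608, 0, 0⟩ v42; ok v187 && (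
  let v188 := add v186 v187; ok v188 && (
  let v189 := scale ⟨70376553176640, 0, 0, 0⟩ v43; ok v189 && (
  let v190 := add v188 v189; ok v190 && (
  let v191 := cst ⟨1108141199808, 0, 0, 0⟩; ok v191 && (
  let v192 := add v190 v191; ok v192 && (
  let v193 := mul v192 v8; ok v193 && (
  let v194 := add v173 v193; ok v194 && (
  let v195 := mul x0 x0; ok v195 && (
  let v196 := scale ⟨5703716569088, 0, 0, 0⟩ v195; ok v196 && (
  let v197 := cst ⟨1726576852992, 0, 0, 0⟩; ok v197 && (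
  let v198 := add v196 v197; ok v198 && (
  let v199 := scale ⟨4398046511104, 0, 0, 0⟩ v8; ok v199 && (
  let v200 := mul v83 v198; ok v200 && (
  let v201 := scale ⟨4398046511104, 0, 0, 0⟩ v200; ok v201 && (
  let v202 := add v199 v201; ok v202 && (
  let v203 := scale ⟨0, 165872271360, 0, 0⟩ v36; ok v203 && (
  let v204 := scale ⟨0, 13061062656, 0, 0⟩ v37; ok v204 && (
  let v205 := add v203 v204; ok v205 && (
  let v206 := scale ⟨1030873022464, 0, 0, 0⟩ v38; ok v206 && (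
  let v207 := add v205 v206; ok v207 && (
  let v208 := scale ⟨54939615232, 0, 0, 0⟩ v34; ok v208 && (
  let v209 := add v207 v208; ok v209 && (
  let v210 := scale ⟨1456536289280, 0, 0, 0⟩ v39; ok v210 && (
  let v211 := add v209 v210; ok v211 && (
  let v212 := cst ⟨185628819456, 0, 0, 0⟩; ok v212 && (
  let v213 := add v211 v212; ok v213 && (
  let v214 := scale ⟨824633720832, 0, 0, 0⟩ v11; ok v214 && (
  let v215 := neg v214; ok v215 && (
  let v216 := exp v215; ok v216 && (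
  let v217 := mul v213 v216; ok v217 && (
  let v218 := mul v217 v202; ok v218 && (
  let v219 := scale ⟨879662989312, 0, 0, 0⟩ v202; ok v219 && (
  let v220 := add v219 v27; ok v220 && (
  isPos 3 v220 && (
  let v221 := inv v220; ok v221 && (
  let v222 := mul v218 v221; ok v222 && (
  let v223 := neg v194; ok v223 && (
  let v224 := exp v223; ok v224 && (
  let v225 := add v224 v27; ok v225 && (
  isPos 3 v225 && (
  let v226 := log v225; ok v226 && (
  let v227 := mul v222 x3; ok v227 && (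
  let v228 := sub v27 v227; ok v228 && (
  let v229 := log v228; ok v229 && (
  let v230 := mul v224 v227; ok v230 && (
  let v231 := add v230 v27; ok v231 && (
  isPos 3 v231 && (
  let v232 := log v231; ok v232 && (
  let v233 := scale ⟨274877906944, 0, 0, 0⟩ v22; ok v233 && (
  let v234 := log v28; ok v234 && (
  let v235 := add v8 v234; ok v235 && (
  let v236 := sub v226 v232; ok v236 && (
  let v237 := sub v236 v235; ok v237 && (
  let v238 := mul v237 x0; ok v238 && (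
  let v239 := exp v238; ok v239 && (
  let v240 := sub v232 v229; ok v240 && (
  let v241 := add v240 v194; ok v241 && (
  let v242 := mul v241 x0; ok v242 && (
  let v243 := exp v242; ok v243 && (
  let v244 := mul x0 v198; ok v244 && (
  let v245 := scale ⟨1649267441664, 0, 0, 0⟩ v233; ok v245 && (
  let v246 := add v245 v27; ok v246 && (
  let v247 := mul v244 v246; ok v247 && (
  let v248 := mul x2 v247; ok v248 && (
  let v249 := scale ⟨0, 0, 1099511627776, 0⟩ v248; ok v249 && (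
  let v250 := mul v249 v249; ok v250 && (
  let v251 := sub v233 v250; ok v251 && (
  let v252 := mul v239 v239; ok v252 && (
  let v253 := mul v252 v251; ok v253 && (
  let v254 := scale ⟨4398046511104, 0, 0, 0⟩ v253; ok v254 && (
  let v255 := sub v27 v254; ok v255 && (
  let v256 := log v255; ok v256 && (
  let v257 := scale ⟨549755813888, 0, 0, 0⟩ v256; ok v257 && (
  let v258 := exp v257; ok v258 && (
  let v259 := mul v239 v249; ok v259 && (
  let v260 := mul v259 v258; ok v260 && (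
  let v261 := mul v233 v243; ok v261 && (
  let v262 := scale ⟨2199023255552, 0, 0, 0⟩ v251; ok v262 && (
  let v263 := add v261 v262; ok v263 && (
  let v264 := mul v252 v263; ok v264 && (
  let v265 := add v264 v260; ok v265 && (
  let v266 := mul v243 v265; ok v266 && (
  let v267 := scale ⟨4398046511104, 0, 0, 0⟩ v266; ok v267 && (
  let v268 := add v267 v27; ok v268 && (
  let v269 := log v268; ok v269 && (
  let v270 := scale ⟨549755813888, 0, 0, 0⟩ v269; ok v270 && (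
  let v271 := exp v270; ok v271 && (
  let v272 := sub v271 v32; ok v272 && (
  let v273 := mul v23 v23; ok v273 && (
  let v274 := cst ⟨51435454595072, 0, 0, 0⟩; ok v274 && (
  let v275 := add v273 v274; ok v275 && (
  isPos 3 v275 && (
  let v276 := inv v275; ok v276 && (
  let v277 := mul v272 v9; ok v277 && (
  let v278 := mul v277 v277; ok v278 && (
  let v279 := sub v278 v273; ok v279 && (
  let v280 := mul v279 v276; ok v280 && (
  isLt v280 1099510579200 && (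
  let v281 := mul v239 v249; ok v281 && (
  let v282 := scale ⟨2199023255552, 0, 0, 0⟩ v281; ok v282 && (
  let v283 := sub v258 v282; ok v283 && (
  isPos 3 v283 && (
  let v284 := mul v249 v19; ok v284 && (
  let v285 := add v32 v284; ok v285 && (
  let v286 := inv v285; ok v286 && (
  let v287 := sub v32 v286; ok v287 && (
  let v288 := sub v272 v287; ok v288 && (
  let v289 := scale ⟨1453440565248, 0, 0, 0⟩ v36; ok v289 && (
  let v290 := scale ⟨0, 551785005056, 0, 0⟩ v37; ok v290 && (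
  let v291 := add v289 v290; ok v291 && (
  let v292 := scale ⟨633919307776, 0, 0, 0⟩ v38; ok v292 && (
  let v293 := add v291 v292; ok v293 && (
  let v294 := scale ⟨13002722377728, 0, 0, 0⟩ v34; ok v294 && (
  let v295 := add v293 v294; ok v295 && (
  let v296 := scale ⟨13724055633920, 0, 0, 0⟩ v39; ok v296 && (
  let v297 := add v295 v296; ok v297 && (
  let v298 := cst ⟨2951814709248, 0, 0, 0⟩; ok v298 && (
  let v299 := add v297 v298; ok v299 && (
  let v300 := add v284 v21; ok v300 && (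
  let v301 := inv v300; ok v301 && (
  let v302 := mul v16 v285; ok v302 && (
  let v303 := mul v301 v302; ok v303 && (
  let v304 := mul v303 v288; ok v304 && (
  let v305 := inv v11; ok v305 && (
  let v306 := mul v21 v305; ok v306 && (
  let v307 := scale ⟨2199023255552, 0, 0, 0⟩ v306; ok v307 && (
  let v308 := mul v307 v304; ok v308 && (
  let v309 := add v304 v27; ok v309 && (
  let v310 := inv v309; ok v310 && (
  let v311 := mul v303 v310; ok v311 && (
  let v312 := mul v311 v15; ok v312 && (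
  let v313 := mul v312 v15; ok v313 && (
  let v314 := inv v299; ok v314 && (
  let v315 := mul v313 v314; ok v315 && (
  let v316 := mul v308 v315; ok v316 && (
  isLt v316 1099510579200 && (
  let v317 := add v32 v272; ok v317 && (
  isPos 3 v317 && (
  let v318 := inv v317; ok v318 && (
  let v319 := mul v318 v318; ok v319 && (
  let v320 := sub v27 v319; ok v320 && (
  let v321 := mul v320 v9; ok v321 && (
  let v322 := sub v17 v319; ok v322 && (
  let v323 := mul v322 v9; ok v323 && (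
  let v324 := scale ⟨0, 74564224, 0, 0⟩ v321; ok v324 && (
  let v325 := cst ⟨1002610816, 0, 0, 0⟩; ok v325 && (
  let v326 := add v324 v325; ok v326 && (
  let v327 := mul v321 v326; ok v327 && (
  let v328 := add v327 v78; ok v328 && (
  let v329 := mul v321 v328; ok v329 && (
  let v330 := add v329 v73; ok v330 && (
  let v331 := mul v321 v330; ok v331 && (
  let v332 := add v331 v62; ok v332 && (
  let v333 := mul v323 v332; ok v333 && (
  let v334 := neg v333; ok v334 && (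
  let v335 := exp v334; ok v335 && (
  let v336 := sub v335 v27; ok v336 && (
  let v337 := add v336 v27; ok v337 && (
  let v338 := mul v26 v337; ok v338 && (
  let v339 := add v338 v27; ok v339 && (
  isPos 3 v339 && (
  let v340 := mul v30 v336; ok v340 && (
  let v341 := add v340 v27; ok v341 && (
  isPos 3 v341 && (
  let v342 := log v341; ok v342 && (
  let v343 := add v272 v21; ok v343 && (
  let v344 := add v194 v226; ok v344 && (
  let v345 := sub v344 v234; ok v345 && (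
  let v346 := sub v345 v342; ok v346 && (
  let v347 := scale ⟨549755813888, 0, 0, 0⟩ v9; ok v347 && (
  let v348 := mul v269 v347; ok v348 && (
  let v349 := sub v346 v348; ok v349 && (
  let v350 := exp v349; ok v350 && (
  let v351 := scale ⟨0, 263874019328, 0, 0⟩ v83; ok v351 && (
  let v352 := cst ⟨559064023040, 0, 0, 0⟩; ok v352 && (
  let v353 := add v351 v352; ok v353 && (
  let v354 := mul v83 v353; ok v354 && (
  let v355 := cst ⟨0, 390223429632, 0, 0⟩; ok v355 && (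
  let v356 := add v354 v355; ok v356 && (
  let v357 := mul v83 v356; ok v357 && (
  let v358 := scale ⟨30534270976, 0, 0, 0⟩ v36; ok v358 && (
  let v359 := scale ⟨0, 7142263685120, 0, 0⟩ v34; ok v359 && (
  let v360 := add v358 v359; ok v360 && (
  let v361 := cst ⟨0, 495815032832, 0, 0⟩; ok v361 && (
  let v362 := add v360 v361; ok v362 && (
  let v363 := add v357 v362; ok v363 && (
  let v364 := mul v83 v363; ok v364 && (
  let v365 := scale ⟨0, 173896564736, 0, 0⟩ v36; ok v365 && (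
  let v366 := scale ⟨2204372631552, 0, 0, 0⟩ v34; ok v366 && (
  let v367 := add v365 v366; ok v367 && (
  let v368 := cst ⟨1042066898944, 0, 0, 0⟩; ok v368 && (
  let v369 := add v367 v368; ok v369 && (
  let v370 := add v364 v369; ok v370 && (
  let v371 := mul v83 v370; ok v371 && (
  let v372 := scale ⟨856115970048, 0, 0, 0⟩ v36; ok v372 && (
  let v373 := scale ⟨239917072384, 0, 0, 0⟩ v37; ok v373 && (
  let v374 := add v372 v373; ok v374 && (
  let v375 := scale ⟨4238524416000, 0, 0, 0⟩ v34; ok v375 && (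
  let v376 := add v374 v375; ok v376 && (
  let v377 := scale ⟨5433071042560, 0, 0, 0⟩ v39; ok v377 && (
  let v378 := add v376 v377; ok v378 && (
  let v379 := scale ⟨0, 9348559011840, 0, 0⟩ v41; ok v379 && (
  let v380 := add v378 v379; ok v380 && (
  let v381 := cst ⟨1519343697920, 0, 0, 0⟩; ok v381 && (
  let v382 := add v380 v381; ok v382 && (
  let v383 := add v371 v382; ok v383 && (
  let v384 := inv v218; ok v384 && (
  let v385 := mul v384 v220; ok v385 && (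
  let v386 := scale ⟨1254686720, 0, 0, 0⟩ v36; ok v386 && (
  let v387 := scale ⟨6881280, 0, 0, 0⟩ v37; ok v387 && (
  let v388 := add v386 v387; ok v388 && (
  let v389 := scale ⟨196608, 0, 0, 0⟩ v38; ok v389 && (
  let v390 := add v388 v389; ok v390 && (
  let v391 := scale ⟨6798245888, 0, 0, 0⟩ v34; ok v391 && (
  let v392 := add v390 v391; ok v392 && (
  let v393 := scale ⟨5650382848, 0, 0, 0⟩ v39; ok v393 && (
  let v394 := add v392 v393; ok v394 && (
  let v395 := cst ⟨111469854720, 0, 0, 0⟩; ok v395 && (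
  let v396 := add v394 v395; ok v396 && (
  let v397 := scale ⟨1786706395136, 0, 0, 0⟩ v11; ok v397 && (
  let v398 := neg v397; ok v398 && (
  let v399 := exp v398; ok v399 && (
  let v400 := mul v396 v399; ok v400 && (
  let v401 := scale ⟨2199023255552, 0, 0, 0⟩ v400; ok v401 && (
  let v402 := mul v401 v343; ok v402 && (
  let v403 := scale ⟨879662989312, 0, 0, 0⟩ v272; ok v403 && (
  let v404 := add v403 x0; ok v404 && (
  let v405 := inv v404; ok v405 && (
  let v406 := mul v402 v405; ok v406 && (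
  let v407 := cst ⟨0, 0, 0, 0⟩; ok v407 && (
  let v408 := mul v383 v350; ok v408 && (
  let v409 := mul v408 v338; ok v409 && (
  let v410 := mul v409 v406; ok v410 && (
  let v411 := mul v410 v385; ok v411 && (
  let v412 := rball v407 v411; ok v412 && (
  let v413 := sub v27 v383; ok v413 && (
  let v414 := mul x3 v413; ok v414 && (
  let v415 := sub v27 v350; ok v415 && (
  let v416 := mul v415 v385; ok v416 && (
  let v417 := mul v383 v416; ok v417 && (
  let v418 := add v414 v417; ok v418 && (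
  let v419 := add v418 v412; ok v419 && (
  isLt v419 1099510579200 && (
  true)))))))))))))))))))))))))))))))))))))))))))))))))))))))))))))))))))))))))))))))))))))))))))))))))))))))))))))))))))))))))))))))))))))))))))))))))))))))))))))))))))))))))))))))))))))))))))))))))))))))))))))))))))))))))))))))))))))))))))))))))))))))))))))))))))))))))))))))))))))))))))))))))))))))))))))))))))))))))))))))))))))))))))))))))))))))))))))))))))))))))))))))))))))))))))))))))))))))))))))))))))))))))))))))))))))))))))))))))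
  | _ => false

set_option maxRecDepth 1000000 in
theorem c_Z_0_eq (X : XOps) (m : List X.O.α)
    (h : c_Z_0 X.O.cst X.O.add X.O.sub X.O.mul X.O.scale X.O.neg X.O.inv X.O.exp X.O.log X.O.ok
      X.O.isPos X.O.isLt X.ball X.rball m = true) :
    runX X 3 p_Z_0 m = true := by
  match m, h with
  | [x0, x1, x2, x3], h => exact h

abbrev gZ : List (List Op) := [p_Z_0]

noncomputable abbrev kZ : List (List xE.O.α → Bool) := [c_Z_0 xE.O.cst xE.O.add xE.O.sub xE.O.mul xE.O.scale xE.O.neg xE.O.inv xE.O.exp xE.O.log xE.O.ok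
      xE.O.isPos xE.O.isLt xE.ball xE.rball]

theorem kZ_eq : List.Forall₂ (fun (ops : List Op) (chk : List xE.O.α → Bool) =>
    ∀ m, chk m = true → runX xE 3 ops m = true) gZ kZ :=
  List.Forall₂.cons (c_Z_0_eq xE) List.Forall₂.nil

theorem gZ_eq : gZ = [comp (P0 tab) ρ4 4] := by decide +kernel

def p_T_0 : List Op := [
  .pos 0,
  .scale ⟨10447239512064, 0, 0, 0⟩ 0,
  .const ⟨0, 7472169353216, 0, 0⟩,
  .add 1 0,
  .mul 0 3,
  .const ⟨2077207035904, 0, 0, 0⟩,
  .add 1 0,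
  .mul 7 0,
  .const ⟨879609511936, 0, 0, 0⟩,
  .add 1 0,
  .inv 9,
  .mul 10 1,
  .scale ⟨2199023255552, 0, 0, 0⟩ 0,
  .exp 1,
  .neg 2,
  .exp 0,
  .mul 2 2,
  .mul 1 1,
  .mul 0 0,
  .sub 5 3,
  .add 6 4,
  .mul 1 0,
  .scale ⟨549755813888, 0, 0, 0⟩ 0,
  .mul 3 3,
  .mul 1 13,
  .scale ⟨2199023255552, 0, 0, 0⟩ 15,
  .neg 0,
  .exp 0,
  .const ⟨1099511627776, 0, 0, 0⟩,
  .add 1 0,
  .pos 0,
  .inv 0,
  .mul 3 0,
  .add 15 14,
  .scale ⟨549755813888, 0, 0, 0⟩ 0,
  .const ⟨247497490432, 0, 0, 0⟩,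
  .sub 34 0,
  .const ⟨1340029796352, 0, 0, 0⟩,
  .sub 27 0,
  .mul 0 0,
  .mul 0 1,
  .mul 4 2,
  .mul 5 2,
  .mul 6 6,
  .mul 0 5,
  .mul 1 8,
  .scale ⟨0, 0, 1099511627776, 0⟩ 16,
  .scale ⟨549755813888, 0, 0, 0⟩ 0,
  .add 0 18,
  .inv 0,
  .mul 3 0,
  .scale ⟨0, 267736289728, 0, 0⟩ 0,
  .const ⟨2200552290176, 0, 0, 0⟩,
  .add 1 0,
  .mul 3 0,
  .const ⟨0, 2969431306176, 0, 0⟩,
  .add 1 0,
  .mul 6 0,
  .const ⟨4144742949184, 0, 0, 0⟩,
  .add 1 0,
  .mul 9 0,
  .scale ⟨0, 1781266989312, 0, 0⟩ 22,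
  .scale ⟨0, 27084827172736, 0, 0⟩ 25,
  .add 1 0,
  .const ⟨0, 2633070007104, 0, 0⟩,
  .add 1 0,
  .add 5 0,
  .mul 16 0,
  .scale ⟨1526902875584, 0, 0, 0⟩ 29,
  .scale ⟨19124167201408, 0, 0, 0⟩ 32,
  .add 1 0,
  .const ⟨1786534437376, 0, 0, 0⟩,
  .add 1 0,
  .add 5 0,
  .mul 23 0,
  .scale ⟨0, 2044617846336, 0, 0⟩ 36,
  .scale ⟨0, 34695143397888, 0, 0⟩ 39,
  .add 1 0,
  .const ⟨0, 470602375808, 0, 0⟩,
  .add 1 0,
  .add 5 0,
  .mul 30 0,
  .scale ⟨0, 245665460544, 0, 0⟩ 43,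
  .scale ⟨15426309922880, 0, 0, 0⟩ 46,
  .add 1 0,
  .const ⟨868581163968, 0, 0, 0⟩,
  .add 1 0,
  .add 5 0,
  .mul 37 0,
  .scale ⟨1066349951872, 0, 0, 0⟩ 50,
  .scale ⟨396109696256, 0, 0, 0⟩ 50,
  .add 1 0,
  .scale ⟨0, 236526323136, 0, 0⟩ 55,
  .add 1 0,
  .scale ⟨26186117816256, 0, 0, 0⟩ 52,
  .add 1 0,
  .scale ⟨569802385099648, 0, 0, 0⟩ 52,
  .add 1 0,
  .const ⟨0, 759536097536, 0, 0⟩,
  .add 1 0,
  .add 11 0,
  .mul 50 0,
  .scale ⟨0, 1485047699072, 0, 0⟩ 63,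
  .scale ⟨0, 223226032128, 0, 0⟩ 63,
  .add 1 0,
  .scale ⟨0, 314042463360, 0, 0⟩ 68,
  .add 1 0,
  .scale ⟨0, 15865989985920, 0, 0⟩ 65,
  .add 1 0,
  .scale ⟨0, 327154934930048, 0, 0⟩ 65,
  .add 1 0,
  .const ⟨401110233920, 0, 0, 0⟩,
  .add 1 0,
  .add 11 0,
  .mul 63 0,
  .scale ⟨742948840960, 0, 0, 0⟩ 76,
  .scale ⟨81011339520, 0, 0, 0⟩ 76,
  .add 1 0,
  .scale ⟨0, 18793233745856, 0, 0⟩ 81,
  .add 1 0,
  .scale ⟨14522583453056, 0, 0, 0⟩ 78,
  .add 1 0,
  .scale ⟨315901754843840, 0, 0, 0⟩ 78,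
  .add 1 0,
  .const ⟨0, 2037591658240, 0, 0⟩,
  .add 1 0,
  .add 11 0,
  .mul 76 0,
  .scale ⟨0, 876648608768, 0, 0⟩ 89,
  .scale ⟨0, 69339403648, 0, 0⟩ 89,
  .add 1 0,
  .scale ⟨491548655168, 0, 0, 0⟩ 94,
  .add 1 0,
  .scale ⟨0, 6708523074624, 0, 0⟩ 91,
  .add 1 0,
  .scale ⟨0, 63822908104128, 0, 0⟩ 91,
  .add 1 0,
  .const ⟨3731207086976, 0, 0, 0⟩,
  .add 1 0,
  .add 11 0,
  .mul 89 0,
  .scale ⟨750203826048, 0, 0, 0⟩ 102,
  .scale ⟨0, 215643454272, 0, 0⟩ 102,
  .add 1 0,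
  .scale ⟨25686854400, 0, 0, 0⟩ 103,
  .add 1 0,
  .scale ⟨3471409305088, 0, 0, 0⟩ 109,
  .add 1 0,
  .scale ⟨2137271078144, 0, 0, 0⟩ 106,
  .add 1 0,
  .scale ⟨0, 924911048704, 0, 0⟩ 107,
  .add 1 0,
  .scale ⟨7819966989376, 0, 0, 0⟩ 108,
  .add 1 0,
  .scale ⟨0, 20852716380608, 0, 0⟩ 109,
  .add 1 0,
  .scale ⟨70376553176640, 0, 0, 0⟩ 110,
  .add 1 0,
  .const ⟨1108141199808, 0, 0, 0⟩,
  .add 1 0,
  .mul 0 149,
  .add 20 0,
  .mul 160 160,
  .scale ⟨5703716569088, 0, 0, 0⟩ 0,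
  .const ⟨1726576852992, 0, 0, 0⟩,
  .add 1 0,
  .scale ⟨4398046511104, 0, 0, 0⟩ 155,
  .mul 116 1,
  .scale ⟨4398046511104, 0, 0, 0⟩ 0,
  .add 2 0,
  .scale ⟨0, 165872271360, 0, 0⟩ 131,
  .scale ⟨0, 13061062656, 0, 0⟩ 131,
  .add 1 0,
  .scale ⟨1030873022464, 0, 0, 0⟩ 132,
  .add 1 0,
  .scale ⟨54939615232, 0, 0, 0⟩ 138,
  .add 1 0,
  .scale ⟨1456536289280, 0, 0, 0⟩ 135,
  .add 1 0,
  .const ⟨185628819456, 0, 0, 0⟩,
  .add 1 0,
  .scale ⟨824633720832, 0, 0, 0⟩ 167,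
  .neg 0,
  .exp 0,
  .mul 3 0,
  .mul 0 15,
  .scale ⟨879662989312, 0, 0, 0⟩ 16,
  .add 0 157,
  .pos 0,
  .inv 0,
  .mul 3 0,
  .neg 28,
  .exp 0,
  .add 0 162,
  .pos 0,
  .log 0,
  .mul 4 194,
  .sub 165 0,
  .log 0,
  .mul 5 2,
  .add 0 168,
  .pos 0,
  .log 0,
  .scale ⟨274877906944, 0, 0, 0⟩ 175,
  .log 170,
  .add 191 0,
  .sub 9 3,
  .sub 0 1,
  .mul 0 203,
  .exp 0,
  .sub 7 10,
  .add 0 46,
  .mul 0 207,
  .exp 0,
  .mul 209 45,
  .scale ⟨1649267441664, 0, 0, 0⟩ 11,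
  .add 0 183,
  .mul 2 0,
  .mul 185 0,
  .scale ⟨0, 0, 1099511627776, 0⟩ 0,
  .mul 0 0,
  .sub 17 0,
  .mul 12 12,
  .mul 0 1,
  .scale ⟨4398046511104, 0, 0, 0⟩ 0,
  .sub 192 0,
  .log 0,
  .scale ⟨549755813888, 0, 0, 0⟩ 0,
  .exp 0,
  .mul 19 9,
  .mul 0 1,
  .scale ⟨4398046511104, 0, 0, 0⟩ 8,
  .scale ⟨2199023255552, 0, 0, 0⟩ 11,
  .sub 0 29,
  .mul 2 0,
  .add 0 202,
  .scale ⟨4398046511104, 0, 0, 0⟩ 5,
  .sub 1 0,
  .log 0,
  .const ⟨549755813888, 0, 0, 0⟩,
  .sub 37 43,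
  .scale ⟨549755813888, 0, 0, 0⟩ 226,
  .mul 3 0,
  .add 2 0,
  .exp 0,
  .sub 5 0,
  .pos 0]

set_option maxRecDepth 1000000 in
noncomputable def c_T_0 {α : Type} (cst : Z → α) (add sub mul : α → α → α) (scale : Z → α → α)
    (neg inv exp log : α → α) (ok : α → Bool) (isPos : Nat → α → Bool) (isLt : α → Nat → Bool)
    (ball : Nat → α → α) (rball : α → α → α) : List α → Bool
  | [x0, x1, x2] =>
  isPos 2 x0 && (
  let v0 := scale ⟨10447239512064, 0, 0, 0⟩ x0; ok v0 && (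
  let v1 := cst ⟨0, 7472169353216, 0, 0⟩; ok v1 && (
  let v2 := add v0 v1; ok v2 && (
  let v3 := mul v2 x0; ok v3 && (
  let v4 := cst ⟨2077207035904, 0, 0, 0⟩; ok v4 && (
  let v5 := add v3 v4; ok v5 && (
  let v6 := mul x1 v5; ok v6 && (
  let v7 := cst ⟨879609511936, 0, 0, 0⟩; ok v7 && (
  let v8 := add v6 v7; ok v8 && (
  let v9 := inv x0; ok v9 && (
  let v10 := mul x0 v8; ok v10 && (
  let v11 := scale ⟨2199023255552, 0, 0, 0⟩ v10; ok v11 && (
  let v12 := exp v10; ok v12 && (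
  let v13 := neg v10; ok v13 && (
  let v14 := exp v13; ok v14 && (
  let v15 := mul v12 v12; ok v15 && (
  let v16 := mul v14 v14; ok v16 && (
  let v17 := mul v16 v16; ok v17 && (
  let v18 := sub v12 v14; ok v18 && (
  let v19 := add v12 v14; ok v19 && (
  let v20 := mul v18 v19; ok v20 && (
  let v21 := scale ⟨549755813888, 0, 0, 0⟩ v20; ok v21 && (
  let v22 := mul v18 v18; ok v22 && (
  let v23 := mul v21 v9; ok v23 && (
  let v24 := scale ⟨2199023255552, 0, 0, 0⟩ v8; ok v24 && (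
  let v25 := neg v24; ok v25 && (
  let v26 := exp v25; ok v26 && (
  let v27 := cst ⟨1099511627776, 0, 0, 0⟩; ok v27 && (
  let v28 := add v26 v27; ok v28 && (
  isPos 2 v28 && (
  let v29 := inv v28; ok v29 && (
  let v30 := mul v26 v29; ok v30 && (
  let v31 := add v15 v16; ok v31 && (
  let v32 := scale ⟨549755813888, 0, 0, 0⟩ v31; ok v32 && (
  let v33 := cst ⟨247497490432, 0, 0, 0⟩; ok v33 && (
  let v34 := sub x0 v33; ok v34 && (
  let v35 := cst ⟨1340029796352, 0, 0, 0⟩; ok v35 && (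
  let v36 := sub v8 v35; ok v36 && (
  let v37 := mul v36 v36; ok v37 && (
  let v38 := mul v37 v36; ok v38 && (
  let v39 := mul v34 v36; ok v39 && (
  let v40 := mul v34 v37; ok v40 && (
  let v41 := mul v34 v34; ok v41 && (
  let v42 := mul v41 v36; ok v42 && (
  let v43 := mul v41 v34; ok v43 && (
  let v44 := scale ⟨0, 0, 1099511627776, 0⟩ v27; ok v44 && (
  let v45 := scale ⟨549755813888, 0, 0, 0⟩ v44; ok v45 && (
  let v46 := add v45 v27; ok v46 && (
  let v47 := inv v46; ok v47 && (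
  let v48 := mul v44 v47; ok v48 && (
  let v49 := scale ⟨0, 267736289728, 0, 0⟩ v48; ok v49 && (
  let v50 := cst ⟨2200552290176, 0, 0, 0⟩; ok v50 && (
  let v51 := add v49 v50; ok v51 && (
  let v52 := mul v48 v51; ok v52 && (
  let v53 := cst ⟨0, 2969431306176, 0, 0⟩; ok v53 && (
  let v54 := add v52 v53; ok v54 && (
  let v55 := mul v48 v54; ok v55 && (
  let v56 := cst ⟨4144742949184, 0, 0, 0⟩; ok v56 && (
  let v57 := add v55 v56; ok v57 && (
  let v58 := mul v48 v57; ok v58 && (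
  let v59 := scale ⟨0, 1781266989312, 0, 0⟩ v36; ok v59 && (
  let v60 := scale ⟨0, 27084827172736, 0, 0⟩ v34; ok v60 && (
  let v61 := add v59 v60; ok v61 && (
  let v62 := cst ⟨0, 2633070007104, 0, 0⟩; ok v62 && (
  let v63 := add v61 v62; ok v63 && (
  let v64 := add v58 v63; ok v64 && (
  let v65 := mul v48 v64; ok v65 && (
  let v66 := scale ⟨1526902875584, 0, 0, 0⟩ v36; ok v66 && (
  let v67 := scale ⟨19124167201408, 0, 0, 0⟩ v34; ok v67 && (
  let v68 := add v66 v67; ok v68 && (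
  let v69 := cst ⟨1786534437376, 0, 0, 0⟩; ok v69 && (
  let v70 := add v68 v69; ok v70 && (
  let v71 := add v65 v70; ok v71 && (
  let v72 := mul v48 v71; ok v72 && (
  let v73 := scale ⟨0, 2044617846336, 0, 0⟩ v36; ok v73 && (
  let v74 := scale ⟨0, 34695143397888, 0, 0⟩ v34; ok v74 && (
  let v75 := add v73 v74; ok v75 && (
  let v76 := cst ⟨0, 470602375808, 0, 0⟩; ok v76 && (
  let v77 := add v75 v76; ok v77 && (
  let v78 := add v72 v77; ok v78 && (
  let v79 := mul v48 v78; ok v79 && (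
  let v80 := scale ⟨0, 245665460544, 0, 0⟩ v36; ok v80 && (
  let v81 := scale ⟨15426309922880, 0, 0, 0⟩ v34; ok v81 && (
  let v82 := add v80 v81; ok v82 && (
  let v83 := cst ⟨868581163968, 0, 0, 0⟩; ok v83 && (
  let v84 := add v82 v83; ok v84 && (
  let v85 := add v79 v84; ok v85 && (
  let v86 := mul v48 v85; ok v86 && (
  let v87 := scale ⟨1066349951872, 0, 0, 0⟩ v36; ok v87 && (
  let v88 := scale ⟨396109696256, 0, 0, 0⟩ v37; ok v88 && (
  let v89 := add v87 v88; ok v89 && (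
  let v90 := scale ⟨0, 236526323136, 0, 0⟩ v34; ok v90 && (
  let v91 := add v89 v90; ok v91 && (
  let v92 := scale ⟨26186117816256, 0, 0, 0⟩ v39; ok v92 && (
  let v93 := add v91 v92; ok v93 && (
  let v94 := scale ⟨569802385099648, 0, 0, 0⟩ v41; ok v94 && (
  let v95 := add v93 v94; ok v95 && (
  let v96 := cst ⟨0, 759536097536, 0, 0⟩; ok v96 && (
  let v97 := add v95 v96; ok v97 && (
  let v98 := add v86 v97; ok v98 && (
  let v99 := mul v48 v98; ok v99 && (
  let v100 := scale ⟨0, 1485047699072, 0, 0⟩ v36; ok v100 && (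
  let v101 := scale ⟨0, 223226032128, 0, 0⟩ v37; ok v101 && (
  let v102 := add v100 v101; ok v102 && (
  let v103 := scale ⟨0, 314042463360, 0, 0⟩ v34; ok v103 && (
  let v104 := add v102 v103; ok v104 && (
  let v105 := scale ⟨0, 15865989985920, 0, 0⟩ v39; ok v105 && (
  let v106 := add v104 v105; ok v106 && (
  let v107 := scale ⟨0, 327154934930048, 0, 0⟩ v41; ok v107 && (
  let v108 := add v106 v107; ok v108 && (
  let v109 := cst ⟨401110233920, 0, 0, 0⟩; ok v109 && (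
  let v110 := add v108 v109; ok v110 && (
  let v111 := add v99 v110; ok v111 && (
  let v112 := mul v48 v111; ok v112 && (
  let v113 := scale ⟨742948840960, 0, 0, 0⟩ v36; ok v113 && (
  let v114 := scale ⟨81011339520, 0, 0, 0⟩ v37; ok v114 && (
  let v115 := add v113 v114; ok v115 && (
  let v116 := scale ⟨0, 18793233745856, 0, 0⟩ v34; ok v116 && (
  let v117 := add v115 v116; ok v117 && (
  let v118 := scale ⟨14522583453056, 0, 0, 0⟩ v39; ok v118 && (
  let v119 := add v117 v118; ok v119 && (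
  let v120 := scale ⟨315901754843840, 0, 0, 0⟩ v41; ok v120 && (
  let v121 := add v119 v120; ok v121 && (
  let v122 := cst ⟨0, 2037591658240, 0, 0⟩; ok v122 && (
  let v123 := add v121 v122; ok v123 && (
  let v124 := add v112 v123; ok v124 && (
  let v125 := mul v48 v124; ok v125 && (
  let v126 := scale ⟨0, 876648608768, 0, 0⟩ v36; ok v126 && (
  let v127 := scale ⟨0, 69339403648, 0, 0⟩ v37; ok v127 && (
  let v128 := add v126 v127; ok v128 && (
  let v129 := scale ⟨491548655168, 0, 0, 0⟩ v34; ok v129 && (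
  let v130 := add v128 v129; ok v130 && (
  let v131 := scale ⟨0, 6708523074624, 0, 0⟩ v39; ok v131 && (
  let v132 := add v130 v131; ok v132 && (
  let v133 := scale ⟨0, 63822908104128, 0, 0⟩ v41; ok v133 && (
  let v134 := add v132 v133; ok v134 && (
  let v135 := cst ⟨3731207086976, 0, 0, 0⟩; ok v135 && (
  let v136 := add v134 v135; ok v136 && (
  let v137 := add v125 v136; ok v137 && (
  let v138 := mul v48 v137; ok v138 && (
  let v139 := scale ⟨750203826048, 0, 0, 0⟩ v36; ok v139 && (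
  let v140 := scale ⟨0, 215643454272, 0, 0⟩ v37; ok v140 && (
  let v141 := add v139 v140; ok v141 && (
  let v142 := scale ⟨25686854400, 0, 0, 0⟩ v38; ok v142 && (
  let v143 := add v141 v142; ok v143 && (
  let v144 := scale ⟨3471409305088, 0, 0, 0⟩ v34; ok v144 && (
  let v145 := add v143 v144; ok v145 && (
  let v146 := scale ⟨2137271078144, 0, 0, 0⟩ v39; ok v146 && (
  let v147 := add v145 v146; ok v147 && (
  let v148 := scale ⟨0, 924911048704, 0, 0⟩ v40; ok v148 && (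
  let v149 := add v147 v148; ok v149 && (
  let v150 := scale ⟨7819966989376, 0, 0, 0⟩ v41; ok v150 && (
  let v151 := add v149 v150; ok v151 && (
  let v152 := scale ⟨0, 20852716380608, 0, 0⟩ v42; ok v152 && (
  let v153 := add v151 v152; ok v153 && (
  let v154 := scale ⟨70376553176640, 0, 0, 0⟩ v43; ok v154 && (
  let v155 := add v153 v154; ok v155 && (
  let v156 := cst ⟨1108141199808, 0, 0, 0⟩; ok v156 && (
  let v157 := add v155 v156; ok v157 && (
  let v158 := mul v157 v8; ok v158 && (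
  let v159 := add v138 v158; ok v159 && (
  let v160 := mul x0 x0; ok v160 && (
  let v161 := scale ⟨5703716569088, 0, 0, 0⟩ v160; ok v161 && (
  let v162 := cst ⟨1726576852992, 0, 0, 0⟩; ok v162 && (
  let v163 := add v161 v162; ok v163 && (
  let v164 := scale ⟨4398046511104, 0, 0, 0⟩ v8; ok v164 && (
  let v165 := mul v48 v163; ok v165 && (
  let v166 := scale ⟨4398046511104, 0, 0, 0⟩ v165; ok v166 && (
  let v167 := add v164 v166; ok v167 && (
  let v168 := scale ⟨0, 165872271360, 0, 0⟩ v36; ok v168 && (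
  let v169 := scale ⟨0, 13061062656, 0, 0⟩ v37; ok v169 && (
  let v170 := add v168 v169; ok v170 && (
  let v171 := scale ⟨1030873022464, 0, 0, 0⟩ v38; ok v171 && (
  let v172 := add v170 v171; ok v172 && (
  let v173 := scale ⟨54939615232, 0, 0, 0⟩ v34; ok v173 && (
  let v174 := add v172 v173; ok v174 && (
  let v175 := scale ⟨1456536289280, 0, 0, 0⟩ v39; ok v175 && (
  let v176 := add v174 v175; ok v176 && (
  let v177 := cst ⟨185628819456, 0, 0, 0⟩; ok v177 && (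
  let v178 := add v176 v177; ok v178 && (
  let v179 := scale ⟨824633720832, 0, 0, 0⟩ v11; ok v179 && (
  let v180 := neg v179; ok v180 && (
  let v181 := exp v180; ok v181 && (
  let v182 := mul v178 v181; ok v182 && (
  let v183 := mul v182 v167; ok v183 && (
  let v184 := scale ⟨879662989312, 0, 0, 0⟩ v167; ok v184 && (
  let v185 := add v184 v27; ok v185 && (
  isPos 2 v185 && (
  let v186 := inv v185; ok v186 && (
  let v187 := mul v183 v186; ok v187 && (
  let v188 := neg v159; ok v188 && (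
  let v189 := exp v188; ok v189 && (
  let v190 := add v189 v27; ok v190 && (
  isPos 2 v190 && (
  let v191 := log v190; ok v191 && (
  let v192 := mul v187 x2; ok v192 && (
  let v193 := sub v27 v192; ok v193 && (
  let v194 := log v193; ok v194 && (
  let v195 := mul v189 v192; ok v195 && (
  let v196 := add v195 v27; ok v196 && (
  isPos 2 v196 && (
  let v197 := log v196; ok v197 && (
  let v198 := scale ⟨274877906944, 0, 0, 0⟩ v22; ok v198 && (
  let v199 := log v28; ok v199 && (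
  let v200 := add v8 v199; ok v200 && (
  let v201 := sub v191 v197; ok v201 && (
  let v202 := sub v201 v200; ok v202 && (
  let v203 := mul v202 x0; ok v203 && (
  let v204 := exp v203; ok v204 && (
  let v205 := sub v197 v194; ok v205 && (
  let v206 := add v205 v159; ok v206 && (
  let v207 := mul v206 x0; ok v207 && (
  let v208 := exp v207; ok v208 && (
  let v209 := mul x0 v163; ok v209 && (
  let v210 := scale ⟨1649267441664, 0, 0, 0⟩ v198; ok v210 && (
  let v211 := add v210 v27; ok v211 && (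
  let v212 := mul v209 v211; ok v212 && (
  let v213 := mul v27 v212; ok v213 && (
  let v214 := scale ⟨0, 0, 1099511627776, 0⟩ v213; ok v214 && (
  let v215 := mul v214 v214; ok v215 && (
  let v216 := sub v198 v215; ok v216 && (
  let v217 := mul v204 v204; ok v217 && (
  let v218 := mul v217 v216; ok v218 && (
  let v219 := scale ⟨4398046511104, 0, 0, 0⟩ v218; ok v219 && (
  let v220 := sub v27 v219; ok v220 && (
  let v221 := log v220; ok v221 && (
  let v222 := scale ⟨549755813888, 0, 0, 0⟩ v221; ok v222 && (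
  let v223 := exp v222; ok v223 && (
  let v224 := mul v204 v214; ok v224 && (
  let v225 := mul v224 v223; ok v225 && (
  let v226 := scale ⟨4398046511104, 0, 0, 0⟩ v217; ok v226 && (
  let v227 := scale ⟨2199023255552, 0, 0, 0⟩ v215; ok v227 && (
  let v228 := sub v227 v198; ok v228 && (
  let v229 := mul v226 v228; ok v229 && (
  let v230 := add v229 v27; ok v230 && (
  let v231 := scale ⟨4398046511104, 0, 0, 0⟩ v225; ok v231 && (
  let v232 := sub v230 v231; ok v232 && (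
  let v233 := log v232; ok v233 && (
  let v234 := cst ⟨549755813888, 0, 0, 0⟩; ok v234 && (
  let v235 := sub v197 v191; ok v235 && (
  let v236 := scale ⟨549755813888, 0, 0, 0⟩ v9; ok v236 && (
  let v237 := mul v233 v236; ok v237 && (
  let v238 := add v235 v237; ok v238 && (
  let v239 := exp v238; ok v239 && (
  let v240 := sub v234 v239; ok v240 && (
  isPos 2 v240 && (
  true)))))))))))))))))))))))))))))))))))))))))))))))))))))))))))))))))))))))))))))))))))))))))))))))))))))))))))))))))))))))))))))))))))))))))))))))))))))))))))))))))))))))))))))))))))))))))))))))))))))))))))))))))))))))))))))))))))))))))))))))))))))))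
  | _ => false

set_option maxRecDepth 1000000 in
theorem c_T_0_eq (X : XOps) (m : List X.O.α)
    (h : c_T_0 X.O.cst X.O.add X.O.sub X.O.mul X.O.scale X.O.neg X.O.inv X.O.exp X.O.log X.O.ok
      X.O.isPos X.O.isLt X.ball X.rball m = true) :
    runX X 2 p_T_0 m = true := by
  match m, h with
  | [x0, x1, x2], h => exact h

abbrev gT : List (List Op) := [p_T_0]

noncomputable abbrev kT : List (List xE.O.α → Bool) := [c_T_0 xE.O.cst xE.O.add xE.O.sub xE.O.mul xE.O.scale xE.O.neg xE.O.inv xE.O.exp xE.O.log xE.O.ok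
      xE.O.isPos xE.O.isLt xE.ball xE.rball]

theorem kT_eq : List.Forall₂ (fun (ops : List Op) (chk : List xE.O.α → Bool) =>
    ∀ m, chk m = true → runX xE 2 ops m = true) gT kT :=
  List.Forall₂.cons (c_T_0_eq xE) List.Forall₂.nil

theorem gT_eq : gT = [comp (PT tab) ρ3 3] := by decide +kernel

def p_S_0 : List Op := [
  .scale ⟨10447239512064, 0, 0, 0⟩ 0,
  .const ⟨0, 7472169353216, 0, 0⟩,
  .add 1 0,
  .mul 0 3,
  .const ⟨2077207035904, 0, 0, 0⟩,
  .add 1 0,
  .mul 7 0,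
  .const ⟨879609511936, 0, 0, 0⟩,
  .add 1 0,
  .mul 9 0,
  .scale ⟨2199023255552, 0, 0, 0⟩ 0,
  .exp 1,
  .neg 2,
  .exp 0,
  .mul 0 0,
  .sub 3 1,
  .add 4 2,
  .mul 1 0,
  .scale ⟨549755813888, 0, 0, 0⟩ 0,
  .inv 19,
  .mul 1 0,
  .const ⟨1099511627776, 0, 0, 0⟩,
  .const ⟨247497490432, 0, 0, 0⟩,
  .sub 23 0,
  .const ⟨1340029796352, 0, 0, 0⟩,
  .sub 16 0,
  .mul 0 0,
  .mul 0 1,
  .mul 4 2,
  .scale ⟨1453440565248, 0, 0, 0⟩ 3,
  .scale ⟨0, 551785005056, 0, 0⟩ 3,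
  .add 1 0,
  .scale ⟨633919307776, 0, 0, 0⟩ 4,
  .add 1 0,
  .scale ⟨13002722377728, 0, 0, 0⟩ 10,
  .add 1 0,
  .scale ⟨13724055633920, 0, 0, 0⟩ 7,
  .add 1 0,
  .const ⟨2951814709248, 0, 0, 0⟩,
  .add 1 0,
  .pos 0,
  .mul 19 19,
  .const ⟨51435454595072, 0, 0, 0⟩,
  .add 1 0,
  .pos 0,
  .const ⟨247497490432, 0, 0, 0⟩,
  .sub 44 0,
  .const ⟨1340029796352, 0, 0, 0⟩,
  .sub 37 0,
  .mul 0 0,
  .mul 0 1,
  .mul 4 2,
  .scale ⟨1453440565248, 0, 0, 0⟩ 3,
  .scale ⟨0, 551785005056, 0, 0⟩ 3,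
  .add 1 0,
  .scale ⟨633919307776, 0, 0, 0⟩ 4,
  .add 1 0,
  .scale ⟨13002722377728, 0, 0, 0⟩ 10,
  .add 1 0,
  .scale ⟨13724055633920, 0, 0, 0⟩ 7,
  .add 1 0,
  .const ⟨2951814709248, 0, 0, 0⟩,
  .add 1 0,
  .scale ⟨2199023255552, 0, 0, 0⟩ 50,
  .neg 0,
  .exp 0,
  .mul 53 3,
  .add 0 43,
  .mul 2 0,
  .sub 45 0,
  .inv 49,
  .mul 1 0,
  .pos 0,
  .scale ⟨3364498702336, 0, 0, 0⟩ 23,
  .scale ⟨474667614208, 0, 0, 0⟩ 23,
  .add 1 0,
  .scale ⟨0, 2095638446080, 0, 0⟩ 24,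
  .add 1 0,
  .scale ⟨19426770747392, 0, 0, 0⟩ 30,
  .add 1 0,
  .scale ⟨29633762099200, 0, 0, 0⟩ 27,
  .add 1 0,
  .const ⟨2985659334656, 0, 0, 0⟩,
  .add 1 0,
  .pos 0,
  .mul 60 60,
  .const ⟨11966852628480, 0, 0, 0⟩,
  .add 1 0,
  .pos 0,
  .const ⟨247497490432, 0, 0, 0⟩,
  .sub 85 0,
  .const ⟨1340029796352, 0, 0, 0⟩,
  .sub 78 0,
  .mul 0 0,
  .mul 0 1,
  .mul 4 2,
  .scale ⟨4817939267584, 0, 0, 0⟩ 3,
  .scale ⟨0, 77117390848, 0, 0⟩ 3,
  .add 1 0,
  .scale ⟨0, 1461719138304, 0, 0⟩ 4,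
  .add 1 0,
  .scale ⟨32429493125120, 0, 0, 0⟩ 10,
  .add 1 0,
  .scale ⟨43357817733120, 0, 0, 0⟩ 7,
  .add 1 0,
  .const ⟨5937474043904, 0, 0, 0⟩,
  .add 1 0,
  .scale ⟨4398046511104, 0, 0, 0⟩ 91,
  .neg 0,
  .exp 0,
  .mul 94 3,
  .add 0 84,
  .mul 2 0,
  .sub 86 0,
  .inv 90,
  .mul 1 0,
  .pos 0,
  .scale ⟨3144045690880, 0, 0, 0⟩ 23,
  .scale ⟨0, 725660139520, 0, 0⟩ 23,
  .add 1 0,
  .scale ⟨0, 2483319013376, 0, 0⟩ 24,
  .add 1 0,
  .scale ⟨15690447454208, 0, 0, 0⟩ 30,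
  .add 1 0,
  .scale ⟨21680044048384, 0, 0, 0⟩ 27,
  .add 1 0,
  .const ⟨2879065751552, 0, 0, 0⟩,
  .add 1 0,
  .pos 0,
  .mul 101 101,
  .const ⟨4344359419904, 0, 0, 0⟩,
  .add 1 0,
  .pos 0,
  .const ⟨247497490432, 0, 0, 0⟩,
  .sub 126 0,
  .const ⟨1340029796352, 0, 0, 0⟩,
  .sub 119 0,
  .mul 0 0,
  .mul 0 1,
  .mul 4 2,
  .scale ⟨7961984958464, 0, 0, 0⟩ 3,
  .scale ⟨0, 802777530368, 0, 0⟩ 3,
  .add 1 0,
  .scale ⟨0, 3945038151680, 0, 0⟩ 4,
  .add 1 0,
  .scale ⟨48119940579328, 0, 0, 0⟩ 10,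
  .add 1 0,
  .scale ⟨65037861781504, 0, 0, 0⟩ 7,
  .add 1 0,
  .const ⟨8816539795456, 0, 0, 0⟩,
  .add 1 0,
  .scale ⟨6597069766656, 0, 0, 0⟩ 132,
  .neg 0,
  .exp 0,
  .mul 135 3,
  .add 0 125,
  .mul 2 0,
  .sub 127 0,
  .inv 131,
  .mul 1 0,
  .pos 0,
  .scale ⟨2555947122688, 0, 0, 0⟩ 23,
  .scale ⟨0, 375244914688, 0, 0⟩ 23,
  .add 1 0,
  .scale ⟨0, 1143492968448, 0, 0⟩ 24,
  .add 1 0,
  .scale ⟨15447683366912, 0, 0, 0⟩ 30,
  .add 1 0,
  .scale ⟨23374217609216, 0, 0, 0⟩ 27,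
  .add 1 0,
  .const ⟨2527082512384, 0, 0, 0⟩,
  .add 1 0,
  .pos 0,
  .mul 142 142,
  .const ⟨974957576192, 0, 0, 0⟩,
  .add 1 0,
  .pos 0,
  .const ⟨247497490432, 0, 0, 0⟩,
  .sub 167 0,
  .const ⟨1340029796352, 0, 0, 0⟩,
  .sub 160 0,
  .mul 0 0,
  .mul 0 1,
  .mul 4 2,
  .scale ⟨10517932081152, 0, 0, 0⟩ 3,
  .scale ⟨0, 1178022445056, 0, 0⟩ 3,
  .add 1 0,
  .scale ⟨0, 5088531120128, 0, 0⟩ 4,
  .add 1 0,
  .scale ⟨63567623946240, 0, 0, 0⟩ 10,
  .add 1 0,
  .scale ⟨88412079390720, 0, 0, 0⟩ 7,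
  .add 1 0,
  .const ⟨11343622307840, 0, 0, 0⟩,
  .add 1 0,
  .scale ⟨8796093022208, 0, 0, 0⟩ 173,
  .neg 0,
  .exp 0,
  .mul 176 3,
  .add 0 166,
  .mul 2 0,
  .sub 168 0,
  .inv 172,
  .mul 1 0,
  .pos 0,
  .scale ⟨3261018013696, 0, 0, 0⟩ 23,
  .scale ⟨1241397985280, 0, 0, 0⟩ 23,
  .add 1 0,
  .scale ⟨98152153088, 0, 0, 0⟩ 24,
  .add 1 0,
  .scale ⟨21834953654272, 0, 0, 0⟩ 30,
  .add 1 0,
  .scale ⟨42112350355456, 0, 0, 0⟩ 27,
  .add 1 0,
  .const ⟨2653622501376, 0, 0, 0⟩,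
  .add 1 0,
  .pos 0,
  .mul 183 183,
  .const ⟨0, 704374636544, 0, 0⟩,
  .add 1 0,
  .pos 0,
  .const ⟨247497490432, 0, 0, 0⟩,
  .sub 208 0,
  .const ⟨1340029796352, 0, 0, 0⟩,
  .sub 201 0,
  .mul 0 0,
  .mul 0 1,
  .mul 4 2,
  .scale ⟨13778950094848, 0, 0, 0⟩ 3,
  .scale ⟨63375540224, 0, 0, 0⟩ 3,
  .add 1 0,
  .scale ⟨0, 4990378967040, 0, 0⟩ 4,
  .add 1 0,
  .scale ⟨85402577600512, 0, 0, 0⟩ 10,
  .add 1 0,
  .scale ⟨130524429746176, 0, 0, 0⟩ 7,
  .add 1 0,
  .const ⟨13997244809216, 0, 0, 0⟩,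
  .add 1 0,
  .scale ⟨10995116277760, 0, 0, 0⟩ 214,
  .neg 0,
  .exp 0,
  .mul 217 3,
  .add 0 207,
  .mul 2 0,
  .sub 209 0,
  .inv 213,
  .mul 1 0,
  .pos 0,
  .scale ⟨5584766763008, 0, 0, 0⟩ 23,
  .scale ⟨4596206731264, 0, 0, 0⟩ 23,
  .add 1 0,
  .scale ⟨2315609505792, 0, 0, 0⟩ 24,
  .add 1 0,
  .scale ⟨43739727069184, 0, 0, 0⟩ 30,
  .add 1 0,
  .scale ⟨94320783196160, 0, 0, 0⟩ 27,
  .add 1 0,
  .const ⟨3431429636096, 0, 0, 0⟩,
  .add 1 0,
  .pos 0,
  .mul 224 224,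
  .const ⟨0, 1646046216192, 0, 0⟩,
  .add 1 0,
  .pos 0,
  .const ⟨247497490432, 0, 0, 0⟩,
  .sub 249 0,
  .const ⟨1340029796352, 0, 0, 0⟩,
  .sub 242 0,
  .mul 0 0,
  .mul 0 1,
  .mul 4 2,
  .scale ⟨19363716857856, 0, 0, 0⟩ 3,
  .scale ⟨4659582271488, 0, 0, 0⟩ 3,
  .add 1 0,
  .scale ⟨0, 2674769461248, 0, 0⟩ 4,
  .add 1 0,
  .scale ⟨129142304669696, 0, 0, 0⟩ 10,
  .add 1 0,
  .scale ⟨224845212942336, 0, 0, 0⟩ 7,
  .add 1 0,
  .const ⟨17428674445312, 0, 0, 0⟩,
  .add 1 0,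
  .scale ⟨13194139533312, 0, 0, 0⟩ 255,
  .neg 0,
  .exp 0,
  .mul 258 3,
  .add 0 248,
  .mul 2 0,
  .sub 250 0,
  .inv 254,
  .mul 1 0,
  .pos 0,
  .mul 264 9,
  .add 0 254,
  .scale ⟨0, 4617948836659, 0, 0⟩ 266,
  .exp 0,
  .mul 2 0,
  .lt 0 1099511627520]

set_option maxRecDepth 1000000 in
noncomputable def c_S_0 {α : Type} (cst : Z → α) (add sub mul : α → α → α) (scale : Z → α → α)
    (neg inv exp log : α → α) (ok : α → Bool) (isPos : Nat → α → Bool) (isLt : α → Nat → Bool)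
    (ball : Nat → α → α) (rball : α → α → α) : List α → Bool
  | [x0, x1] =>
  let v0 := scale ⟨10447239512064, 0, 0, 0⟩ x0; ok v0 && (
  let v1 := cst ⟨0, 7472169353216, 0, 0⟩; ok v1 && (
  let v2 := add v0 v1; ok v2 && (
  let v3 := mul v2 x0; ok v3 && (
  let v4 := cst ⟨2077207035904, 0, 0, 0⟩; ok v4 && (
  let v5 := add v3 v4; ok v5 && (
  let v6 := mul x1 v5; ok v6 && (
  let v7 := cst ⟨879609511936, 0, 0, 0⟩; ok v7 && (
  let v8 := add v6 v7; ok v8 && (
  let v9 := mul x0 v8; ok v9 && (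
  let v10 := scale ⟨2199023255552, 0, 0, 0⟩ v9; ok v10 && (
  let v11 := exp v9; ok v11 && (
  let v12 := neg v9; ok v12 && (
  let v13 := exp v12; ok v13 && (
  let v14 := mul v13 v13; ok v14 && (
  let v15 := sub v11 v13; ok v15 && (
  let v16 := add v11 v13; ok v16 && (
  let v17 := mul v15 v16; ok v17 && (
  let v18 := scale ⟨549755813888, 0, 0, 0⟩ v17; ok v18 && (
  let v19 := inv x0; ok v19 && (
  let v20 := mul v18 v19; ok v20 && (
  let v21 := cst ⟨1099511627776, 0, 0, 0⟩; ok v21 && (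
  let v22 := cst ⟨247497490432, 0, 0, 0⟩; ok v22 && (
  let v23 := sub x0 v22; ok v23 && (
  let v24 := cst ⟨1340029796352, 0, 0, 0⟩; ok v24 && (
  let v25 := sub v8 v24; ok v25 && (
  let v26 := mul v25 v25; ok v26 && (
  let v27 := mul v26 v25; ok v27 && (
  let v28 := mul v23 v25; ok v28 && (
  let v29 := scale ⟨1453440565248, 0, 0, 0⟩ v25; ok v29 && (
  let v30 := scale ⟨0, 551785005056, 0, 0⟩ v26; ok v30 && (
  let v31 := add v29 v30; ok v31 && (
  let v32 := scale ⟨633919307776, 0, 0, 0⟩ v27; ok v32 && (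
  let v33 := add v31 v32; ok v33 && (
  let v34 := scale ⟨13002722377728, 0, 0, 0⟩ v23; ok v34 && (
  let v35 := add v33 v34; ok v35 && (
  let v36 := scale ⟨13724055633920, 0, 0, 0⟩ v28; ok v36 && (
  let v37 := add v35 v36; ok v37 && (
  let v38 := cst ⟨2951814709248, 0, 0, 0⟩; ok v38 && (
  let v39 := add v37 v38; ok v39 && (
  isPos 2 v39 && (
  let v40 := mul v20 v20; ok v40 && (
  let v41 := cst ⟨51435454595072, 0, 0, 0⟩; ok v41 && (
  let v42 := add v40 v41; ok v42 && (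
  isPos 2 v42 && (
  let v43 := cst ⟨247497490432, 0, 0, 0⟩; ok v43 && (
  let v44 := sub x0 v43; ok v44 && (
  let v45 := cst ⟨1340029796352, 0, 0, 0⟩; ok v45 && (
  let v46 := sub v8 v45; ok v46 && (
  let v47 := mul v46 v46; ok v47 && (
  let v48 := mul v47 v46; ok v48 && (
  let v49 := mul v44 v46; ok v49 && (
  let v50 := scale ⟨1453440565248, 0, 0, 0⟩ v46; ok v50 && (
  let v51 := scale ⟨0, 551785005056, 0, 0⟩ v47; ok v51 && (
  let v52 := add v50 v51; ok v52 && (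
  let v53 := scale ⟨633919307776, 0, 0, 0⟩ v48; ok v53 && (
  let v54 := add v52 v53; ok v54 && (
  let v55 := scale ⟨13002722377728, 0, 0, 0⟩ v44; ok v55 && (
  let v56 := add v54 v55; ok v56 && (
  let v57 := scale ⟨13724055633920, 0, 0, 0⟩ v49; ok v57 && (
  let v58 := add v56 v57; ok v58 && (
  let v59 := cst ⟨2951814709248, 0, 0, 0⟩; ok v59 && (
  let v60 := add v58 v59; ok v60 && (
  let v61 := scale ⟨2199023255552, 0, 0, 0⟩ v10; ok v61 && (
  let v62 := neg v61; ok v62 && (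
  let v63 := exp v62; ok v63 && (
  let v64 := mul v10 v60; ok v64 && (
  let v65 := add v64 v21; ok v65 && (
  let v66 := mul v63 v65; ok v66 && (
  let v67 := sub v21 v66; ok v67 && (
  let v68 := inv v18; ok v68 && (
  let v69 := mul v67 v68; ok v69 && (
  isPos 2 v69 && (
  let v70 := scale ⟨3364498702336, 0, 0, 0⟩ v46; ok v70 && (
  let v71 := scale ⟨474667614208, 0, 0, 0⟩ v47; ok v71 && (
  let v72 := add v70 v71; ok v72 && (
  let v73 := scale ⟨0, 2095638446080, 0, 0⟩ v48; ok v73 && (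
  let v74 := add v72 v73; ok v74 && (
  let v75 := scale ⟨19426770747392, 0, 0, 0⟩ v44; ok v75 && (
  let v76 := add v74 v75; ok v76 && (
  let v77 := scale ⟨29633762099200, 0, 0, 0⟩ v49; ok v77 && (
  let v78 := add v76 v77; ok v78 && (
  let v79 := cst ⟨2985659334656, 0, 0, 0⟩; ok v79 && (
  let v80 := add v78 v79; ok v80 && (
  isPos 2 v80 && (
  let v81 := mul v20 v20; ok v81 && (
  let v82 := cst ⟨11966852628480, 0, 0, 0⟩; ok v82 && (
  let v83 := add v81 v82; ok v83 && (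
  isPos 2 v83 && (
  let v84 := cst ⟨247497490432, 0, 0, 0⟩; ok v84 && (
  let v85 := sub x0 v84; ok v85 && (
  let v86 := cst ⟨1340029796352, 0, 0, 0⟩; ok v86 && (
  let v87 := sub v8 v86; ok v87 && (
  let v88 := mul v87 v87; ok v88 && (
  let v89 := mul v88 v87; ok v89 && (
  let v90 := mul v85 v87; ok v90 && (
  let v91 := scale ⟨4817939267584, 0, 0, 0⟩ v87; ok v91 && (
  let v92 := scale ⟨0, 77117390848, 0, 0⟩ v88; ok v92 && (
  let v93 := add v91 v92; ok v93 && (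
  let v94 := scale ⟨0, 1461719138304, 0, 0⟩ v89; ok v94 && (
  let v95 := add v93 v94; ok v95 && (
  let v96 := scale ⟨32429493125120, 0, 0, 0⟩ v85; ok v96 && (
  let v97 := add v95 v96; ok v97 && (
  let v98 := scale ⟨43357817733120, 0, 0, 0⟩ v90; ok v98 && (
  let v99 := add v97 v98; ok v99 && (
  let v100 := cst ⟨5937474043904, 0, 0, 0⟩; ok v100 && (
  let v101 := add v99 v100; ok v101 && (
  let v102 := scale ⟨4398046511104, 0, 0, 0⟩ v10; ok v102 && (
  let v103 := neg v102; ok v103 && (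
  let v104 := exp v103; ok v104 && (
  let v105 := mul v10 v101; ok v105 && (
  let v106 := add v105 v21; ok v106 && (
  let v107 := mul v104 v106; ok v107 && (
  let v108 := sub v21 v107; ok v108 && (
  let v109 := inv v18; ok v109 && (
  let v110 := mul v108 v109; ok v110 && (
  isPos 2 v110 && (
  let v111 := scale ⟨3144045690880, 0, 0, 0⟩ v87; ok v111 && (
  let v112 := scale ⟨0, 725660139520, 0, 0⟩ v88; ok v112 && (
  let v113 := add v111 v112; ok v113 && (
  let v114 := scale ⟨0, 2483319013376, 0, 0⟩ v89; ok v114 && (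
  let v115 := add v113 v114; ok v115 && (
  let v116 := scale ⟨15690447454208, 0, 0, 0⟩ v85; ok v116 && (
  let v117 := add v115 v116; ok v117 && (
  let v118 := scale ⟨21680044048384, 0, 0, 0⟩ v90; ok v118 && (
  let v119 := add v117 v118; ok v119 && (
  let v120 := cst ⟨2879065751552, 0, 0, 0⟩; ok v120 && (
  let v121 := add v119 v120; ok v121 && (
  isPos 2 v121 && (
  let v122 := mul v20 v20; ok v122 && (
  let v123 := cst ⟨4344359419904, 0, 0, 0⟩; ok v123 && (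
  let v124 := add v122 v123; ok v124 && (
  isPos 2 v124 && (
  let v125 := cst ⟨247497490432, 0, 0, 0⟩; ok v125 && (
  let v126 := sub x0 v125; ok v126 && (
  let v127 := cst ⟨1340029796352, 0, 0, 0⟩; ok v127 && (
  let v128 := sub v8 v127; ok v128 && (
  let v129 := mul v128 v128; ok v129 && (
  let v130 := mul v129 v128; ok v130 && (
  let v131 := mul v126 v128; ok v131 && (
  let v132 := scale ⟨7961984958464, 0, 0, 0⟩ v128; ok v132 && (
  let v133 := scale ⟨0, 802777530368, 0, 0⟩ v129; ok v133 && (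
  let v134 := add v132 v133; ok v134 && (
  let v135 := scale ⟨0, 3945038151680, 0, 0⟩ v130; ok v135 && (
  let v136 := add v134 v135; ok v136 && (
  let v137 := scale ⟨48119940579328, 0, 0, 0⟩ v126; ok v137 && (
  let v138 := add v136 v137; ok v138 && (
  let v139 := scale ⟨65037861781504, 0, 0, 0⟩ v131; ok v139 && (
  let v140 := add v138 v139; ok v140 && (
  let v141 := cst ⟨8816539795456, 0, 0, 0⟩; ok v141 && (
  let v142 := add v140 v141; ok v142 && (
  let v143 := scale ⟨6597069766656, 0, 0, 0⟩ v10; ok v143 && (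
  let v144 := neg v143; ok v144 && (
  let v145 := exp v144; ok v145 && (
  let v146 := mul v10 v142; ok v146 && (
  let v147 := add v146 v21; ok v147 && (
  let v148 := mul v145 v147; ok v148 && (
  let v149 := sub v21 v148; ok v149 && (
  let v150 := inv v18; ok v150 && (
  let v151 := mul v149 v150; ok v151 && (
  isPos 2 v151 && (
  let v152 := scale ⟨2555947122688, 0, 0, 0⟩ v128; ok v152 && (
  let v153 := scale ⟨0, 375244914688, 0, 0⟩ v129; ok v153 && (
  let v154 := add v152 v153; ok v154 && (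
  let v155 := scale ⟨0, 1143492968448, 0, 0⟩ v130; ok v155 && (
  let v156 := add v154 v155; ok v156 && (
  let v157 := scale ⟨15447683366912, 0, 0, 0⟩ v126; ok v157 && (
  let v158 := add v156 v157; ok v158 && (
  let v159 := scale ⟨23374217609216, 0, 0, 0⟩ v131; ok v159 && (
  let v160 := add v158 v159; ok v160 && (
  let v161 := cst ⟨2527082512384, 0, 0, 0⟩; ok v161 && (
  let v162 := add v160 v161; ok v162 && (
  isPos 2 v162 && (
  let v163 := mul v20 v20; ok v163 && (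
  let v164 := cst ⟨974957576192, 0, 0, 0⟩; ok v164 && (
  let v165 := add v163 v164; ok v165 && (
  isPos 2 v165 && (
  let v166 := cst ⟨247497490432, 0, 0, 0⟩; ok v166 && (
  let v167 := sub x0 v166; ok v167 && (
  let v168 := cst ⟨1340029796352, 0, 0, 0⟩; ok v168 && (
  let v169 := sub v8 v168; ok v169 && (
  let v170 := mul v169 v169; ok v170 && (
  let v171 := mul v170 v169; ok v171 && (
  let v172 := mul v167 v169; ok v172 && (
  let v173 := scale ⟨10517932081152, 0, 0, 0⟩ v169; ok v173 && (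
  let v174 := scale ⟨0, 1178022445056, 0, 0⟩ v170; ok v174 && (
  let v175 := add v173 v174; ok v175 && (
  let v176 := scale ⟨0, 5088531120128, 0, 0⟩ v171; ok v176 && (
  let v177 := add v175 v176; ok v177 && (
  let v178 := scale ⟨63567623946240, 0, 0, 0⟩ v167; ok v178 && (
  let v179 := add v177 v178; ok v179 && (
  let v180 := scale ⟨88412079390720, 0, 0, 0⟩ v172; ok v180 && (
  let v181 := add v179 v180; ok v181 && (
  let v182 := cst ⟨11343622307840, 0, 0, 0⟩; ok v182 && (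
  let v183 := add v181 v182; ok v183 && (
  let v184 := scale ⟨8796093022208, 0, 0, 0⟩ v10; ok v184 && (
  let v185 := neg v184; ok v185 && (
  let v186 := exp v185; ok v186 && (
  let v187 := mul v10 v183; ok v187 && (
  let v188 := add v187 v21; ok v188 && (
  let v189 := mul v186 v188; ok v189 && (
  let v190 := sub v21 v189; ok v190 && (
  let v191 := inv v18; ok v191 && (
  let v192 := mul v190 v191; ok v192 && (
  isPos 2 v192 && (
  let v193 := scale ⟨3261018013696, 0, 0, 0⟩ v169; ok v193 && (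
  let v194 := scale ⟨1241397985280, 0, 0, 0⟩ v170; ok v194 && (
  let v195 := add v193 v194; ok v195 && (
  let v196 := scale ⟨98152153088, 0, 0, 0⟩ v171; ok v196 && (
  let v197 := add v195 v196; ok v197 && (
  let v198 := scale ⟨21834953654272, 0, 0, 0⟩ v167; ok v198 && (
  let v199 := add v197 v198; ok v199 && (
  let v200 := scale ⟨42112350355456, 0, 0, 0⟩ v172; ok v200 && (
  let v201 := add v199 v200; ok v201 && (
  let v202 := cst ⟨2653622501376, 0, 0, 0⟩; ok v202 && (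
  let v203 := add v201 v202; ok v203 && (
  isPos 2 v203 && (
  let v204 := mul v20 v20; ok v204 && (
  let v205 := cst ⟨0, 704374636544, 0, 0⟩; ok v205 && (
  let v206 := add v204 v205; ok v206 && (
  isPos 2 v206 && (
  let v207 := cst ⟨247497490432, 0, 0, 0⟩; ok v207 && (
  let v208 := sub x0 v207; ok v208 && (
  let v209 := cst ⟨1340029796352, 0, 0, 0⟩; ok v209 && (
  let v210 := sub v8 v209; ok v210 && (
  let v211 := mul v210 v210; ok v211 && (
  let v212 := mul v211 v210; ok v212 && (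
  let v213 := mul v208 v210; ok v213 && (
  let v214 := scale ⟨13778950094848, 0, 0, 0⟩ v210; ok v214 && (
  let v215 := scale ⟨63375540224, 0, 0, 0⟩ v211; ok v215 && (
  let v216 := add v214 v215; ok v216 && (
  let v217 := scale ⟨0, 4990378967040, 0, 0⟩ v212; ok v217 && (
  let v218 := add v216 v217; ok v218 && (
  let v219 := scale ⟨85402577600512, 0, 0, 0⟩ v208; ok v219 && (
  let v220 := add v218 v219; ok v220 && (
  let v221 := scale ⟨130524429746176, 0, 0, 0⟩ v213; ok v221 && (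
  let v222 := add v220 v221; ok v222 && (
  let v223 := cst ⟨13997244809216, 0, 0, 0⟩; ok v223 && (
  let v224 := add v222 v223; ok v224 && (
  let v225 := scale ⟨10995116277760, 0, 0, 0⟩ v10; ok v225 && (
  let v226 := neg v225; ok v226 && (
  let v227 := exp v226; ok v227 && (
  let v228 := mul v10 v224; ok v228 && (
  let v229 := add v228 v21; ok v229 && (
  let v230 := mul v227 v229; ok v230 && (
  let v231 := sub v21 v230; ok v231 && (
  let v232 := inv v18; ok v232 && (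
  let v233 := mul v231 v232; ok v233 && (
  isPos 2 v233 && (
  let v234 := scale ⟨5584766763008, 0, 0, 0⟩ v210; ok v234 && (
  let v235 := scale ⟨4596206731264, 0, 0, 0⟩ v211; ok v235 && (
  let v236 := add v234 v235; ok v236 && (
  let v237 := scale ⟨2315609505792, 0, 0, 0⟩ v212; ok v237 && (
  let v238 := add v236 v237; ok v238 && (
  let v239 := scale ⟨43739727069184, 0, 0, 0⟩ v208; ok v239 && (
  let v240 := add v238 v239; ok v240 && (
  let v241 := scale ⟨94320783196160, 0, 0, 0⟩ v213; ok v241 && (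
  let v242 := add v240 v241; ok v242 && (
  let v243 := cst ⟨3431429636096, 0, 0, 0⟩; ok v243 && (
  let v244 := add v242 v243; ok v244 && (
  isPos 2 v244 && (
  let v245 := mul v20 v20; ok v245 && (
  let v246 := cst ⟨0, 1646046216192, 0, 0⟩; ok v246 && (
  let v247 := add v245 v246; ok v247 && (
  isPos 2 v247 && (
  let v248 := cst ⟨247497490432, 0, 0, 0⟩; ok v248 && (
  let v249 := sub x0 v248; ok v249 && (
  let v250 := cst ⟨1340029796352, 0, 0, 0⟩; ok v250 && (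
  let v251 := sub v8 v250; ok v251 && (
  let v252 := mul v251 v251; ok v252 && (
  let v253 := mul v252 v251; ok v253 && (
  let v254 := mul v249 v251; ok v254 && (
  let v255 := scale ⟨19363716857856, 0, 0, 0⟩ v251; ok v255 && (
  let v256 := scale ⟨4659582271488, 0, 0, 0⟩ v252; ok v256 && (
  let v257 := add v255 v256; ok v257 && (
  let v258 := scale ⟨0, 2674769461248, 0, 0⟩ v253; ok v258 && (
  let v259 := add v257 v258; ok v259 && (
  let v260 := scale ⟨129142304669696, 0, 0, 0⟩ v249; ok v260 && (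
  let v261 := add v259 v260; ok v261 && (
  let v262 := scale ⟨224845212942336, 0, 0, 0⟩ v254; ok v262 && (
  let v263 := add v261 v262; ok v263 && (
  let v264 := cst ⟨17428674445312, 0, 0, 0⟩; ok v264 && (
  let v265 := add v263 v264; ok v265 && (
  let v266 := scale ⟨13194139533312, 0, 0, 0⟩ v10; ok v266 && (
  let v267 := neg v266; ok v267 && (
  let v268 := exp v267; ok v268 && (
  let v269 := mul v10 v265; ok v269 && (
  let v270 := add v269 v21; ok v270 && (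
  let v271 := mul v268 v270; ok v271 && (
  let v272 := sub v21 v271; ok v272 && (
  let v273 := inv v18; ok v273 && (
  let v274 := mul v272 v273; ok v274 && (
  isPos 2 v274 && (
  let v275 := mul v10 v265; ok v275 && (
  let v276 := add v275 v21; ok v276 && (
  let v277 := scale ⟨0, 4617948836659, 0, 0⟩ v10; ok v277 && (
  let v278 := exp v277; ok v278 && (
  let v279 := mul v276 v278; ok v279 && (
  isLt v279 1099511627520 && (
  true)))))))))))))))))))))))))))))))))))))))))))))))))))))))))))))))))))))))))))))))))))))))))))))))))))))))))))))))))))))))))))))))))))))))))))))))))))))))))))))))))))))))))))))))))))))))))))))))))))))))))))))))))))))))))))))))))))))))))))))))))))))))))))))))))))))))))))))))))))))))))))))))))))))))))))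
  | _ => false

set_option maxRecDepth 1000000 in
theorem c_S_0_eq (X : XOps) (m : List X.O.α)
    (h : c_S_0 X.O.cst X.O.add X.O.sub X.O.mul X.O.scale X.O.neg X.O.inv X.O.exp X.O.log X.O.ok
      X.O.isPos X.O.isLt X.ball X.rball m = true) :
    runX X 2 p_S_0 m = true := by
  match m, h with
  | [x0, x1], h => exact h

abbrev gS : List (List Op) := [p_S_0]

noncomputable abbrev kS : List (List xE.O.α → Bool) := [c_S_0 xE.O.cst xE.O.add xE.O.sub xE.O.mul xE.O.scale xE.O.neg xE.O.inv xE.O.exp xE.O.log xE.O.ok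
      xE.O.isPos xE.O.isLt xE.ball xE.rball]

theorem kS_eq : List.Forall₂ (fun (ops : List Op) (chk : List xE.O.α → Bool) =>
    ∀ m, chk m = true → runX xE 2 ops m = true) gS kS :=
  List.Forall₂.cons (c_S_0_eq xE) List.Forall₂.nil

theorem gS_eq : gS = [PS tab 6] := by decide +kernel

end Pool.Agent.helper14.NR.E4d
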